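import Mathlib

/-!
# Definitions for the thin basis with `r_A(n) = O(log n / log log n)`
-/

set_option autoImplicit false

namespace Pool.Agent.H125R2.ET

open Finset

/-- `D` is a base set for the prime `p` with constant `C`. -/
structure IsBase (C p : ℕ) (D : Finset ℕ) : Prop where
  lo : ∀ a ∈ D, p ^ 2 ≤ a
  hi : ∀ a ∈ D, a < C * p ^ 2
  card : D.card ≤ C * p
  cover : ∀ n, 6 * p ^ 2 ≤ n → n < 2 ^ 20 * p ^ 2 → ∃ a ∈ D, ∃ b ∈ D, a + b = n
  rep : ∀ n, ((D ×ˢ D).filter (fun x => x.1 + x.2 = n)).card ≤ C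

/-- A random finite set of naturals: `Ω` carries the uniform measure. -/
structure RFS : Type 1 where
  Ω : Type
  ft : Fintype Ω
  ne : Nonempty Ω
  S : Ω → Finset ℕ

attribute [instance] RFS.ft RFS.ne

/-- expectation -/
noncomputable def RFS.E (X : RFS) (f : X.Ω → ℝ) : ℝ := (∑ ω, f ω) / (Fintype.card X.Ω : ℝ)

open Classical in
/-- indicator of a proposition -/
noncomputable def ind (A : Prop) : ℝ := if A then 1 else 0

theorem ind_true {A : Prop} (h : A) : ind A = 1 := by unfold ind; exact if_pos h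

theorem ind_false {A : Prop} (h : ¬ A) : ind A = 0 := by unfold ind; exact if_neg h

theorem ind_nonneg (A : Prop) : 0 ≤ ind A := by
  by_cases h : A
  · rw [ind_true h]; norm_num
  · rw [ind_false h]

theorem ind_le_one (A : Prop) : ind A ≤ 1 := by
  by_cases h : A
  · rw [ind_true h]
  · rw [ind_false h]; norm_num

theorem ind_mono {A B : Prop} (h : A → B) : ind A ≤ ind B := by
  by_cases hA : A
  · rw [ind_true hA, ind_true (h hA)]
  · rw [ind_false hA]; exact ind_nonneg B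

/-- probability -/
noncomputable def RFS.Pr (X : RFS) (A : X.Ω → Prop) : ℝ := X.E (fun ω => ind (A ω))

/-- exponential moment of the number of hits of `V` -/
noncomputable def RFS.mom (X : RFS) (lam : ℝ) (V : Finset ℕ) : ℝ :=
  X.E (fun ω => Real.exp (lam * ((X.S ω ∩ V).card : ℝ)))

/-- the deterministic set `D` -/
def leaf (D : Finset ℕ) : RFS := ⟨Unit, inferInstance, inferInstance, fun _ => D⟩

/-- one more digit at the bottom, with independent uniform shifts and independent copies -/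
def step (P : ℕ) (hP : 0 < P) (D : Finset ℕ) (X : RFS) : RFS where
  Ω := (D → Fin P × X.Ω)
  ft := by classical exact inferInstance
  ne := ⟨fun _ => (⟨0, hP⟩, Classical.choice X.ne)⟩
  S := fun t => Finset.univ.biUnion
    (fun a : D => (X.S (t a).2).image (fun s => a.1 + P * ((t a).1.1 + s)))

/-- the block of the prime `p`: four digits modulo `p ^ 2` -/
def block (p : ℕ) (hp : 0 < p) (D : Finset ℕ) : RFS :=
  step (p ^ 2) (pow_pos hp 2) D (step (p ^ 2) (pow_pos hp 2) D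
    (step (p ^ 2) (pow_pos hp 2) D (leaf D)))

/-- union of two independent random sets -/
def pair (X Y : RFS) : RFS where
  Ω := X.Ω × Y.Ω
  ft := inferInstance
  ne := inferInstance
  S := fun x => X.S x.1 ∪ Y.S x.2

/-- the union of the first `i` sets of a sequence of independent random sets -/
def pre (X : ℕ → RFS) : ℕ → RFS
  | 0 => ⟨Unit, inferInstance, inferInstance, fun _ => ∅⟩
  | (i + 1) => pair (pre X i) (X i)

/-- `V` has at most `g` elements in each residue class modulo `m` -/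
def ClsLE (m : ℕ) (V : Finset ℕ) (g : ℕ) : Prop :=
  ∀ c, (V.filter (fun v => v % m = c)).card ≤ g

/-- `{s : τ + s ∈ V}` -/
def sh (V : Finset ℕ) (τ : ℕ) : Finset ℕ := (range (V.sup id + 1)).filter (fun s => τ + s ∈ V)

/-- `{w : a + P * w ∈ V}` (for `P > 0`) -/
def quo (P : ℕ) (V : Finset ℕ) (a : ℕ) : Finset ℕ :=
  (range (V.sup id + 1)).filter (fun w => a + P * w ∈ V)

/-- number of pairs (digit `a ∈ D`, quotient) for elements of `V` -/
def Qn (P : ℕ) (D V : Finset ℕ) : ℕ := ∑ a ∈ D, (quo P V a).card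

/-- arithmetic progression -/
def AP (s d L : ℕ) : Finset ℕ := (range L).image (fun i => s + d * i)

/-- regularity of a block: short progressions have few elements -/
def Reg (C1 p k : ℕ) (S : Finset ℕ) : Prop :=
  ∀ d, ¬ p ∣ d → ∀ s, (S ∩ AP s d (p ^ 4 * k)).card ≤ C1 * k

/-- `{n - y : y ∈ Y, y ≤ n}` -/
def refl (n : ℕ) (Y : Finset ℕ) : Finset ℕ := (Y.filter (fun y => y ≤ n)).image (fun y => n - y)

/-- representations -/
def repF (S T : Finset ℕ) (n : ℕ) : ℕ := ((S ×ˢ T).filter (fun x => x.1 + x.2 = n)).card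

/-- any two samples together cover `[a,b)` -/
def Cov (X : RFS) (a b : ℕ) : Prop :=
  ∀ t t' : X.Ω, ∀ n, a ≤ n → n < b → ∃ s ∈ X.S t, ∃ s' ∈ X.S t', s + s' = n

/-- any two samples have at most `R` representations of any number -/
def Rep (X : RFS) (R : ℕ) : Prop := ∀ t t' : X.Ω, ∀ n, repF (X.S t) (X.S t') n ≤ R

/-- the digit pairs set: `E ⊆ [0,p)²` with `E + E` everything modulo `p`, bounded multiplicity -/
structure IsLocal (p : ℕ) (E : Finset (ℕ × ℕ)) : Prop where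
  lt : ∀ e ∈ E, e.1 < p ∧ e.2 < p
  card : E.card ≤ 3 * p
  cover : ∀ s t : ℕ, ∃ e ∈ E, ∃ f ∈ E, e.1 + f.1 ≡ s [MOD p] ∧ e.2 + f.2 ≡ t [MOD p]
  rep : ∀ s t : ℕ, ((E ×ˢ E).filter (fun x => x.1.1 + x.2.1 ≡ s [MOD p] ∧
    x.1.2 + x.2.2 ≡ t [MOD p])).card ≤ 18

/-- range and cardinality of a block -/
def BlockRange (C : ℕ) : Prop :=
  ∀ (p : ℕ) (hp : 0 < p), 7 < p → C ≤ p → ∀ D : Finset ℕ, IsBase C p D →
    ∀ t : (block p hp D).Ω, (∀ s ∈ (block p hp D).S t, p ^ 8 ≤ s ∧ s < (C + 4) * p ^ 8) ∧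
      ((block p hp D).S t).card ≤ C ^ 4 * p ^ 4

/-- Lemma M: the exponential moment of the hits of a block -/
def BlockMom (C : ℕ) : Prop :=
  ∃ K : ℝ, 0 < K ∧ ∀ (p : ℕ) (hp : 0 < p) (D : Finset ℕ), IsBase C p D →
    ∀ (lam : ℝ), 0 ≤ lam → ∀ (g h G : ℕ) (V : Finset ℕ),
      ClsLE (p ^ 6) V g → ClsLE (p ^ 4) V h → ClsLE (p ^ 2) V G →
      K * Real.exp (lam * g) * h ≤ p →
      (block p hp D).mom lam V ≤ Real.exp (K * Real.exp (lam * g) * G / (p : ℝ) ^ 2)

/-- a block is regular with probability close to one -/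
def RegProb (C : ℕ) : Prop :=
  ∃ C1 k0 : ℕ, ∀ k ≥ k0, ∀ (p : ℕ) (hp : 0 < p) (D : Finset ℕ), p.Prime → 2 ^ k < p →
    p ≤ 2 ^ (k + 1) → IsBase C p D →
    (block p hp D).Pr (fun ω => ¬ Reg C1 p k ((block p hp D).S ω)) ≤ 1 / 2 ^ (k + 3)

/-- a sequence of primes and base sets starting at the scale `K` -/
structure Sys (C K : ℕ) where
  p : ℕ → ℕ
  D : ℕ → Finset ℕ
  prime : ∀ i, (p i).Prime
  lo : ∀ i, 2 ^ (K + i) < p i
  hi : ∀ i, p i ≤ 2 ^ (K + i + 1)
  base : ∀ i, IsBase C (p i) (D i)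

/-- the random blocks of a system -/
def Sys.X {C K : ℕ} (s : Sys C K) (i : ℕ) : RFS := block (s.p i) (s.prime i).pos (s.D i)

/-- the union of the lower blocks has boundedly many elements in each class modulo `p ^ 6` -/
def SprProb (C : ℕ) : Prop :=
  ∃ g K0 : ℕ, ∀ K ≥ K0, ∀ (s : Sys C K) (i : ℕ),
    (pre s.X i).Pr (fun x => ¬ ClsLE ((s.p i) ^ 6) ((pre s.X i).S x) g) ≤
      1 / 2 ^ (4 * (K + i) + 3)

/-- the union of regular lower blocks has few elements in each class modulo `p ^ 4`, `p ^ 2` -/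
def LowClass (C : ℕ) : Prop :=
  ∀ C1 : ℕ, ∃ C2 : ℕ, ∀ (K i : ℕ) (p : ℕ → ℕ) (S : ℕ → Finset ℕ), 0 < K →
    (∀ j, (p j).Prime) → (∀ j, 2 ^ (K + j) < p j) → (∀ j, p j ≤ 2 ^ (K + j + 1)) →
    (∀ j < i, ∀ s ∈ S j, s < (C + 4) * (p j) ^ 8) → (∀ j < i, Reg C1 (p j) (K + j) (S j)) →
    ClsLE ((p i) ^ 4) ((range i).biUnion S) (C2 * (K + i) ^ 2) ∧
    ClsLE ((p i) ^ 2) ((range i).biUnion S) (C2 * (p i) ^ 2)

/-- the hits between a block and a given well distributed set of smaller numbers -/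
def FinProb (C : ℕ) : Prop :=
  ∀ g C2 : ℕ, ∃ C3 k0 : ℕ, ∀ k ≥ k0, ∀ (p : ℕ) (hp : 0 < p) (D : Finset ℕ), 2 ^ k < p →
    p ≤ 2 ^ (k + 1) → IsBase C p D → ∀ Y : Finset ℕ, (∀ y ∈ Y, y < (C + 4) * p ^ 8) →
    ClsLE (p ^ 6) Y g → ClsLE (p ^ 4) Y (C2 * k ^ 2) → ClsLE (p ^ 2) Y (C2 * p ^ 2) →
    (block p hp D).Pr (fun ω => ¬ ∀ n, ((((block p hp D).S ω) ∩ refl n Y).card : ℝ) ≤
      C3 * k / Real.log k) ≤ 1 / 2 ^ (k + 3)

/-- the point of the finite product given by an infinite sequence -/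
def pt (X : ℕ → RFS) (ω : ∀ i, (X i).Ω) : ∀ i, (pre X i).Ω
  | 0 => ()
  | (i + 1) => (pt X ω i, ω i)

/-- the good sequence -/
def GoodSeq (C : ℕ) : Prop :=
  ∃ C3 K0 : ℕ, ∀ K ≥ K0, ∀ s : Sys C K, ∃ ω : ∀ i, (s.X i).Ω, ∀ i n,
    ((((s.X i).S (ω i)) ∩ refl n ((range i).biUnion (fun j => (s.X j).S (ω j)))).card : ℝ) ≤
      C3 * ((K + i : ℕ) : ℝ) / Real.log ((K + i : ℕ) : ℝ)

/-- a deterministic sequence of blocks with all the required properties -/
structure Blocks (C K C3 R : ℕ) (p : ℕ → ℕ) (S : ℕ → Finset ℕ) : Prop where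
  lo : ∀ i, 2 ^ (K + i) < p i
  hi : ∀ i, p i ≤ 2 ^ (K + i + 1)
  ge : ∀ i, ∀ s ∈ S i, (p i) ^ 8 ≤ s
  lt : ∀ i, ∀ s ∈ S i, s < (C + 4) * (p i) ^ 8
  card : ∀ i, (S i).card ≤ R * (p i) ^ 4
  cov : ∀ i n, 11 * (p i) ^ 8 ≤ n → n < 2 ^ 20 * (p i) ^ 8 → ∃ a ∈ S i, ∃ b ∈ S i, a + b = n
  rep : ∀ i n, repF (S i) (S i) n ≤ R
  cross : ∀ i n, ((S i ∩ refl n ((range i).biUnion S)).card : ℝ) ≤
      C3 * ((K + i : ℕ) : ℝ) / Real.log ((K + i : ℕ) : ℝ)

/-- the union of all the blocks -/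
def bigA (S : ℕ → Finset ℕ) : Set ℕ := {n | ∃ i, n ∈ S i}

/-- number of ordered representations -/
noncomputable def rA (A : Set ℕ) (n : ℕ) : ℕ :=
  {x : ℕ × ℕ | x.1 ∈ A ∧ x.2 ∈ A ∧ x.1 + x.2 = n}.ncard

/-! ### basic lemmas -/

theorem mem_sh {V : Finset ℕ} {τ s : ℕ} : s ∈ sh V τ ↔ τ + s ∈ V := by
  unfold sh
  rw [mem_filter, mem_range]
  constructor
  · exact fun h => h.2
  · intro h
    refine ⟨?_, h⟩
    have : τ + s ≤ V.sup id := Finset.le_sup (f := id) h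
    omega

theorem mem_quo {P : ℕ} (hP : 0 < P) {V : Finset ℕ} {a w : ℕ} :
    w ∈ quo P V a ↔ a + P * w ∈ V := by
  unfold quo
  rw [mem_filter, mem_range]
  constructor
  · exact fun h => h.2
  · intro h
    refine ⟨?_, h⟩
    have h1 : a + P * w ≤ V.sup id := Finset.le_sup (f := id) h
    have h2 : w ≤ P * w := Nat.le_mul_of_pos_left w hP
    omega

theorem mem_AP {s d L n : ℕ} : n ∈ AP s d L ↔ ∃ i < L, s + d * i = n := by
  simp [AP]

theorem mem_refl {n m : ℕ} {Y : Finset ℕ} : m ∈ refl n Y ↔ m ≤ n ∧ n - m ∈ Y := by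
  unfold refl
  simp only [mem_image, mem_filter]
  constructor
  · rintro ⟨y, ⟨hy, hyn⟩, rfl⟩
    refine ⟨Nat.sub_le _ _, ?_⟩
    have : n - (n - y) = y := by omega
    rwa [this]
  · rintro ⟨h1, h2⟩
    exact ⟨n - m, ⟨h2, Nat.sub_le _ _⟩, by omega⟩

theorem mem_step_S {P : ℕ} {hP : 0 < P} {D : Finset ℕ} {X : RFS} {t : (step P hP D X).Ω} {n : ℕ} :
    n ∈ (step P hP D X).S t ↔
      ∃ a : D, ∃ s ∈ X.S (t a).2, a.1 + P * ((t a).1.1 + s) = n := by
  simp [step]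

theorem card_pos (X : RFS) : (0 : ℝ) < (Fintype.card X.Ω : ℝ) := by
  exact_mod_cast Fintype.card_pos

theorem E_nonneg (X : RFS) {f : X.Ω → ℝ} (h : ∀ ω, 0 ≤ f ω) : 0 ≤ X.E f :=
  div_nonneg (Finset.sum_nonneg (fun ω _ => h ω)) (card_pos X).le

theorem E_mono (X : RFS) {f g : X.Ω → ℝ} (h : ∀ ω, f ω ≤ g ω) : X.E f ≤ X.E g :=
  div_le_div_of_nonneg_right (Finset.sum_le_sum (fun ω _ => h ω)) (card_pos X).le

theorem E_const (X : RFS) (c : ℝ) : X.E (fun _ => c) = c := by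
  unfold RFS.E
  rw [Finset.sum_const, Finset.card_univ, nsmul_eq_mul]
  field_simp [(card_pos X).ne']

theorem E_add (X : RFS) (f g : X.Ω → ℝ) : X.E (fun ω => f ω + g ω) = X.E f + X.E g := by
  unfold RFS.E
  rw [Finset.sum_add_distrib, add_div]

theorem E_mul_left (X : RFS) (c : ℝ) (f : X.Ω → ℝ) : X.E (fun ω => c * f ω) = c * X.E f := by
  unfold RFS.E
  rw [← Finset.mul_sum, mul_div_assoc]

theorem E_sum (X : RFS) {ι : Type*} (s : Finset ι) (f : ι → X.Ω → ℝ) :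
    X.E (fun ω => ∑ i ∈ s, f i ω) = ∑ i ∈ s, X.E (f i) := by
  unfold RFS.E
  rw [Finset.sum_comm, Finset.sum_div]

theorem Pr_nonneg (X : RFS) (A : X.Ω → Prop) : 0 ≤ X.Pr A :=
  E_nonneg X (fun _ => ind_nonneg _)

theorem Pr_mono (X : RFS) {A B : X.Ω → Prop} (h : ∀ ω, A ω → B ω) : X.Pr A ≤ X.Pr B :=
  E_mono X (fun ω => ind_mono (h ω))

theorem Pr_le_one (X : RFS) (A : X.Ω → Prop) : X.Pr A ≤ 1 :=
  le_trans (E_mono X (g := fun _ => 1) (fun _ => ind_le_one _)) (E_const X 1).le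

theorem Pr_or_le (X : RFS) (A B : X.Ω → Prop) :
    X.Pr (fun ω => A ω ∨ B ω) ≤ X.Pr A + X.Pr B := by
  unfold RFS.Pr
  rw [← E_add]
  refine E_mono X (fun ω => ?_)
  by_cases hA : A ω
  · rw [ind_true (Or.inl hA), ind_true hA]
    have := ind_nonneg (B ω)
    linarith
  · by_cases hB : B ω
    · rw [ind_true (Or.inr hB), ind_true hB]
      have := ind_nonneg (A ω)
      linarith
    · rw [ind_false (by tauto), ind_false hA, ind_false hB]
      norm_num

/-- union bound -/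
theorem Pr_exists_le (X : RFS) {ι : Type*} (s : Finset ι) (A : ι → X.Ω → Prop) :
    X.Pr (fun ω => ∃ i ∈ s, A i ω) ≤ ∑ i ∈ s, X.Pr (A i) := by
  unfold RFS.Pr
  rw [← E_sum]
  refine E_mono X (fun ω => ?_)
  by_cases h : ∃ i ∈ s, A i ω
  · rw [ind_true h]
    obtain ⟨i, hi, hA⟩ := h
    calc (1:ℝ) = ind (A i ω) := (ind_true hA).symm
      _ ≤ ∑ i ∈ s, ind (A i ω) :=
        Finset.single_le_sum (f := fun i => ind (A i ω)) (fun j _ => ind_nonneg _) hi
  · rw [ind_false h]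
    exact Finset.sum_nonneg (fun j _ => ind_nonneg _)

theorem Pr_compl (X : RFS) (A : X.Ω → Prop) : X.Pr (fun ω => ¬ A ω) = 1 - X.Pr A := by
  have h : X.Pr (fun ω => ¬ A ω) + X.Pr A = 1 := by
    unfold RFS.Pr
    rw [← E_add]
    have : (fun ω => ind (¬ A ω) + ind (A ω)) = fun _ => 1 := by
      funext ω
      by_cases hA : A ω
      · rw [ind_true hA, ind_false (not_not.mpr hA)]; norm_num
      · rw [ind_true hA, ind_false hA]; norm_num
    rw [this, E_const]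
  linarith

theorem exists_of_Pr_pos (X : RFS) {A : X.Ω → Prop} (h : 0 < X.Pr A) : ∃ ω, A ω := by
  by_contra hc
  push Not at hc
  have : X.Pr A = 0 := by
    unfold RFS.Pr
    have : (fun ω => ind (A ω)) = fun _ => 0 := by
      funext ω
      exact ind_false (hc ω)
    rw [this, E_const]
  linarith

/-- Markov's inequality for the number of hits -/
theorem Pr_hits_le (X : RFS) {lam : ℝ} (hlam : 0 ≤ lam) (V : Finset ℕ) (T : ℝ) :
    X.Pr (fun ω => T ≤ ((X.S ω ∩ V).card : ℝ)) ≤ Real.exp (-(lam * T)) * X.mom lam V := by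
  unfold RFS.Pr RFS.mom
  rw [← E_mul_left]
  refine E_mono X (fun ω => ?_)
  by_cases h : T ≤ ((X.S ω ∩ V).card : ℝ)
  · rw [ind_true h, ← Real.exp_add]
    have : 0 ≤ -(lam * T) + lam * ((X.S ω ∩ V).card : ℝ) := by nlinarith
    exact Real.one_le_exp this
  · rw [ind_false h]; positivity

/-- Fubini for the expectation over a pair -/
theorem E_pair (X Y : RFS) (f : X.Ω × Y.Ω → ℝ) :
    (pair X Y).E f = X.E (fun x => Y.E (fun y => f (x, y))) := by
  have h1 : (Fintype.card (pair X Y).Ω : ℝ) = (Fintype.card X.Ω : ℝ) * (Fintype.card Y.Ω : ℝ) := by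
    have : Fintype.card (pair X Y).Ω = Fintype.card X.Ω * Fintype.card Y.Ω :=
      Fintype.card_prod X.Ω Y.Ω
    exact_mod_cast this
  unfold RFS.E
  rw [h1]
  have h2 : (∑ ω : (pair X Y).Ω, f ω) = ∑ x : X.Ω, ∑ y : Y.Ω, f (x, y) :=
    Fintype.sum_prod_type f
  rw [h2, ← Finset.sum_div, div_div, mul_comm]

theorem mom_nonneg (X : RFS) (lam : ℝ) (V : Finset ℕ) : 0 ≤ X.mom lam V :=
  E_nonneg X (fun _ => (Real.exp_pos _).le)

theorem mom_pair (X Y : RFS) {lam : ℝ} (hlam : 0 ≤ lam) (V : Finset ℕ) :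
    (pair X Y).mom lam V ≤ X.mom lam V * Y.mom lam V := by
  unfold RFS.mom
  have h0 : (pair X Y).E (fun ω => Real.exp (lam * ((((pair X Y).S ω) ∩ V).card : ℝ))) =
      X.E (fun x => Y.E (fun y => Real.exp (lam * (((X.S x ∪ Y.S y) ∩ V).card : ℝ)))) :=
    E_pair X Y (fun ω => Real.exp (lam * (((X.S ω.1 ∪ Y.S ω.2) ∩ V).card : ℝ)))
  rw [h0]
  have : X.E (fun x => Real.exp (lam * ((X.S x ∩ V).card : ℝ))) *
      Y.E (fun y => Real.exp (lam * ((Y.S y ∩ V).card : ℝ))) =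
      X.E (fun x => Y.E (fun y => Real.exp (lam * ((X.S x ∩ V).card : ℝ)) *
        Real.exp (lam * ((Y.S y ∩ V).card : ℝ)))) := by
    rw [mul_comm, ← E_mul_left]
    congr 1
    funext x
    rw [mul_comm, ← E_mul_left]
  rw [this]
  refine E_mono X (fun x => E_mono Y (fun y => ?_))
  rw [← Real.exp_add, ← mul_add]
  refine Real.exp_le_exp.mpr (mul_le_mul_of_nonneg_left ?_ hlam)
  have : ((X.S x ∪ Y.S y) ∩ V).card ≤ (X.S x ∩ V).card + (Y.S y ∩ V).card := by
    rw [Finset.union_inter_distrib_right]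
    exact Finset.card_union_le _ _
  exact_mod_cast this

/-- the elements of a set that are pairwise congruent modulo `M` and less than `N` -/
theorem card_le_of_modEq {V : Finset ℕ} {N M : ℕ} (hN : ∀ v ∈ V, v < N)
    (h : ∀ v ∈ V, ∀ w ∈ V, v % M = w % M) : V.card ≤ N / M + 1 := by
  classical
  have hinj : Set.InjOn (fun v => v / M) (V : Set ℕ) := by
    intro v hv w hw hvw
    have h1 := h v hv w hw
    have h2 : v / M = w / M := hvw
    rw [← Nat.div_add_mod v M, ← Nat.div_add_mod w M, h1, h2]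
  have hsub : V.image (fun v => v / M) ⊆ range (N / M + 1) := by
    intro x hx
    rw [mem_image] at hx
    obtain ⟨v, hv, rfl⟩ := hx
    rw [mem_range]
    have : v / M ≤ N / M := Nat.div_le_div_right (hN v hv).le
    omega
  calc V.card = (V.image (fun v => v / M)).card := (Finset.card_image_of_injOn hinj).symm
    _ ≤ (range (N / M + 1)).card := Finset.card_le_card hsub
    _ = N / M + 1 := card_range _

end Pool.Agent.H125R2.ET
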