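import Pool.Agent.H125R2.ET.Defs

/-!
# Second part of the definitions: the tail of the distribution of the hits
-/

set_option autoImplicit false

namespace Pool.Agent.H125R2.ET

open Finset

/-- number of `n < N` with at least `m` hits of `S` by `n - Y` -/
def tailCount (S Y : Finset ℕ) (N m : ℕ) : ℕ :=
  ((range N).filter (fun n => m ≤ (S ∩ refl n Y).card)).card

/-- Poisson-like tail of the number of hits between a block and a well distributed set -/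
def TailProb (C : ℕ) : Prop :=
  ∀ g C2 : ℕ, ∃ B c : ℝ, 0 < c ∧ ∃ k0 : ℕ, ∀ k ≥ k0, ∀ (p : ℕ) (hp : 0 < p) (D : Finset ℕ),
    2 ^ k < p → p ≤ 2 ^ (k + 1) → IsBase C p D →
    ∀ Y : Finset ℕ, (∀ y ∈ Y, y < (C + 4) * p ^ 8) →
    ClsLE (p ^ 6) Y g → ClsLE (p ^ 4) Y (C2 * k ^ 2) → ClsLE (p ^ 2) Y (C2 * p ^ 2) →
    (block p hp D).Pr (fun ω => ¬ ∀ m : ℕ, 1 ≤ m → m ≤ k →
      (tailCount ((block p hp D).S ω) Y (2 * ((C + 4) * p ^ 8)) m : ℝ) ≤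
        (p : ℝ) ^ 8 * Real.exp (B * m - c * m * Real.log m)) ≤ 1 / 4

/-- the good sequence, with the tail property -/
def GoodSeq2 (C : ℕ) : Prop :=
  ∃ (C3 K0 : ℕ) (B c : ℝ), 0 < c ∧ ∀ K ≥ K0, ∀ s : Sys C K, ∃ ω : ∀ i, (s.X i).Ω,
    (∀ i n, ((((s.X i).S (ω i)) ∩
      refl n ((range i).biUnion (fun j => (s.X j).S (ω j)))).card : ℝ) ≤
        C3 * ((K + i : ℕ) : ℝ) / Real.log ((K + i : ℕ) : ℝ)) ∧
    (∀ i m : ℕ, 1 ≤ m → m ≤ K + i →
      (tailCount ((s.X i).S (ω i)) ((range i).biUnion (fun j => (s.X j).S (ω j)))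
        (2 * ((C + 4) * (s.p i) ^ 8)) m : ℝ) ≤
        (s.p i : ℝ) ^ 8 * Real.exp (B * m - c * m * Real.log m))

end Pool.Agent.H125R2.ET
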