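import Pool.Agent.H125R2.ET.Defs

/-! Task T8 (helper512): independence of the subtrees. -/

set_option autoImplicit false

namespace Pool.Agent.H125R2.ET

open Finset

theorem t8_point (P : ℕ) (hP : 0 < P) (D : Finset ℕ) (X : RFS) (lam : ℝ) (hlam : 0 ≤ lam)
    (V : Finset ℕ) (t : (step P hP D X).Ω) :
    Real.exp (lam * ((((step P hP D X).S t) ∩ V).card : ℝ)) ≤
      ∏ a : D, Real.exp (lam * (((X.S (t a).2) ∩ sh (quo P V a.1) (t a).1.1).card : ℝ)) := by
  classical
  rw [← Real.exp_sum, ← Finset.mul_sum]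
  refine Real.exp_le_exp.2 (mul_le_mul_of_nonneg_left ?_ hlam)
  have hsub : ((step P hP D X).S t) ∩ V ⊆ Finset.univ.biUnion (fun a : D =>
      ((X.S (t a).2) ∩ sh (quo P V a.1) (t a).1.1).image (fun s => a.1 + P * ((t a).1.1 + s))) := by
    intro n hn
    rw [mem_inter] at hn
    obtain ⟨h1, h2⟩ := hn
    obtain ⟨a, s, hs, hn⟩ := mem_step_S.1 h1
    rw [mem_biUnion]
    refine ⟨a, mem_univ _, mem_image.2 ⟨s, ?_, hn⟩⟩
    rw [mem_inter]
    refine ⟨hs, mem_sh.2 ((mem_quo hP).2 ?_)⟩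
    rw [hn]
    exact h2
  have h1 : (((step P hP D X).S t) ∩ V).card ≤
      ∑ a : D, ((X.S (t a).2) ∩ sh (quo P V a.1) (t a).1.1).card :=
    (card_le_card hsub).trans (card_biUnion_le.trans (sum_le_sum fun a _ => card_image_le))
  exact_mod_cast h1

/-- T8 -/
theorem mom_step (P : ℕ) (hP : 0 < P) (D : Finset ℕ) (X : RFS) (lam : ℝ) (hlam : 0 ≤ lam)
    (V : Finset ℕ) :
    (step P hP D X).mom lam V ≤
      ∏ a ∈ D, ((∑ τ ∈ range P, X.mom lam (sh (quo P V a) τ)) / (P : ℝ)) := by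
  classical
  have hP0 : (0 : ℝ) < P := by exact_mod_cast hP
  set f : D → Fin P × X.Ω → ℝ := fun a x =>
    Real.exp (lam * (((X.S x.2) ∩ sh (quo P V a.1) x.1.1).card : ℝ)) with hf
  have hcard : (Fintype.card (step P hP D X).Ω : ℝ) =
      ∏ _a : D, ((P : ℝ) * (Fintype.card X.Ω : ℝ)) := by
    have h1 : Fintype.card (step P hP D X).Ω = Fintype.card (D → Fin P × X.Ω) :=
      Fintype.card_congr (Equiv.refl _)
    rw [h1, Fintype.card_pi]
    push_cast
    refine Finset.prod_congr rfl fun a _ => ?_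
    rw [Fintype.card_prod, Fintype.card_fin]
    push_cast
    rfl
  have hsum : ∑ t : (step P hP D X).Ω, ∏ a : D, f a (t a) = ∏ a : D, ∑ x : Fin P × X.Ω, f a x := by
    have h1 : ∑ t : (step P hP D X).Ω, ∏ a : D, f a (t a) =
        ∑ t : (D → Fin P × X.Ω), ∏ a : D, f a (t a) :=
      Fintype.sum_equiv (Equiv.refl _) _ _ fun _ => rfl
    rw [h1, Finset.prod_univ_sum, Fintype.piFinset_univ]
  have hmom : (step P hP D X).mom lam V ≤
      (∏ a : D, ∑ x : Fin P × X.Ω, f a x) / ∏ _a : D, ((P : ℝ) * (Fintype.card X.Ω : ℝ)) := by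
    unfold RFS.mom RFS.E
    rw [← hcard, ← hsum]
    refine div_le_div_of_nonneg_right (sum_le_sum fun t _ => ?_) (Nat.cast_nonneg _)
    exact t8_point P hP D X lam hlam V t
  refine hmom.trans (le_of_eq ?_)
  rw [← Finset.prod_div_distrib, ← Finset.prod_coe_sort D
    (fun a => ((∑ τ ∈ range P, X.mom lam (sh (quo P V a) τ)) / (P : ℝ)))]
  refine Finset.prod_congr rfl fun a _ => ?_
  rw [Fintype.sum_prod_type, ← div_div, div_right_comm, Finset.sum_div, Finset.sum_range]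
  rfl

end Pool.Agent.H125R2.ET
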