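import Pool.Agent.H125R2.ET.Defs

/-!
# Task T9: averages over the shifts
-/

set_option autoImplicit false

namespace Pool.Agent.H125R2.ET

open Finset

theorem t9_sum_leaf (P : ℕ) (D V : Finset ℕ) :
    ∑ τ ∈ range P, (D ∩ sh V τ).card ≤ D.card * V.card := by
  have h1 : ∀ τ, (D ∩ sh V τ).card = ∑ s ∈ D, (if τ + s ∈ V then 1 else 0) := by
    intro τ
    rw [← card_filter]
    congr 1
    ext s
    rw [mem_inter, mem_filter, mem_sh]
  rw [sum_congr rfl (fun τ _ => h1 τ), sum_comm]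
  calc ∑ s ∈ D, ∑ τ ∈ range P, (if τ + s ∈ V then 1 else 0) ≤ ∑ s ∈ D, V.card := by
        refine sum_le_sum fun s _ => ?_
        rw [← card_filter]
        refine card_le_card_of_injOn (fun τ => τ + s) ?_ ?_
        · intro τ hτ
          simp only [coe_filter, mem_range, Set.mem_setOf_eq] at hτ
          exact hτ.2
        · intro τ _ τ' _ h
          exact Nat.add_right_cancel h
    _ = D.card * V.card := by simp

theorem t9_sum_quo (P : ℕ) (hP : 0 < P) (V : Finset ℕ) (a : ℕ) :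
    ∑ τ ∈ range P, (quo P (sh V τ) a).card ≤ V.card := by
  rw [← card_sigma]
  refine card_le_card_of_injOn (fun x : (Σ _ : ℕ, ℕ) => x.1 + (a + P * x.2)) ?_ ?_
  · intro x hx
    simp only [mem_coe, mem_sigma, mem_range] at hx
    have h := hx.2
    rw [mem_quo hP, mem_sh] at h
    exact h
  · intro x hx y hy h
    simp only [mem_coe, mem_sigma, mem_range] at hx hy
    have h' : x.1 + (a + P * x.2) = y.1 + (a + P * y.2) := h
    have h2 : x.1 + P * x.2 = y.1 + P * y.2 := by omega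
    have e1 : x.1 = y.1 := by
      have h3 := congrArg (fun n => n % P) h2
      simp only [Nat.add_mul_mod_self_left] at h3
      rwa [Nat.mod_eq_of_lt hx.1, Nat.mod_eq_of_lt hy.1] at h3
    have e2 : x.2 = y.2 := by
      rw [e1] at h2
      exact Nat.eq_of_mul_eq_mul_left hP (Nat.add_left_cancel h2)
    rcases x with ⟨x1, x2⟩
    rcases y with ⟨y1, y2⟩
    simp only at e1 e2
    rw [e1, e2]

theorem t9_sum_Qn (P : ℕ) (hP : 0 < P) (D V : Finset ℕ) :
    ∑ τ ∈ range P, Qn P D (sh V τ) ≤ D.card * V.card := by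
  unfold Qn
  rw [sum_comm]
  calc ∑ a ∈ D, ∑ τ ∈ range P, (quo P (sh V τ) a).card ≤ ∑ a ∈ D, V.card :=
        sum_le_sum fun a _ => t9_sum_quo P hP V a
    _ = D.card * V.card := by simp

theorem t9_card_sh (V : Finset ℕ) (τ : ℕ) : (sh V τ).card ≤ V.card := by
  refine card_le_card_of_injOn (fun s => τ + s) ?_ ?_
  · intro s hs
    exact mem_sh.1 hs
  · intro s _ s' _ h
    exact Nat.add_left_cancel h

/-- T9a -/
theorem avg_leaf (P : ℕ) (hP : 0 < P) (D : Finset ℕ) (lam : ℝ) (hlam : 0 ≤ lam) (g : ℕ)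
    (V : Finset ℕ) (hV : V.card ≤ g) :
    (∑ τ ∈ range P, (leaf D).mom lam (sh V τ)) / (P : ℝ) ≤
      1 + Real.exp (lam * g) * D.card * V.card / P := by
  have hP' : (0 : ℝ) < P := by exact_mod_cast hP
  have h1 : ∀ τ ∈ range P, (leaf D).mom lam (sh V τ) ≤
      1 + Real.exp (lam * g) * ((D ∩ sh V τ).card : ℝ) := by
    intro τ _
    have e : (leaf D).mom lam (sh V τ) = Real.exp (lam * ((D ∩ sh V τ).card : ℝ)) := by
      unfold RFS.mom
      exact E_const (leaf D) _
    rw [e]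
    rcases Nat.eq_zero_or_pos (D ∩ sh V τ).card with h0 | h0
    · rw [h0]
      simp
    · have h2 : ((D ∩ sh V τ).card : ℝ) ≤ g := by
        have : (D ∩ sh V τ).card ≤ g :=
          (card_le_card inter_subset_right).trans ((t9_card_sh V τ).trans hV)
        exact_mod_cast this
      have h3 : Real.exp (lam * ((D ∩ sh V τ).card : ℝ)) ≤ Real.exp (lam * g) :=
        Real.exp_le_exp.mpr (mul_le_mul_of_nonneg_left h2 hlam)
      have h4 : (1 : ℝ) ≤ ((D ∩ sh V τ).card : ℝ) := by exact_mod_cast h0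
      have h5 := Real.exp_pos (lam * g)
      nlinarith
  have h2 : ∑ τ ∈ range P, (leaf D).mom lam (sh V τ) ≤
      P + Real.exp (lam * g) * (D.card * V.card) := by
    calc ∑ τ ∈ range P, (leaf D).mom lam (sh V τ)
        ≤ ∑ τ ∈ range P, (1 + Real.exp (lam * g) * ((D ∩ sh V τ).card : ℝ)) := sum_le_sum h1
      _ = P + Real.exp (lam * g) * ((∑ τ ∈ range P, (D ∩ sh V τ).card : ℕ) : ℝ) := by
          rw [sum_add_distrib, ← mul_sum]
          simp
      _ ≤ P + Real.exp (lam * g) * (D.card * V.card) := by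
          gcongr
          exact_mod_cast t9_sum_leaf P D V
  calc (∑ τ ∈ range P, (leaf D).mom lam (sh V τ)) / (P : ℝ)
      ≤ (P + Real.exp (lam * g) * (D.card * V.card)) / P := by gcongr
    _ = 1 + Real.exp (lam * g) * D.card * V.card / P := by
        field_simp

/-- T9b -/
theorem avg_step (P : ℕ) (hP : 0 < P) (D : Finset ℕ) (X : RFS) (lam κ : ℝ) (hκ : 0 ≤ κ)
    (V : Finset ℕ)
    (h1 : ∀ τ < P, X.mom lam (sh V τ) ≤ Real.exp (κ * (Qn P D (sh V τ) : ℝ)))
    (h2 : ∀ τ < P, κ * (Qn P D (sh V τ) : ℝ) ≤ 1) :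
    (∑ τ ∈ range P, X.mom lam (sh V τ)) / (P : ℝ) ≤ 1 + 2 * κ * D.card * V.card / P := by
  have hP' : (0 : ℝ) < P := by exact_mod_cast hP
  have h3 : ∀ τ ∈ range P, X.mom lam (sh V τ) ≤ 1 + 2 * κ * (Qn P D (sh V τ) : ℝ) := by
    intro τ hτ
    rw [mem_range] at hτ
    refine (h1 τ hτ).trans ?_
    set x : ℝ := κ * (Qn P D (sh V τ) : ℝ) with hx
    have hx0 : 0 ≤ x := by positivity
    have hx1 : x ≤ 1 := h2 τ hτ
    have h4 : Real.exp x ≤ 1 + x + x ^ 2 := by
      have := Real.abs_exp_sub_one_sub_id_le (x := x) (by rw [abs_of_nonneg hx0]; exact hx1)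
      rw [abs_le] at this
      linarith [this.2]
    have h5 : 2 * κ * (Qn P D (sh V τ) : ℝ) = 2 * x := by rw [hx]; ring
    rw [h5]
    nlinarith
  have h4 : ∑ τ ∈ range P, X.mom lam (sh V τ) ≤ P + 2 * κ * (D.card * V.card) := by
    calc ∑ τ ∈ range P, X.mom lam (sh V τ)
        ≤ ∑ τ ∈ range P, (1 + 2 * κ * (Qn P D (sh V τ) : ℝ)) := sum_le_sum h3
      _ = P + 2 * κ * ((∑ τ ∈ range P, Qn P D (sh V τ) : ℕ) : ℝ) := by
          rw [sum_add_distrib, ← mul_sum]
          simp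
      _ ≤ P + 2 * κ * (D.card * V.card) := by
          gcongr
          exact_mod_cast t9_sum_Qn P hP D V
  calc (∑ τ ∈ range P, X.mom lam (sh V τ)) / (P : ℝ)
      ≤ (P + 2 * κ * (D.card * V.card)) / P := by gcongr
    _ = 1 + 2 * κ * D.card * V.card / P := by
        field_simp

end Pool.Agent.H125R2.ET
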