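import Pool.Agent.H125R2.ET.T10Core
import Pool.Agent.H125R2.ET.T8
import Pool.Agent.H125R2.ET.T9

/-! Task T10 (helper896): Lemma M. -/

set_option autoImplicit false

namespace Pool.Agent.H125R2.ET

/-- T10 -/
theorem block_mom (C : ℕ) : BlockMom C :=
  block_mom_of mom_step avg_leaf avg_step C

end Pool.Agent.H125R2.ET
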