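import Pool.Agent.H125R2.ET.Defs

/-!
T11: a block is regular with high probability.
-/

set_option autoImplicit false

namespace Pool.Agent.H125R2.ET

open Finset

namespace T11aux

theorem cls_AP {p d s L j : ℕ} (hp : p.Prime) (hd : ¬ p ∣ d) (g : ℕ) (hg : L / p ^ j + 1 ≤ g) :
    ClsLE (p ^ j) (AP s d L) g := by
  intro c
  refine le_trans ?_ hg
  have hsub : (AP s d L).filter (fun v => v % p ^ j = c) ⊆
      ((range L).filter (fun i => (s + d * i) % p ^ j = c)).image (fun i => s + d * i) := by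
    intro v hv
    rw [mem_filter, mem_AP] at hv
    obtain ⟨⟨i, hi, rfl⟩, h2⟩ := hv
    exact mem_image.2 ⟨i, mem_filter.2 ⟨mem_range.2 hi, h2⟩, rfl⟩
  refine (card_le_card hsub).trans (card_image_le.trans (card_le_of_modEq (fun i hi => ?_) ?_))
  · exact mem_range.1 (mem_filter.1 hi).1
  · intro i hi i' hi'
    have h1 := (mem_filter.1 hi).2
    have h2 := (mem_filter.1 hi').2
    have h3 : s + d * i ≡ s + d * i' [MOD p ^ j] := h1.trans h2.symm
    have h4 : d * i ≡ d * i' [MOD p ^ j] := Nat.ModEq.add_left_cancel' s h3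
    exact Nat.ModEq.cancel_left_of_coprime
      (((Nat.Prime.coprime_iff_not_dvd hp).2 hd).pow_left j) h4

theorem sq_le_two_pow (k : ℕ) (hk : 4 ≤ k) : k ^ 2 ≤ 2 ^ k := by
  induction k, hk using Nat.le_induction with
  | base => norm_num
  | succ k hk ih =>
    rw [pow_succ 2 k]
    nlinarith

end T11aux

open T11aux

/-- T11 -/
theorem reg_prob (C : ℕ) (hM : BlockMom C) (hR : BlockRange C) : RegProb C := by
  obtain ⟨K, hK, hM⟩ := hM
  obtain ⟨C1', hC1'⟩ := exists_nat_ge (2 * K * Real.exp 2)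
  refine ⟨C1' + 40, max (C + 8) C1', ?_⟩
  intro k hk p hp D hpp hlo hhi hD
  have hk1 : C + 8 ≤ k := (le_max_left _ _).trans hk
  have hk2 : C1' ≤ k := (le_max_right _ _).trans hk
  have hk2p : k < 2 ^ k := Nat.lt_two_pow_self
  have hp7 : 7 < p := by omega
  have hCp : C ≤ p := by omega
  have hsq : k ^ 2 ≤ 2 ^ k := sq_le_two_pow k (by omega)
  -- one progression
  have hone : ∀ d, ¬ p ∣ d → ∀ s, (block p hp D).Pr
      (fun ω => ¬ (((block p hp D).S ω) ∩ AP s d (p ^ 4 * k)).card ≤ (C1' + 40) * k) ≤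
      Real.exp (-(40 * k)) := by
    intro d hd s
    have h6 : ClsLE (p ^ 6) (AP s d (p ^ 4 * k)) 2 := by
      refine cls_AP hpp hd 2 ?_
      have : p ^ 4 * k / p ^ 6 = 0 := by
        rw [Nat.div_eq_zero_iff]
        right
        have e : p ^ 6 = p ^ 4 * p ^ 2 := by ring
        rw [e]
        refine Nat.mul_lt_mul_of_pos_left ?_ (by positivity)
        nlinarith
      omega
    have h4 : ClsLE (p ^ 4) (AP s d (p ^ 4 * k)) (2 * k) := by
      refine cls_AP hpp hd _ ?_
      rw [Nat.mul_div_cancel_left _ (by positivity)]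
      omega
    have h2 : ClsLE (p ^ 2) (AP s d (p ^ 4 * k)) (2 * (p ^ 2 * k)) := by
      refine cls_AP hpp hd _ ?_
      have e : p ^ 4 * k = p ^ 2 * (p ^ 2 * k) := by ring
      rw [e, Nat.mul_div_cancel_left _ (by positivity)]
      have : 0 < p ^ 2 * k := by
        have : 0 < k := by omega
        positivity
      omega
    have hKp : K * Real.exp (1 * (2 : ℕ)) * ((2 * k : ℕ) : ℝ) ≤ p := by
      have e1 : (1 : ℝ) * ((2 : ℕ) : ℝ) = 2 := by norm_num
      rw [e1]
      have e2 : 2 * K * Real.exp 2 ≤ k := hC1'.trans (by exact_mod_cast hk2)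
      have e3 : (k : ℝ) ^ 2 ≤ 2 ^ k := by exact_mod_cast hsq
      have e4 : (2 : ℝ) ^ k ≤ p := by exact_mod_cast hlo.le
      have hk0 : (0 : ℝ) ≤ k := Nat.cast_nonneg k
      push_cast
      nlinarith
    have hmom := hM p hp D hD 1 zero_le_one 2 (2 * k) (2 * (p ^ 2 * k)) (AP s d (p ^ 4 * k))
      h6 h4 h2 hKp
    have hmark := Pr_hits_le (block p hp D) zero_le_one (AP s d (p ^ 4 * k))
      (((C1' + 40) * k : ℕ) : ℝ)
    refine (Pr_mono (block p hp D) (B := fun ω => (((C1' + 40) * k : ℕ) : ℝ) ≤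
      ((((block p hp D).S ω) ∩ AP s d (p ^ 4 * k)).card : ℝ)) (fun ω h => ?_)).trans
      (hmark.trans ?_)
    · push Not at h
      exact_mod_cast h.le
    · refine (mul_le_mul_of_nonneg_left hmom (Real.exp_pos _).le).trans ?_
      rw [← Real.exp_add]
      refine Real.exp_le_exp.2 ?_
      have hp0 : (0 : ℝ) < p := by exact_mod_cast hp
      have e1 : K * Real.exp (1 * ((2 : ℕ) : ℝ)) * ((2 * (p ^ 2 * k) : ℕ) : ℝ) / (p : ℝ) ^ 2 =
          2 * K * Real.exp 2 * k := by
        push_cast
        rw [one_mul]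
        field_simp
      rw [e1]
      have hk0 : (0 : ℝ) ≤ k := Nat.cast_nonneg k
      have e2 := mul_le_mul_of_nonneg_right hC1' hk0
      push_cast
      linarith
  -- union bound
  set N := (C + 4) * p ^ 8 with hN
  have hun : (block p hp D).Pr (fun ω => ¬ Reg (C1' + 40) p k ((block p hp D).S ω)) ≤
      ∑ x ∈ range N ×ˢ range N, Real.exp (-(40 * k)) := by
    refine (Pr_mono (block p hp D) (B := fun ω => ∃ x ∈ range N ×ˢ range N, ¬ p ∣ x.2 ∧
      ¬ (((block p hp D).S ω) ∩ AP x.1 x.2 (p ^ 4 * k)).card ≤ (C1' + 40) * k)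
      (fun ω h => ?_)).trans ((Pr_exists_le _ _ _).trans (sum_le_sum fun x _ => ?_))
    · unfold Reg at h
      push Not at h
      obtain ⟨d, hd, s, hs⟩ := h
      obtain ⟨hrange, -⟩ := hR p hp hp7 hCp D hD ω
      have hk40 : 1 ≤ (C1' + 40) * k := Nat.mul_pos (by omega) (by omega)
      have hsN : s < N := by
        by_contra hsN
        have : ((block p hp D).S ω) ∩ AP s d (p ^ 4 * k) = ∅ := by
          rw [← Finset.not_nonempty_iff_eq_empty]
          rintro ⟨v, hv⟩
          rw [mem_inter, mem_AP] at hv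
          obtain ⟨hv1, i, -, rfl⟩ := hv
          have := (hrange _ hv1).2
          omega
        rw [this] at hs
        simp at hs
      have hdN : d < N := by
        by_contra hdN
        have h1 : ((block p hp D).S ω) ∩ AP s d (p ^ 4 * k) ⊆ {s} := by
          intro v hv
          rw [mem_inter, mem_AP] at hv
          obtain ⟨hv1, i, -, rfl⟩ := hv
          have h2 := (hrange _ hv1).2
          rcases Nat.eq_zero_or_pos i with hi | hi
          · simp [hi]
          · exfalso
            have h3 : d ≤ d * i := Nat.le_mul_of_pos_right d hi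
            omega
        have h2 := card_le_card h1
        rw [card_singleton] at h2
        omega
      exact ⟨(s, d), mem_product.2 ⟨mem_range.2 hsN, mem_range.2 hdN⟩, hd, not_le.2 hs⟩
    · by_cases hx : p ∣ x.2
      · refine le_trans (le_of_eq ?_) (Real.exp_pos _).le
        have : (fun ω => ind (¬ p ∣ x.2 ∧ ¬ (((block p hp D).S ω) ∩
            AP x.1 x.2 (p ^ 4 * k)).card ≤ (C1' + 40) * k)) = fun _ => (0 : ℝ) := by
          funext ω
          exact ind_false fun h => h.1 hx
        unfold RFS.Pr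
        rw [this, E_const]
      · exact (Pr_mono _ fun ω h => h.2).trans (hone x.2 hx x.1)
  refine hun.trans ?_
  rw [sum_const, nsmul_eq_mul, card_product, card_range]
  -- numerics
  have hexp : (2 : ℝ) ^ (40 * k) ≤ Real.exp (40 * k) := by
    have h1 : (2 : ℝ) ≤ Real.exp 1 := by
      have := Real.add_one_le_exp (1 : ℝ)
      linarith
    calc (2 : ℝ) ^ (40 * k) ≤ (Real.exp 1) ^ (40 * k) := pow_le_pow_left₀ (by norm_num) h1 _
      _ = Real.exp (40 * k) := by
          rw [← Real.exp_nat_mul]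
          congr 1
          push_cast
          ring
  have hnat : N * N * 2 ^ (k + 3) ≤ 2 ^ (40 * k) := by
    have e1 : N ≤ 2 ^ k * (2 ^ (k + 1)) ^ 8 := by
      rw [hN]
      refine Nat.mul_le_mul ?_ (Nat.pow_le_pow_left hhi 8)
      omega
    calc N * N * 2 ^ (k + 3) ≤ (2 ^ k * (2 ^ (k + 1)) ^ 8) * (2 ^ k * (2 ^ (k + 1)) ^ 8) *
          2 ^ (k + 3) := Nat.mul_le_mul_right _ (Nat.mul_le_mul e1 e1)
      _ = 2 ^ (19 * k + 19) := by
          rw [← pow_mul, ← pow_add, ← pow_add, ← pow_add]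
          congr 1
          ring
      _ ≤ 2 ^ (40 * k) := Nat.pow_le_pow_right (by norm_num) (by omega)
  have hreal : ((N * N : ℕ) : ℝ) * 2 ^ (k + 3) ≤ Real.exp (40 * k) := by
    refine le_trans ?_ hexp
    exact_mod_cast hnat
  rw [Real.exp_neg, ← div_eq_mul_inv, div_le_div_iff₀ (Real.exp_pos _) (by positivity), one_mul]
  exact hreal

end Pool.Agent.H125R2.ET
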