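import Pool.Agent.H125R2.ET.Defs

set_option autoImplicit false

namespace Pool.Agent.H125R2.ET

open Finset

/-- T12 (helper704) -/
theorem reg_class {C1 p k M d : ℕ} {S : Finset ℕ} (hR : Reg C1 p k S)
    (hS : ∀ s ∈ S, s < M * p ^ 8) (hp : 0 < p) (hk : 0 < k) (hd : 0 < d) (hpd : ¬ p ∣ d)
    (c : ℕ) : (S.filter (fun s => s % d = c)).card ≤ C1 * (M * p ^ 4 / d + k) := by
  classical
  set L := p ^ 4 * k with hL
  have hL0 : 0 < L := Nat.mul_pos (pow_pos hp 4) hk
  set N := M * p ^ 8 / d / L + 1 with hN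
  have hsub : S.filter (fun s => s % d = c) ⊆
      (range N).biUnion (fun m => S ∩ AP (c + d * (L * m)) d L) := by
    intro s hs
    rw [mem_filter] at hs
    obtain ⟨hsS, hsc⟩ := hs
    rw [mem_biUnion]
    refine ⟨s / d / L, ?_, ?_⟩
    · rw [mem_range, hN]
      have h1 : s / d ≤ M * p ^ 8 / d := Nat.div_le_div_right (hS s hsS).le
      have h2 : s / d / L ≤ M * p ^ 8 / d / L := Nat.div_le_div_right h1
      omega
    · rw [mem_inter]
      refine ⟨hsS, mem_AP.2 ⟨s / d % L, Nat.mod_lt _ hL0, ?_⟩⟩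
      have h1 := Nat.div_add_mod s d
      have h2 := Nat.div_add_mod (s / d) L
      calc c + d * (L * (s / d / L)) + d * (s / d % L)
          = d * (L * (s / d / L) + s / d % L) + c := by ring
        _ = d * (s / d) + s % d := by rw [h2, hsc]
        _ = s := h1
  have h1 : (S.filter (fun s => s % d = c)).card ≤ N * (C1 * k) := by
    refine (card_le_card hsub).trans (card_biUnion_le.trans ?_)
    calc ∑ m ∈ range N, (S ∩ AP (c + d * (L * m)) d L).card
        ≤ ∑ _m ∈ range N, C1 * k := Finset.sum_le_sum fun m _ => hR d hpd _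
      _ = N * (C1 * k) := by rw [Finset.sum_const, card_range, smul_eq_mul]
  have h2 : M * p ^ 8 / d / L * k ≤ M * p ^ 4 / d := by
    have e1 : M * p ^ 8 / d / L = M * p ^ 4 / d / k := by
      rw [hL, ← Nat.div_div_eq_div_mul, Nat.div_div_eq_div_mul (M * p ^ 8) d,
        Nat.mul_comm d, ← Nat.div_div_eq_div_mul]
      congr 2
      rw [show M * p ^ 8 = M * p ^ 4 * p ^ 4 by ring]
      exact Nat.mul_div_cancel _ (pow_pos hp 4)
    rw [e1]
    exact Nat.div_mul_le_self _ _
  calc (S.filter (fun s => s % d = c)).card ≤ N * (C1 * k) := h1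
    _ = C1 * (M * p ^ 8 / d / L * k + k) := by rw [hN]; ring
    _ ≤ C1 * (M * p ^ 4 / d + k) := Nat.mul_le_mul_left _ (by omega)

end Pool.Agent.H125R2.ET
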