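import Pool.Agent.H125R2.ET.Defs
import Pool.Agent.H125R2.ET.T12

/-!
# Task T13: the union of regular lower blocks has few elements in each class
-/

set_option autoImplicit false

namespace Pool.Agent.H125R2.ET

open Finset

namespace T13

theorem sum_16 (K i : ℕ) : ∑ j ∈ range i, 16 ^ (K + j + 1) ≤ 2 * 16 ^ (K + i) := by
  induction i with
  | zero => simp
  | succ i ih =>
    rw [Finset.sum_range_succ]
    have h1 : (16 : ℕ) ^ (K + (i + 1)) = 16 * 16 ^ (K + i) := by
      rw [← add_assoc, pow_succ]; ring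
    have h2 : (16 : ℕ) ^ (K + i + 1) = 16 * 16 ^ (K + i) := by
      rw [pow_succ]; ring
    rw [h1, h2]
    omega

end T13

/-- T13 (uses T12) -/
theorem low_class (C : ℕ) : LowClass C := by
  intro C1
  refine ⟨C1 * (2 * (C + 4) + 1), ?_⟩
  intro K i p S hK hprime hlo hhi hlt hreg
  set q := p i with hq
  have hq2 : 2 ^ (K + i) < q := hlo i
  have hq0 : 0 < q := (hprime i).pos
  have hlq : ∀ j < i, p j < q := by
    intro j hj
    calc p j ≤ 2 ^ (K + j + 1) := hhi j
      _ ≤ 2 ^ (K + i) := Nat.pow_le_pow_right (by norm_num) (by omega)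
      _ < q := hq2
  have hnd : ∀ j < i, ∀ e, ¬ p j ∣ q ^ e := by
    intro j hj e hdvd
    have h1 := (hprime j).dvd_of_dvd_pow hdvd
    have h2 := (Nat.prime_dvd_prime_iff_eq (hprime j) (hprime i)).1 h1
    have := hlq j hj
    omega
  have hgen : ∀ e, ∀ c, (((range i).biUnion S).filter (fun s => s % q ^ e = c)).card ≤
      ∑ j ∈ range i, C1 * ((C + 4) * (p j) ^ 4 / q ^ e + (K + j)) := by
    intro e c
    rw [Finset.filter_biUnion]
    refine Finset.card_biUnion_le.trans (Finset.sum_le_sum fun j hj => ?_)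
    have hj' : j < i := Finset.mem_range.1 hj
    exact reg_class (hreg j hj') (hlt j hj') (hprime j).pos (by omega) (pow_pos hq0 e)
      (hnd j hj' e) c
  have hKi : 1 ≤ K + i := by omega
  have hlt2 : K + i < q := lt_of_lt_of_le (Nat.lt_two_pow_self) hq2.le
  constructor
  · intro c
    refine (hgen 4 c).trans ?_
    have h1 : ∀ j ∈ range i, C1 * ((C + 4) * (p j) ^ 4 / q ^ 4 + (K + j)) ≤
        C1 * ((C + 5) * (K + i)) := by
      intro j hj
      have hj' : j < i := Finset.mem_range.1 hj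
      refine Nat.mul_le_mul_left _ ?_
      have h2 : (C + 4) * (p j) ^ 4 / q ^ 4 ≤ C + 4 := by
        apply Nat.div_le_of_le_mul
        rw [mul_comm (q ^ 4)]
        exact Nat.mul_le_mul_left _ (Nat.pow_le_pow_left (hlq j hj').le 4)
      have h3 : C + 4 ≤ (C + 4) * (K + i) := Nat.le_mul_of_pos_right _ (by omega)
      calc (C + 4) * (p j) ^ 4 / q ^ 4 + (K + j) ≤ (C + 4) * (K + i) + (K + i) := by omega
        _ = (C + 5) * (K + i) := by ring
    refine (Finset.sum_le_card_nsmul _ _ _ h1).trans ?_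
    rw [card_range, smul_eq_mul]
    calc i * (C1 * ((C + 5) * (K + i))) ≤ (K + i) * (C1 * ((2 * (C + 4) + 1) * (K + i))) := by
          refine Nat.mul_le_mul (by omega) (Nat.mul_le_mul_left _ (Nat.mul_le_mul_right _ ?_))
          omega
      _ = C1 * (2 * (C + 4) + 1) * (K + i) ^ 2 := by ring
  · intro c
    refine (hgen 2 c).trans ?_
    rw [← Finset.mul_sum, Finset.sum_add_distrib, mul_assoc]
    refine Nat.mul_le_mul_left _ ?_
    have h1 : ∑ j ∈ range i, (C + 4) * (p j) ^ 4 / q ^ 2 ≤ 2 * (C + 4) * q ^ 2 := by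
      have hq2pos : 0 < q ^ 2 := pow_pos hq0 2
      refine Nat.le_of_mul_le_mul_right ?_ hq2pos
      rw [Finset.sum_mul]
      calc ∑ j ∈ range i, (C + 4) * (p j) ^ 4 / q ^ 2 * q ^ 2
          ≤ ∑ j ∈ range i, (C + 4) * 16 ^ (K + j + 1) := by
            refine Finset.sum_le_sum fun j hj => (Nat.div_mul_le_self _ _).trans ?_
            refine Nat.mul_le_mul_left _ ?_
            calc (p j) ^ 4 ≤ (2 ^ (K + j + 1)) ^ 4 := Nat.pow_le_pow_left (hhi j) 4
              _ = 16 ^ (K + j + 1) := by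
                rw [← pow_mul, mul_comm (K + j + 1) 4, pow_mul]; norm_num
        _ = (C + 4) * ∑ j ∈ range i, 16 ^ (K + j + 1) := by rw [Finset.mul_sum]
        _ ≤ (C + 4) * (2 * 16 ^ (K + i)) := Nat.mul_le_mul_left _ (T13.sum_16 K i)
        _ ≤ (C + 4) * (2 * q ^ 4) := by
            refine Nat.mul_le_mul_left _ (Nat.mul_le_mul_left _ ?_)
            calc 16 ^ (K + i) = (2 ^ (K + i)) ^ 4 := by
                  rw [← pow_mul, mul_comm (K + i) 4, pow_mul]; norm_num
              _ ≤ q ^ 4 := Nat.pow_le_pow_left hq2.le 4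
        _ = 2 * (C + 4) * q ^ 2 * q ^ 2 := by ring
    have h2 : ∑ j ∈ range i, (K + j) ≤ q ^ 2 := by
      have h3 : ∀ j ∈ range i, K + j ≤ K + i := by
        intro j hj
        have hj' : j < i := Finset.mem_range.1 hj
        omega
      refine (Finset.sum_le_card_nsmul _ _ _ h3).trans ?_
      rw [card_range, smul_eq_mul]
      calc i * (K + i) ≤ q * q := Nat.mul_le_mul (by omega) hlt2.le
        _ = q ^ 2 := by ring
    calc ∑ j ∈ range i, (C + 4) * (p j) ^ 4 / q ^ 2 + ∑ j ∈ range i, (K + j)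
        ≤ 2 * (C + 4) * q ^ 2 + q ^ 2 := by omega
      _ = (2 * (C + 4) + 1) * q ^ 2 := by ring

end Pool.Agent.H125R2.ET
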