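import Pool.Agent.H125R2.ET.Defs

/-!
T14: classes modulo `q ^ 6` of the union of the lower blocks.
-/

set_option autoImplicit false

namespace Pool.Agent.H125R2.ET

open Finset

namespace T14aux

theorem cls_dvd {m m' : ℕ} {V : Finset ℕ} {g : ℕ} (h : m ∣ m') (hV : ClsLE m V g) :
    ClsLE m' V g := by
  intro c
  refine le_trans (card_le_card ?_) (hV (c % m))
  intro v hv
  rw [mem_filter] at hv ⊢
  refine ⟨hv.1, ?_⟩
  rw [← hv.2, Nat.mod_mod_of_dvd _ h]

theorem mom_empty (X : RFS) (lam : ℝ) (V : Finset ℕ) (h : ∀ ω, X.S ω ∩ V = ∅) :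
    X.mom lam V = 1 := by
  unfold RFS.mom
  have : (fun ω => Real.exp (lam * (((X.S ω) ∩ V).card : ℝ))) = fun _ => (1 : ℝ) := by
    funext ω
    rw [h ω]
    simp
  rw [this, E_const]

theorem mom_congr (X : RFS) (lam : ℝ) {V V' : Finset ℕ} (h : ∀ ω, X.S ω ∩ V = X.S ω ∩ V') :
    X.mom lam V = X.mom lam V' := by
  unfold RFS.mom
  congr 1
  funext ω
  rw [h ω]

theorem mom_pre (X : ℕ → RFS) {lam : ℝ} (hlam : 0 ≤ lam) (V : Finset ℕ) (i : ℕ) :
    (pre X i).mom lam V ≤ ∏ j ∈ range i, (X j).mom lam V := by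
  induction i with
  | zero =>
    rw [prod_range_zero]
    refine le_of_eq (mom_empty _ _ _ fun ω => ?_)
    show (∅ : Finset ℕ) ∩ V = ∅
    simp
  | succ i ih =>
    rw [prod_range_succ]
    refine (mom_pair (pre X i) (X i) hlam V).trans ?_
    exact mul_le_mul_of_nonneg_right ih (mom_nonneg _ _ _)

theorem mem_pre (X : ℕ → RFS) (i : ℕ) (x : (pre X i).Ω) {n : ℕ} (hn : n ∈ (pre X i).S x) :
    ∃ j < i, ∃ w : (X j).Ω, n ∈ (X j).S w := by
  induction i with
  | zero =>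
    have : n ∈ (∅ : Finset ℕ) := hn
    simp at this
  | succ i ih =>
    have h1 : n ∈ (pre X i).S x.1 ∪ (X i).S x.2 := hn
    rw [mem_union] at h1
    rcases h1 with h1 | h1
    · obtain ⟨j, hj, w, hw⟩ := ih x.1 h1
      exact ⟨j, by omega, w, hw⟩
    · exact ⟨i, by omega, x.2, h1⟩

/-- the part of the class above the threshold -/
def Vc (C q c : ℕ) : Finset ℕ :=
  (range ((C + 4) * q ^ 8)).filter (fun n => n % q ^ 6 = c ∧ 256 * (C + 4) * q ^ 6 ≤ n)

theorem cls_Vc {C p q : ℕ} (hp : p.Prime) (hq : q.Prime) (hpq : p < q) (c : ℕ) :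
    ClsLE (p ^ 2) ((Vc C q c).filter (fun v => v < (C + 4) * p ^ 8)) (C + 5) := by
  intro c'
  have hcop : Nat.Coprime (q ^ 6) (p ^ 2) :=
    Nat.Coprime.pow 6 2 ((Nat.coprime_primes hq hp).2 hpq.ne')
  have hp0 : 0 < p := hp.pos
  have hq0 : 0 < q := hq.pos
  refine (card_le_of_modEq (N := (C + 4) * p ^ 8) (M := q ^ 6 * p ^ 2) ?_ ?_).trans ?_
  · intro v hv
    exact (mem_filter.1 (mem_filter.1 hv).1).2
  · intro v hv w hw
    have hv1 := (mem_filter.1 hv).2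
    have hw1 := (mem_filter.1 hw).2
    have hv2 := (mem_filter.1 (mem_filter.1 (mem_filter.1 hv).1).1).2.1
    have hw2 := (mem_filter.1 (mem_filter.1 (mem_filter.1 hw).1).1).2.1
    exact (Nat.modEq_and_modEq_iff_modEq_mul hcop).1 ⟨hv2.trans hw2.symm, hv1.trans hw1.symm⟩
  · have h1 : (C + 4) * p ^ 8 / (q ^ 6 * p ^ 2) ≤ C + 4 := by
      apply Nat.div_le_of_le_mul
      have h2 : p ^ 6 ≤ q ^ 6 := Nat.pow_le_pow_left hpq.le 6
      calc (C + 4) * p ^ 8 = p ^ 6 * (p ^ 2 * (C + 4)) := by ring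
        _ ≤ q ^ 6 * (p ^ 2 * (C + 4)) := Nat.mul_le_mul_right _ h2
        _ = q ^ 6 * p ^ 2 * (C + 4) := by ring
    omega

theorem pow4_le (k : ℕ) : k ^ 4 ≤ 2 ^ (3 * k) := by
  have h1 : ∀ k : ℕ, k ^ 4 ≤ 8 ^ k := by
    intro k
    induction k with
    | zero => norm_num
    | succ k ih =>
      rcases Nat.lt_or_ge k 2 with hk | hk
      · interval_cases k <;> norm_num
      · rw [pow_succ 8 k]
        have h2 : (k + 1) ^ 4 ≤ 8 * k ^ 4 := by
          nlinarith [Nat.pow_le_pow_left hk 2, Nat.pow_le_pow_left hk 3, sq_nonneg (k : ℤ),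
            mul_le_mul hk (Nat.pow_le_pow_left hk 3) (by positivity) (by positivity)]
        omega
  rw [pow_mul]
  exact h1 k

theorem sq_le_two_pow (k : ℕ) (hk : 4 ≤ k) : k ^ 2 ≤ 2 ^ k := by
  induction k, hk using Nat.le_induction with
  | base => norm_num
  | succ k hk ih =>
    rw [pow_succ 2 k]
    nlinarith

theorem mom_block {C : ℕ} {KM : ℝ} (hKM : 0 < KM)
    (hM : ∀ (p : ℕ) (hp : 0 < p) (D : Finset ℕ), IsBase C p D →
      ∀ (lam : ℝ), 0 ≤ lam → ∀ (g h G : ℕ) (V : Finset ℕ),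
        ClsLE (p ^ 6) V g → ClsLE (p ^ 4) V h → ClsLE (p ^ 2) V G →
        KM * Real.exp (lam * g) * h ≤ p →
        (block p hp D).mom lam V ≤ Real.exp (KM * Real.exp (lam * g) * G / (p : ℝ) ^ 2))
    (hR : BlockRange C) {M : ℕ} (hMM : KM ≤ M) {k : ℕ} (hk : C + 8 ≤ k)
    (hk2 : M * (C + 5) ≤ k) {p q : ℕ} (hp : p.Prime) (hq : q.Prime) (hpq : p < q)
    (hpk : C + 8 ≤ p) (hqk : 2 ^ k < q) (D : Finset ℕ) (hD : IsBase C p D) {lam : ℝ}
    (hlam : 0 ≤ lam) (hl : Real.exp (lam * ((C + 5 : ℕ) : ℝ)) ^ 4 = 2 ^ k) (c : ℕ) :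
    (block p hp.pos D).mom lam (Vc C q c) ≤ Real.exp (1 / (k : ℝ)) := by
  have hrange := fun t => (hR p hp.pos (by omega) (by omega) D hD t).1
  have hk0 : (0 : ℝ) < k := by
    have : 0 < k := by omega
    exact_mod_cast this
  by_cases h : p ^ 8 ≤ 256 * q ^ 6
  · rw [mom_empty]
    · exact Real.one_le_exp (by positivity)
    · intro ω
      rw [← Finset.not_nonempty_iff_eq_empty]
      rintro ⟨v, hv⟩
      rw [mem_inter] at hv
      have h1 := (hrange ω v hv.1).2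
      have h2 := (mem_filter.1 hv.2).2.2
      have h3 : (C + 4) * p ^ 8 ≤ (C + 4) * (256 * q ^ 6) := Nat.mul_le_mul_left _ h
      have h4 : (C + 4) * (256 * q ^ 6) = 256 * (C + 4) * q ^ 6 := by ring
      omega
  · push Not at h
    have hp4 : 16 * 2 ^ (3 * k) < p ^ 4 := by
      by_contra hc
      push Not at hc
      have h1 : p ^ 8 ≤ 256 * 2 ^ (6 * k) := by
        calc p ^ 8 = (p ^ 4) ^ 2 := by ring
          _ ≤ (16 * 2 ^ (3 * k)) ^ 2 := Nat.pow_le_pow_left hc 2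
          _ = 256 * 2 ^ (6 * k) := by rw [mul_pow, ← pow_mul]; ring_nf
      have h2 : 2 ^ (6 * k) ≤ q ^ 6 := by
        calc 2 ^ (6 * k) = (2 ^ k) ^ 6 := by rw [← pow_mul]; ring_nf
          _ ≤ q ^ 6 := Nat.pow_le_pow_left hqk.le 6
      omega
    have hp4' : 2 ^ (3 * k) ≤ p ^ 4 := by
      have : 0 < 2 ^ (3 * k) := by positivity
      omega
    have hkp : k ≤ p := by
      have h1 : k ^ 4 ≤ p ^ 4 := (pow4_le k).trans hp4'
      exact (Nat.pow_le_pow_iff_left (by norm_num)).1 h1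
    set Λ := Real.exp (lam * ((C + 5 : ℕ) : ℝ)) with hΛ
    have hΛ0 : 0 < Λ := Real.exp_pos _
    have hcond : KM * Λ * ((C + 5 : ℕ) : ℝ) ≤ p := by
      have h1 : (KM * Λ * ((C + 5 : ℕ) : ℝ)) ^ 4 ≤ (p : ℝ) ^ 4 := by
        calc (KM * Λ * ((C + 5 : ℕ) : ℝ)) ^ 4
            = (KM * ((C + 5 : ℕ) : ℝ)) ^ 4 * Λ ^ 4 := by ring
          _ ≤ ((M : ℝ) * ((C + 5 : ℕ) : ℝ)) ^ 4 * Λ ^ 4 := by
              have : KM * ((C + 5 : ℕ) : ℝ) ≤ (M : ℝ) * ((C + 5 : ℕ) : ℝ) :=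
                mul_le_mul_of_nonneg_right hMM (by positivity)
              gcongr
          _ ≤ (k : ℝ) ^ 4 * 2 ^ k := by
              rw [hl]
              have h2 : ((M : ℝ) * ((C + 5 : ℕ) : ℝ)) ≤ k := by exact_mod_cast hk2
              gcongr
          _ ≤ (p : ℝ) ^ 4 := by
              have h3 : k ^ 2 ≤ 2 ^ k := sq_le_two_pow k (by omega)
              have h4 : k ^ 4 * 2 ^ k ≤ p ^ 4 := by
                calc k ^ 4 * 2 ^ k = (k ^ 2) ^ 2 * 2 ^ k := by ring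
                  _ ≤ (2 ^ k) ^ 2 * 2 ^ k := Nat.mul_le_mul_right _ (Nat.pow_le_pow_left h3 2)
                  _ = 2 ^ (3 * k) := by rw [← pow_mul, ← pow_add]; ring_nf
                  _ ≤ p ^ 4 := hp4'
              exact_mod_cast h4
      exact le_of_pow_le_pow_left₀ (by norm_num) (by positivity) h1
    have hcong : (block p hp.pos D).mom lam (Vc C q c) =
        (block p hp.pos D).mom lam ((Vc C q c).filter (fun v => v < (C + 4) * p ^ 8)) := by
      apply mom_congr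
      intro ω
      ext v
      simp only [mem_inter, mem_filter]
      constructor
      · rintro ⟨h1, h2⟩
        exact ⟨h1, h2, (hrange ω v h1).2⟩
      · rintro ⟨h1, h2, -⟩
        exact ⟨h1, h2⟩
    rw [hcong]
    have hc2 := cls_Vc (C := C) hp hq hpq c
    have hc4 : ClsLE (p ^ 4) ((Vc C q c).filter (fun v => v < (C + 4) * p ^ 8)) (C + 5) :=
      cls_dvd (pow_dvd_pow p (by norm_num)) hc2
    have hc6 : ClsLE (p ^ 6) ((Vc C q c).filter (fun v => v < (C + 4) * p ^ 8)) (C + 5) :=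
      cls_dvd (pow_dvd_pow p (by norm_num)) hc2
    refine (hM p hp.pos D hD lam hlam _ _ _ _ hc6 hc4 hc2 hcond).trans ?_
    refine Real.exp_le_exp.2 ?_
    have hp0 : (0 : ℝ) < p := by exact_mod_cast hp.pos
    have hkp' : (k : ℝ) ≤ p := by exact_mod_cast hkp
    rw [div_le_div_iff₀ (by positivity) hk0]
    calc KM * Real.exp (lam * ((C + 5 : ℕ) : ℝ)) * ((C + 5 : ℕ) : ℝ) * (k : ℝ)
        ≤ p * p := mul_le_mul hcond hkp' hk0.le hp0.le
      _ = 1 * (p : ℝ) ^ 2 := by ring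

end T14aux

open T14aux

/-- T14 -/
theorem spr_prob (C : ℕ) (hM : BlockMom C) (hR : BlockRange C) : SprProb C := by
  obtain ⟨KM, hKM, hM⟩ := hM
  obtain ⟨M, hMM⟩ := exists_nat_ge KM
  refine ⟨64 * (C + 5) + 256 * (C + 4) + 2, max (C + 8) (M * (C + 5)), ?_⟩
  intro K hK s i
  have hK1 : C + 8 ≤ K := (le_max_left _ _).trans hK
  have hK2 : M * (C + 5) ≤ K := (le_max_right _ _).trans hK
  obtain ⟨k, hk⟩ : ∃ k, k = K + i := ⟨_, rfl⟩
  have hqlo : 2 ^ k < s.p i := by rw [hk]; exact s.lo i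
  have hqhi : s.p i ≤ 2 ^ (k + 1) := by rw [hk]; exact s.hi i
  have hqp := s.prime i
  obtain ⟨q, hq⟩ : ∃ q, q = s.p i := ⟨_, rfl⟩
  rw [← hk]
  rw [← hq] at hqlo hqhi hqp ⊢
  have hpq : ∀ j < i, s.p j < q := by
    intro j hj
    calc s.p j ≤ 2 ^ (K + j + 1) := s.hi j
      _ ≤ 2 ^ k := Nat.pow_le_pow_right (by norm_num) (by omega)
      _ < q := hqlo
  have hpk : ∀ j, C + 8 ≤ s.p j := by
    intro j
    have h1 := s.lo j
    have h2 : K + j < 2 ^ (K + j) := Nat.lt_two_pow_self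
    omega
  have hk0 : (0 : ℝ) < k := by
    have : 0 < k := by omega
    exact_mod_cast this
  have hlog : 0 < Real.log 2 := Real.log_pos (by norm_num)
  obtain ⟨lam, hlamdef⟩ : ∃ lam : ℝ, lam = k * Real.log 2 / (4 * ((C + 5 : ℕ) : ℝ)) := ⟨_, rfl⟩
  have hC5 : (0 : ℝ) < ((C + 5 : ℕ) : ℝ) := by positivity
  have hlam : 0 ≤ lam := by rw [hlamdef]; positivity
  have hl : Real.exp (lam * ((C + 5 : ℕ) : ℝ)) ^ 4 = 2 ^ k := by
    rw [← Real.exp_nat_mul, hlamdef]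
    have : ((4 : ℕ) : ℝ) * (k * Real.log 2 / (4 * ((C + 5 : ℕ) : ℝ)) * ((C + 5 : ℕ) : ℝ)) =
        k * Real.log 2 := by
      field_simp
      norm_num
    rw [this, Real.exp_nat_mul, Real.exp_log (by norm_num)]
  -- moment of the prefix
  have hmom : ∀ c, (pre s.X i).mom lam (Vc C q c) ≤ Real.exp 1 := by
    intro c
    refine (mom_pre s.X hlam _ i).trans ?_
    have h1 : ∏ j ∈ range i, (s.X j).mom lam (Vc C q c) ≤
        ∏ j ∈ range i, Real.exp (1 / (k : ℝ)) := by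
      refine prod_le_prod (fun j _ => mom_nonneg _ _ _) (fun j hj => ?_)
      rw [mem_range] at hj
      exact mom_block hKM hM hR hMM (by omega) (by omega) (s.prime j) hqp (hpq j hj) (hpk j) hqlo
        (s.D j) (s.base j) hlam hl c
    refine h1.trans ?_
    rw [prod_const, card_range, ← Real.exp_nat_mul]
    refine Real.exp_le_exp.2 ?_
    rw [mul_one_div, div_le_one hk0]
    exact_mod_cast (by omega : i ≤ k)
  -- union bound
  have hun : (pre s.X i).Pr (fun x => ¬ ClsLE (q ^ 6) ((pre s.X i).S x)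
      (64 * (C + 5) + 256 * (C + 4) + 2)) ≤
      ∑ c ∈ range (q ^ 6), Real.exp (-(lam * ((64 * (C + 5) : ℕ) : ℝ))) * Real.exp 1 := by
    refine (Pr_mono (pre s.X i) (B := fun x => ∃ c ∈ range (q ^ 6),
      ((64 * (C + 5) : ℕ) : ℝ) ≤ ((((pre s.X i).S x) ∩ Vc C q c).card : ℝ)) (fun x h => ?_)).trans
      ((Pr_exists_le _ _ _).trans (sum_le_sum fun c _ => ?_))
    · unfold ClsLE at h
      push Not at h
      obtain ⟨c, hc⟩ := h
      have hq6 : 0 < q ^ 6 := pow_pos hqp.pos 6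
      have hcq : c < q ^ 6 := by
        by_contra hcc
        have : ((pre s.X i).S x).filter (fun v => v % q ^ 6 = c) = ∅ := by
          rw [Finset.filter_eq_empty_iff]
          intro v _ hv
          have := Nat.mod_lt v hq6
          omega
        rw [this] at hc
        simp at hc
      refine ⟨c, mem_range.2 hcq, ?_⟩
      have hsub : ((pre s.X i).S x).filter (fun v => v % q ^ 6 = c) ⊆
          (((pre s.X i).S x) ∩ Vc C q c) ∪
          ((pre s.X i).S x).filter (fun v => v % q ^ 6 = c ∧ v < 256 * (C + 4) * q ^ 6) := by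
        intro v hv
        rw [mem_filter] at hv
        rw [mem_union, mem_inter, mem_filter]
        by_cases hv2 : v < 256 * (C + 4) * q ^ 6
        · exact Or.inr ⟨hv.1, hv.2, hv2⟩
        · refine Or.inl ⟨hv.1, mem_filter.2 ⟨mem_range.2 ?_, hv.2, by omega⟩⟩
          obtain ⟨j, hj, w, hw⟩ := mem_pre s.X i x hv.1
          have h1 := ((hR (s.p j) (s.prime j).pos (by have := hpk j; omega)
            (by have := hpk j; omega) (s.D j) (s.base j) w).1 v hw).2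
          have h2 : (C + 4) * (s.p j) ^ 8 ≤ (C + 4) * q ^ 8 :=
            Nat.mul_le_mul_left _ (Nat.pow_le_pow_left (hpq j hj).le 8)
          omega
      have h1 := (card_le_card hsub).trans (card_union_le _ _)
      have h2 : (((pre s.X i).S x).filter
          (fun v => v % q ^ 6 = c ∧ v < 256 * (C + 4) * q ^ 6)).card ≤ 256 * (C + 4) + 1 := by
        refine (card_le_of_modEq (N := 256 * (C + 4) * q ^ 6) (M := q ^ 6) ?_ ?_).trans ?_
        · intro v hv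
          exact (mem_filter.1 hv).2.2
        · intro v hv w hw
          rw [(mem_filter.1 hv).2.1, (mem_filter.1 hw).2.1]
        · rw [Nat.mul_div_cancel _ hq6]
      exact_mod_cast (by omega : 64 * (C + 5) ≤ (((pre s.X i).S x) ∩ Vc C q c).card)
    · refine (Pr_hits_le (pre s.X i) hlam (Vc C q c) _).trans ?_
      exact mul_le_mul_of_nonneg_left (hmom c) (Real.exp_pos _).le
  refine hun.trans ?_
  rw [sum_const, nsmul_eq_mul, card_range]
  have he : Real.exp (lam * ((64 * (C + 5) : ℕ) : ℝ)) = 2 ^ (16 * k) := by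
    have e1 : lam * ((64 * (C + 5) : ℕ) : ℝ) =
        ((64 : ℕ) : ℝ) * (lam * ((C + 5 : ℕ) : ℝ)) := by
      push_cast
      ring
    rw [e1, Real.exp_nat_mul]
    calc Real.exp (lam * ((C + 5 : ℕ) : ℝ)) ^ 64
        = (Real.exp (lam * ((C + 5 : ℕ) : ℝ)) ^ 4) ^ 16 := by rw [← pow_mul]
      _ = 2 ^ (16 * k) := by rw [hl, ← pow_mul, mul_comm]
  have he1 : Real.exp 1 ≤ 4 := by
    have := Real.exp_one_lt_d9
    linarith
  have hnat : q ^ 6 * 4 * 2 ^ (4 * k + 3) ≤ 2 ^ (16 * k) := by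
    calc q ^ 6 * 4 * 2 ^ (4 * k + 3) ≤ (2 ^ (k + 1)) ^ 6 * 4 * 2 ^ (4 * k + 3) :=
          Nat.mul_le_mul_right _ (Nat.mul_le_mul_right _ (Nat.pow_le_pow_left hqhi 6))
      _ = 2 ^ (10 * k + 11) := by
          rw [← pow_mul, show (4 : ℕ) = 2 ^ 2 by norm_num, ← pow_add, ← pow_add]
          congr 1
          ring
      _ ≤ 2 ^ (16 * k) := Nat.pow_le_pow_right (by norm_num) (by omega)
  have hreal : ((q ^ 6 : ℕ) : ℝ) * 4 * 2 ^ (4 * k + 3) ≤ 2 ^ (16 * k) := by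
    exact_mod_cast hnat
  rw [Real.exp_neg, he]
  have h16 : (0 : ℝ) < 2 ^ (16 * k) := by positivity
  have h43 : (0 : ℝ) < 2 ^ (4 * k + 3) := by positivity
  rw [le_div_iff₀ h43]
  calc ((q ^ 6 : ℕ) : ℝ) * ((2 ^ (16 * k))⁻¹ * Real.exp 1) * 2 ^ (4 * k + 3)
      ≤ ((q ^ 6 : ℕ) : ℝ) * ((2 ^ (16 * k))⁻¹ * 4) * 2 ^ (4 * k + 3) := by gcongr
    _ = (((q ^ 6 : ℕ) : ℝ) * 4 * 2 ^ (4 * k + 3)) * (2 ^ (16 * k))⁻¹ := by ring
    _ ≤ 2 ^ (16 * k) * (2 ^ (16 * k))⁻¹ := by gcongr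
    _ = 1 := mul_inv_cancel₀ h16.ne'

end Pool.Agent.H125R2.ET
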