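import Pool.Agent.H125R2.ET.Defs

/-!
Task T15: the hits between a block and a fixed well distributed set of smaller numbers.
-/

set_option autoImplicit false

namespace Pool.Agent.H125R2.ET

open Finset

theorem T15_cls_refl {M : ℕ} {Y : Finset ℕ} {g : ℕ} (h : ClsLE M Y g) (n : ℕ) :
    ClsLE M (refl n Y) g := by
  intro c
  rcases ((refl n Y).filter (fun v => v % M = c)).eq_empty_or_nonempty with he | ⟨m0, hm0⟩
  · rw [he]
    simp
  · rw [mem_filter, mem_refl] at hm0
    obtain ⟨⟨h1, h2⟩, h3⟩ := hm0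
    refine le_trans ?_ (h ((n - m0) % M))
    apply Finset.card_le_card_of_injOn (fun m => n - m)
    · intro m hm
      rw [Finset.mem_coe, mem_filter, mem_refl] at hm
      obtain ⟨⟨a1, a2⟩, a3⟩ := hm
      rw [Finset.mem_coe, mem_filter]
      refine ⟨a2, ?_⟩
      have e1 : (n - m) + m ≡ (n - m0) + m0 [MOD M] := by
        have : (n - m) + m = (n - m0) + m0 := by omega
        rw [this]
      have e2 : m ≡ m0 [MOD M] := by
        unfold Nat.ModEq
        rw [a3, h3]
      exact Nat.ModEq.add_right_cancel e2 e1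
    · intro m hm m' hm' hmm
      rw [Finset.mem_coe, mem_filter, mem_refl] at hm hm'
      dsimp only at hmm
      omega

theorem T15_cls_mono {M : ℕ} {Y : Finset ℕ} {g g' : ℕ} (h : ClsLE M Y g) (hg : g ≤ g') :
    ClsLE M Y g' := fun c => le_trans (h c) hg

theorem fin_prob (C : ℕ) (hM : BlockMom C) (hR : BlockRange C) : FinProb C := by
  intro g C2
  obtain ⟨K, hK, hM⟩ := hM
  -- the constants
  have hlim := tendsto_pow_const_div_const_pow_of_one_lt 3 (r := (2 : ℝ)) (by norm_num)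
  have hev : ∀ᶠ k : ℕ in Filter.atTop, (k : ℝ) ^ 3 / 2 ^ k < 1 / (K * C2 + 1) := by
    apply (tendsto_order.1 hlim).2
    positivity
  obtain ⟨k1, hk1⟩ := Filter.eventually_atTop.1 hev
  refine ⟨(g + 1) * (⌈K * C2⌉₊ + 20), max k1 (C + 20), ?_⟩
  intro k hk p hp D hp1 hp2 hD Y hY h6 h4 h2
  have hkk1 : k1 ≤ k := le_trans (le_max_left _ _) hk
  have hkC : C + 20 ≤ k := le_trans (le_max_right _ _) hk
  have hk2k : k < 2 ^ k := Nat.lt_two_pow_self
  have hkR : (20 : ℝ) ≤ k := by exact_mod_cast (by omega : 20 ≤ k)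
  have hlogk : 0 < Real.log k := Real.log_pos (by linarith)
  set T : ℝ := ((((g + 1) * (⌈K * C2⌉₊ + 20) : ℕ) : ℝ)) * k / Real.log k with hT
  have hT0 : 0 < T := by
    rw [hT]
    apply div_pos _ hlogk
    apply mul_pos _ (by linarith)
    exact_mod_cast (by positivity : 0 < (g + 1) * (⌈K * C2⌉₊ + 20))
  set N : ℕ := 2 * ((C + 4) * 2 ^ (8 * k + 8)) with hN
  -- the range
  have hrange : ∀ ω : (block p hp D).Ω, ∀ n, N ≤ n →
      (((((block p hp D).S ω) ∩ refl n Y).card : ℕ) : ℝ) < T := by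
    intro ω n hn
    have he : ((block p hp D).S ω) ∩ refl n Y = ∅ := by
      rw [Finset.eq_empty_iff_forall_notMem]
      intro s hs
      rw [mem_inter, mem_refl] at hs
      obtain ⟨hs1, hs2, hs3⟩ := hs
      have a1 := ((hR p hp (by omega) (by omega) D hD ω).1 s hs1).2
      have a2 := hY _ hs3
      have a3 : p ^ 8 ≤ 2 ^ (8 * k + 8) := by
        calc p ^ 8 ≤ (2 ^ (k + 1)) ^ 8 := Nat.pow_le_pow_left hp2 8
          _ = 2 ^ (8 * k + 8) := by rw [← pow_mul]; ring_nf
      have a4 : (C + 4) * p ^ 8 ≤ (C + 4) * 2 ^ (8 * k + 8) := Nat.mul_le_mul_left _ a3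
      omega
    rw [he]
    simpa using hT0
  -- one value of n
  have hone : ∀ n, (block p hp D).Pr (fun ω => T ≤ ((((block p hp D).S ω) ∩ refl n Y).card : ℝ)) ≤
      Real.exp (-(20 * k)) := by
    intro n
    set lam : ℝ := Real.log k / ((g + 1 : ℕ) : ℝ) with hlam
    have hg1 : (0 : ℝ) < ((g + 1 : ℕ) : ℝ) := by exact_mod_cast Nat.succ_pos g
    have hlam0 : 0 ≤ lam := by rw [hlam]; positivity
    have hexp : Real.exp (lam * ((g + 1 : ℕ) : ℝ)) = k := by
      rw [hlam, div_mul_cancel₀ _ hg1.ne', Real.exp_log (by linarith)]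
    have hmom := hM p hp D hD lam hlam0 (g + 1) (C2 * k ^ 2) (C2 * p ^ 2) (refl n Y)
      (T15_cls_mono (T15_cls_refl h6 n) (Nat.le_succ g)) (T15_cls_refl h4 n)
      (T15_cls_refl h2 n) (by
        rw [hexp]
        push_cast
        have b1 := hk1 k hkk1
        have b2 : (0 : ℝ) < 2 ^ k := by positivity
        have b3 : (0 : ℝ) < K * C2 + 1 := by positivity
        rw [div_lt_div_iff₀ b2 b3] at b1
        have b4 : (2 : ℝ) ^ k ≤ p := by exact_mod_cast hp1.le
        have b5 : (0 : ℝ) ≤ (k : ℝ) ^ 3 := by positivity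
        calc K * (k : ℝ) * ((C2 : ℝ) * (k : ℝ) ^ 2) = (k : ℝ) ^ 3 * (K * C2) := by ring
          _ ≤ (k : ℝ) ^ 3 * (K * C2 + 1) := by nlinarith
          _ ≤ 1 * 2 ^ k := b1.le
          _ = 2 ^ k := one_mul _
          _ ≤ p := b4)
    have hmark := Pr_hits_le (block p hp D) hlam0 (refl n Y) T
    refine le_trans hmark ?_
    have hp0 : (0 : ℝ) < (p : ℝ) ^ 2 := by positivity
    have e1 : K * Real.exp (lam * ((g + 1 : ℕ) : ℝ)) * ((C2 * p ^ 2 : ℕ) : ℝ) / (p : ℝ) ^ 2 =
        K * C2 * k := by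
      rw [hexp]
      push_cast
      field_simp
    rw [e1] at hmom
    have e2 : lam * T = ((⌈K * C2⌉₊ + 20 : ℕ) : ℝ) * k := by
      rw [hlam, hT]
      push_cast
      have : ((g : ℝ) + 1) ≠ 0 := by positivity
      field_simp
    rw [e2]
    calc Real.exp (-(((⌈K * C2⌉₊ + 20 : ℕ) : ℝ) * k)) * (block p hp D).mom lam (refl n Y)
        ≤ Real.exp (-(((⌈K * C2⌉₊ + 20 : ℕ) : ℝ) * k)) * Real.exp (K * C2 * k) :=
          mul_le_mul_of_nonneg_left hmom (Real.exp_pos _).le
      _ = Real.exp (-(((⌈K * C2⌉₊ + 20 : ℕ) : ℝ) * k) + K * C2 * k) := (Real.exp_add _ _).symm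
      _ ≤ Real.exp (-(20 * k)) := by
          rw [Real.exp_le_exp]
          have c1 : K * C2 ≤ (⌈K * C2⌉₊ : ℝ) := Nat.le_ceil _
          push_cast
          nlinarith
  -- union bound
  calc (block p hp D).Pr (fun ω => ¬ ∀ n, ((((block p hp D).S ω) ∩ refl n Y).card : ℝ) ≤ T)
      ≤ (block p hp D).Pr (fun ω => ∃ n ∈ range N,
          T ≤ ((((block p hp D).S ω) ∩ refl n Y).card : ℝ)) := by
        apply Pr_mono
        intro ω hω
        push Not at hω
        obtain ⟨n, hn⟩ := hω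
        refine ⟨n, ?_, hn.le⟩
        rw [mem_range]
        by_contra hc
        have := hrange ω n (by omega)
        linarith
    _ ≤ ∑ n ∈ range N, (block p hp D).Pr (fun ω =>
          T ≤ ((((block p hp D).S ω) ∩ refl n Y).card : ℝ)) := Pr_exists_le _ _ _
    _ ≤ ∑ n ∈ range N, Real.exp (-(20 * k)) := Finset.sum_le_sum (fun n _ => hone n)
    _ = N * Real.exp (-(20 * k)) := by rw [Finset.sum_const, card_range, nsmul_eq_mul]
    _ ≤ 1 / 2 ^ (k + 3) := by
        have d1 : (2 : ℝ) ^ (20 * k) ≤ Real.exp (20 * k) := by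
          have : (2 : ℝ) ≤ Real.exp 1 := by
            have := Real.add_one_le_exp (1 : ℝ)
            linarith
          calc (2 : ℝ) ^ (20 * k) ≤ (Real.exp 1) ^ (20 * k) := pow_le_pow_left₀ (by norm_num) this _
            _ = Real.exp (20 * k) := by
              rw [← Real.exp_nat_mul]
              push_cast
              rw [mul_one]
        have d2 : N * 2 ^ (k + 3) ≤ 2 ^ (20 * k) := by
          rw [hN]
          have f1 : C + 4 ≤ 2 ^ (C + 4) := Nat.lt_two_pow_self.le
          calc 2 * ((C + 4) * 2 ^ (8 * k + 8)) * 2 ^ (k + 3)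
              ≤ 2 * (2 ^ (C + 4) * 2 ^ (8 * k + 8)) * 2 ^ (k + 3) := by gcongr
            _ = 2 ^ (1 + (C + 4) + (8 * k + 8) + (k + 3)) := by
                ring
            _ ≤ 2 ^ (20 * k) := Nat.pow_le_pow_right (by norm_num) (by omega)
        have d3 : (N : ℝ) * 2 ^ (k + 3) ≤ 2 ^ (20 * k) := by exact_mod_cast d2
        rw [Real.exp_neg, ← div_eq_mul_inv, div_le_div_iff₀ (Real.exp_pos _) (by positivity)]
        linarith

end Pool.Agent.H125R2.ET
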