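import Pool.Agent.H125R2.ET.T16

/-!
T17: probability recursion and compactness
-/

set_option autoImplicit false

namespace Pool.Agent.H125R2.ET

open Finset

theorem exists_good_Pr (X : ℕ → RFS) (G : ∀ i, (pre X i).Ω → Prop)
    (F : ∀ i, (pre X i).Ω → (X i).Ω → Prop) (Sp : ∀ i, (pre X i).Ω → Prop)
    (h0 : ∀ x : (pre X 0).Ω, Sp 0 x → G 0 x)
    (hstep : ∀ i (x : (pre X i).Ω) (w : (X i).Ω), G (i + 1) (x, w) ↔
      (G i x ∧ F i x w ∧ Sp (i + 1) (x, w)))
    (hF : ∀ i (x : (pre X i).Ω), G i x → (X i).Pr (fun w => ¬ F i x w) ≤ 1 / 2)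
    (hS : ∀ i, (pre X i).Pr (fun x => ¬ Sp i x) ≤ 1 / (2 * 4 ^ i)) (i : ℕ) :
    1 / (2 * 4 ^ i) ≤ (pre X i).Pr (G i) := by
  induction i with
  | zero =>
    have h1 : (pre X 0).Pr (Sp 0) ≤ (pre X 0).Pr (G 0) := Pr_mono _ h0
    have h2 := Pr_compl (pre X 0) (Sp 0)
    have h3 := hS 0
    norm_num at h3 ⊢
    linarith
  | succ i ih =>
    have h1 : (pre X (i + 1)).Pr (G (i + 1)) =
        (pre X i).E (fun x => (X i).E (fun w => ind (G (i + 1) (x, w)))) :=
      E_pair (pre X i) (X i) (fun z => ind (G (i + 1) z))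
    have h2 : (pre X (i + 1)).Pr (fun z => ¬ Sp (i + 1) z) =
        (pre X i).E (fun x => (X i).E (fun w => ind (¬ Sp (i + 1) (x, w)))) :=
      E_pair (pre X i) (X i) (fun z => ind (¬ Sp (i + 1) z))
    have h3 : (pre X i).E (fun x => (1 / 2 : ℝ) * ind (G i x)) ≤
        (pre X i).E (fun x => (X i).E (fun w => ind (G (i + 1) (x, w))) +
          (X i).E (fun w => ind (¬ Sp (i + 1) (x, w)))) := by
      refine E_mono _ (fun x => ?_)
      rw [← E_add]
      by_cases hx : G i x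
      · rw [ind_true hx]
        have h4 : (1 / 2 : ℝ) ≤ (X i).Pr (fun w => F i x w) := by
          have := Pr_compl (X i) (fun w => F i x w)
          have := hF i x hx
          linarith
        refine le_trans (by linarith) (le_trans h4 (E_mono _ (fun w => ?_)))
        by_cases hw : F i x w
        · by_cases hs : Sp (i + 1) (x, w)
          · rw [ind_true hw, ind_true ((hstep i x w).2 ⟨hx, hw, hs⟩)]
            have := ind_nonneg (¬ Sp (i + 1) (x, w))
            linarith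
          · rw [ind_true hw, ind_true hs]
            have := ind_nonneg (G (i + 1) (x, w))
            linarith
        · rw [ind_false hw]
          exact add_nonneg (ind_nonneg _) (ind_nonneg _)
      · rw [ind_false hx, mul_zero]
        exact E_nonneg _ (fun w => add_nonneg (ind_nonneg _) (ind_nonneg _))
    rw [E_mul_left, E_add, ← h1, ← h2] at h3
    have h5 : (pre X i).E (fun x => ind (G i x)) = (pre X i).Pr (G i) := rfl
    rw [h5] at h3
    have h6 := hS (i + 1)
    have h7 : (1 : ℝ) / (2 * 4 ^ i) = 4 * (1 / (2 * 4 ^ (i + 1))) := by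
      rw [pow_succ]
      field_simp
    rw [h7] at ih
    have h8 : (0 : ℝ) < 1 / (2 * 4 ^ (i + 1)) := by positivity
    linarith

/-- T17a (uses T16) -/
theorem exists_good (X : ℕ → RFS) (G : ∀ i, (pre X i).Ω → Prop)
    (F : ∀ i, (pre X i).Ω → (X i).Ω → Prop) (Sp : ∀ i, (pre X i).Ω → Prop)
    (h0 : ∀ x : (pre X 0).Ω, Sp 0 x → G 0 x)
    (hstep : ∀ i (x : (pre X i).Ω) (w : (X i).Ω), G (i + 1) (x, w) ↔
      (G i x ∧ F i x w ∧ Sp (i + 1) (x, w)))
    (hF : ∀ i (x : (pre X i).Ω), G i x → (X i).Pr (fun w => ¬ F i x w) ≤ 1 / 2)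
    (hS : ∀ i, (pre X i).Pr (fun x => ¬ Sp i x) ≤ 1 / (2 * 4 ^ i)) :
    ∃ ω : ∀ i, (X i).Ω, ∀ i, G i (pt X ω i) := by
  refine compactness X G (fun i => ?_) (fun i x w h => ((hstep i x w).1 h).1)
  refine exists_of_Pr_pos (pre X i) (A := G i) ?_
  have := exists_good_Pr X G F Sp h0 hstep hF hS i
  have h8 : (0 : ℝ) < 1 / (2 * 4 ^ i) := by positivity
  linarith

end Pool.Agent.H125R2.ET
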