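import Pool.Agent.H125R2.ET.Defs

/-!
# The union of the blocks is an additive basis of order two
-/

set_option autoImplicit false

namespace Pool.Agent.H125R2.ET

open Finset

theorem blocks_basis (C K C3 R : ℕ) (p : ℕ → ℕ) (S : ℕ → Finset ℕ) (h : Blocks C K C3 R p S) :
    ∃ n₀ : ℕ, ∀ n ≥ n₀, 1 ≤ rA (bigA S) n := by
  refine ⟨11 * (p 0) ^ 8, fun n hn => ?_⟩
  -- some index beyond `n`
  have hex : ∃ j, n < 11 * (p j) ^ 8 := by
    refine ⟨n, ?_⟩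
    have h1 : 2 ^ (K + n) < p n := h.lo n
    have h2 : n < 2 ^ (K + n) := lt_of_lt_of_le Nat.lt_two_pow_self
      (Nat.pow_le_pow_right (by norm_num) (by omega))
    have h3 : p n ≤ (p n) ^ 8 := Nat.le_self_pow (by norm_num) _
    omega
  classical
  obtain ⟨j, hj, hmin⟩ : ∃ j, n < 11 * (p j) ^ 8 ∧ ∀ k < j, ¬ n < 11 * (p k) ^ 8 :=
    ⟨Nat.find hex, Nat.find_spec hex, fun k hk => Nat.find_min hex hk⟩
  have hj0 : j ≠ 0 := by
    intro hj0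
    subst hj0
    omega
  obtain ⟨i, rfl⟩ := Nat.exists_eq_succ_of_ne_zero hj0
  have hi : 11 * (p i) ^ 8 ≤ n := not_lt.mp (hmin i (Nat.lt_succ_self i))
  have hup : n < 2 ^ 20 * (p i) ^ 8 := by
    have h1 : p (i + 1) ≤ 2 ^ (K + (i + 1) + 1) := h.hi (i + 1)
    have h2 : 2 ^ (K + i) < p i := h.lo i
    have h3 : p (i + 1) ≤ 4 * p i := by
      have : 2 ^ (K + (i + 1) + 1) = 4 * 2 ^ (K + i) := by ring
      omega
    have h4 : (p (i + 1)) ^ 8 ≤ (4 * p i) ^ 8 := Nat.pow_le_pow_left h3 8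
    have h5 : (4 * p i) ^ 8 = 65536 * (p i) ^ 8 := by rw [mul_pow]; norm_num
    have h6 : n < 11 * (p (i + 1)) ^ 8 := hj
    have h7 : (2:ℕ) ^ 20 = 1048576 := by norm_num
    rw [h7]
    have h8 : 0 < (p i) ^ 8 := pow_pos (lt_of_le_of_lt (Nat.zero_le _) h2) 8
    omega
  obtain ⟨a, ha, b, hb, hab⟩ := h.cov i n hi hup
  unfold rA
  have hfin : {x : ℕ × ℕ | x.1 ∈ bigA S ∧ x.2 ∈ bigA S ∧ x.1 + x.2 = n}.Finite := by
    refine Set.Finite.subset ((range (n + 1)) ×ˢ (range (n + 1))).finite_toSet ?_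
    rintro ⟨x, y⟩ ⟨_, _, hxy⟩
    simp only [coe_product, coe_range, Set.mem_prod, Set.mem_Iio] at *
    omega
  rw [Nat.one_le_iff_ne_zero, Ne, Set.ncard_eq_zero hfin]
  intro hempty
  have : ((a, b) : ℕ × ℕ) ∈ {x : ℕ × ℕ | x.1 ∈ bigA S ∧ x.2 ∈ bigA S ∧ x.1 + x.2 = n} :=
    ⟨⟨i, ha⟩, ⟨i, hb⟩, hab⟩
  rw [hempty] at this
  exact this

end Pool.Agent.H125R2.ET
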