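import Pool.Agent.H125R2.ET.Defs

/-!
T2: the local quadratic lemma.
-/

namespace Pool.Agent.H125R2.ET

namespace T2

/-- the quotient of two nonsquares is a square -/
theorem isSquare_mul_inv {p : ℕ} [Fact p.Prime] {a d : ZMod p} (ha : ¬ IsSquare a)
    (hd : ¬ IsSquare d) : IsSquare (a * d⁻¹) := by
  have ha0 : a ≠ 0 := by
    rintro rfl
    exact ha (IsSquare.zero)
  have hd0 : d ≠ 0 := by
    rintro rfl
    exact hd (IsSquare.zero)
  have h1 : quadraticChar (ZMod p) a = -1 := quadraticChar_neg_one_iff_not_isSquare.2 ha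
  have h2 : quadraticChar (ZMod p) d = -1 := quadraticChar_neg_one_iff_not_isSquare.2 hd
  have h3 : quadraticChar (ZMod p) (a * d) = 1 := by
    rw [map_mul, h1, h2]
    norm_num
  have h4 : IsSquare (a * d) := (quadraticChar_one_iff_isSquare (mul_ne_zero ha0 hd0)).1 h3
  obtain ⟨r, hr⟩ := h4
  refine ⟨r * d⁻¹, ?_⟩
  calc a * d⁻¹ = (a * d) * (d⁻¹ * d⁻¹) := by field_simp
    _ = _ := by rw [hr]; ring

end T2

/-- T2 -/
theorem local_quad (p : ℕ) [Fact p.Prime] (hp : 7 < p)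
    (hz : ∃ z : ZMod p, ¬ IsSquare (1 - z ^ 2) ∧ z ^ 2 ≠ 4) :
    ∃ k l : ZMod p, k ≠ 0 ∧ l ≠ 0 ∧ k + l ≠ 0 ∧ 1 + k ≠ 0 ∧ 1 + l ≠ 0 ∧
      ∀ m n : ZMod p, (∃ x y : ZMod p, x + y = m ∧ x ^ 2 + y ^ 2 = n) ∨
        (∃ x y : ZMod p, x + y = m ∧ k * x ^ 2 + l * y ^ 2 = n) := by
  obtain ⟨z, hz1, hz2⟩ := hz
  have hd0 : (1 : ZMod p) - z ^ 2 ≠ 0 := by
    intro h
    rw [h] at hz1
    exact hz1 (IsSquare.zero)
  have h1 : (1 : ZMod p) + z ≠ 0 := by
    intro h
    apply hd0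
    linear_combination (1 - z) * h
  have h2 : (1 : ZMod p) - z ≠ 0 := by
    intro h
    apply hd0
    linear_combination (1 + z) * h
  have h20 : (2 : ZMod p) ≠ 0 := by
    intro h
    have h' : ((2 : ℕ) : ZMod p) = 0 := by exact_mod_cast h
    rw [ZMod.natCast_eq_zero_iff] at h'
    have := Nat.le_of_dvd (by norm_num) h'
    omega
  have h3 : (2 : ZMod p) + z ≠ 0 := by
    intro h
    apply hz2
    linear_combination (z - 2) * h
  have h4 : (2 : ZMod p) - z ≠ 0 := by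
    intro h
    apply hz2
    linear_combination (-z - 2) * h
  have hkl : (1 + z)⁻¹ + (1 - z)⁻¹ = 2 * (1 - z ^ 2)⁻¹ := by
    have e : (1 : ZMod p) - z ^ 2 = (1 + z) * (1 - z) := by ring
    rw [e]
    field_simp
    ring
  have hklm : (1 + z)⁻¹ * (1 - z)⁻¹ = (1 - z ^ 2)⁻¹ := by
    have e : (1 : ZMod p) - z ^ 2 = (1 + z) * (1 - z) := by ring
    rw [e, mul_inv]
  have hkl0 : (1 + z)⁻¹ + (1 - z)⁻¹ ≠ 0 := by
    rw [hkl]
    exact mul_ne_zero h20 (inv_ne_zero hd0)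
  refine ⟨(1 + z)⁻¹, (1 - z)⁻¹, inv_ne_zero h1, inv_ne_zero h2, hkl0, ?_, ?_, ?_⟩
  · have e : 1 + (1 + z)⁻¹ = (2 + z) * (1 + z)⁻¹ := by
      field_simp
      ring
    rw [e]
    exact mul_ne_zero h3 (inv_ne_zero h1)
  · have e : 1 + (1 - z)⁻¹ = (2 - z) * (1 - z)⁻¹ := by
      field_simp
      ring
    rw [e]
    exact mul_ne_zero h4 (inv_ne_zero h2)
  · intro m n
    by_cases hs : IsSquare (2 * n - m ^ 2)
    · left
      obtain ⟨w, hw⟩ := hs
      refine ⟨(m + w) / 2, (m - w) / 2, ?_, ?_⟩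
      · field_simp
        ring
      · field_simp
        linear_combination -2 * hw
    · right
      obtain ⟨w, hw⟩ := T2.isSquare_mul_inv hs hz1
      set k : ZMod p := (1 + z)⁻¹ with hk
      set l : ZMod p := (1 - z)⁻¹ with hl
      have key : (k + l) * n - k * l * m ^ 2 = w * w := by
        rw [← hw, hkl, hklm]
        ring
      refine ⟨(l * m + w) / (k + l), (k * m - w) / (k + l), ?_, ?_⟩
      · field_simp
        ring
      · field_simp
        linear_combination (-(k + l)) * key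

end Pool.Agent.H125R2.ET
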