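import Pool.Agent.H125R2.ET.Defs

/-!
# T21 (helper57): counting the representations by the larger block
-/

set_option autoImplicit false

namespace Pool.Agent.H125R2.ET

open Finset

theorem T21_p_le {C K C3 R : ℕ} {p : ℕ → ℕ} {S : ℕ → Finset ℕ} (h : Blocks C K C3 R p S)
    {i j : ℕ} (hij : j ≤ i) : p j ≤ p i := by
  rcases hij.eq_or_lt with rfl | hlt
  · exact le_rfl
  · have h1 := h.hi j
    have h2 := h.lo i
    have h3 : 2 ^ (K + j + 1) ≤ 2 ^ (K + i) := Nat.pow_le_pow_right (by norm_num) (by omega)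
    omega

theorem T21_mem_range {C K C3 R : ℕ} {p : ℕ → ℕ} {S : ℕ → Finset ℕ} (h : Blocks C K C3 R p S)
    {i j n a b : ℕ} (hij : j ≤ i) (ha : a ∈ S i) (hb : b ∈ S j) (hab : a + b = n) :
    i ∈ (range (n + 1)).filter
      (fun i => (p i) ^ 8 ≤ n ∧ n < 2 * ((C + 4) * (p i) ^ 8)) := by
  have h1 := h.ge i a ha
  have h2 := h.lt i a ha
  have h3 := h.lt j b hb
  have h4 : (p j) ^ 8 ≤ (p i) ^ 8 := Nat.pow_le_pow_left (T21_p_le h hij) 8
  have h5 : (C + 4) * (p j) ^ 8 ≤ (C + 4) * (p i) ^ 8 := Nat.mul_le_mul_left _ h4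
  have h6 := h.lo i
  have h7 : i < 2 ^ (K + i) := lt_of_le_of_lt (Nat.le_add_left i K) Nat.lt_two_pow_self
  have h8 : p i ≤ (p i) ^ 8 := Nat.le_self_pow (by norm_num) _
  rw [mem_filter, mem_range]
  exact ⟨by omega, by omega, by omega⟩

/-- T21 -/
theorem blocks_count (C K C3 R : ℕ) (p : ℕ → ℕ) (S : ℕ → Finset ℕ) (h : Blocks C K C3 R p S)
    (n : ℕ) :
    rA (bigA S) n ≤ ∑ i ∈ (range (n + 1)).filter
      (fun i => (p i) ^ 8 ≤ n ∧ n < 2 * ((C + 4) * (p i) ^ 8)),
        (repF (S i) (S i) n + 2 * (S i ∩ refl n ((range i).biUnion S)).card) := by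
  classical
  set I := (range (n + 1)).filter
      (fun i => (p i) ^ 8 ≤ n ∧ n < 2 * ((C + 4) * (p i) ^ 8)) with hI
  set T1 : ℕ → Finset (ℕ × ℕ) := fun i => (S i ×ˢ S i).filter (fun x => x.1 + x.2 = n) with hT1
  set L : ℕ → Finset ℕ := fun i => S i ∩ refl n ((range i).biUnion S) with hL
  set T2 : ℕ → Finset (ℕ × ℕ) := fun i => (L i).image (fun b => (n - b, b)) with hT2
  set T3 : ℕ → Finset (ℕ × ℕ) := fun i => (L i).image (fun a => (a, n - a)) with hT3
  have hsub : {x : ℕ × ℕ | x.1 ∈ bigA S ∧ x.2 ∈ bigA S ∧ x.1 + x.2 = n} ⊆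
      ((I.biUnion fun i => T1 i ∪ (T2 i ∪ T3 i) : Finset (ℕ × ℕ)) : Set (ℕ × ℕ)) := by
    rintro ⟨a, b⟩ ⟨⟨ia, ha⟩, ⟨ib, hb⟩, hab⟩
    simp only at ha hb hab
    rw [mem_coe, mem_biUnion]
    have hlow : ∀ {i j c d : ℕ}, i < j → c ∈ S i → d ∈ S j → c + d = n → d ∈ L j := by
      intro i j c d hij hc hd hcd
      simp only [hL]
      rw [mem_inter, mem_refl]
      refine ⟨hd, by omega, ?_⟩
      rw [mem_biUnion]
      refine ⟨i, mem_range.mpr hij, ?_⟩
      have : n - d = c := by omega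
      rw [this]
      exact hc
    rcases lt_trichotomy ia ib with hlt | heq | hgt
    · refine ⟨ib, T21_mem_range h hlt.le hb ha (by omega), ?_⟩
      refine mem_union_right _ (mem_union_left _ ?_)
      simp only [hT2]
      rw [mem_image]
      refine ⟨b, hlow hlt ha hb hab, ?_⟩
      rw [Prod.mk.injEq]
      exact ⟨by omega, rfl⟩
    · subst heq
      refine ⟨ia, T21_mem_range h le_rfl ha hb hab, ?_⟩
      refine mem_union_left _ ?_
      simp only [hT1]
      rw [mem_filter, mem_product]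
      exact ⟨⟨ha, hb⟩, hab⟩
    · refine ⟨ia, T21_mem_range h hgt.le ha hb hab, ?_⟩
      refine mem_union_right _ (mem_union_right _ ?_)
      simp only [hT3]
      rw [mem_image]
      refine ⟨a, hlow hgt hb ha (by omega), ?_⟩
      rw [Prod.mk.injEq]
      exact ⟨rfl, by omega⟩
  calc rA (bigA S) n
      ≤ ((I.biUnion fun i => T1 i ∪ (T2 i ∪ T3 i) : Finset (ℕ × ℕ)) : Set (ℕ × ℕ)).ncard :=
        Set.ncard_le_ncard hsub (Finset.finite_toSet _)
    _ = (I.biUnion fun i => T1 i ∪ (T2 i ∪ T3 i)).card := Set.ncard_coe_finset _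
    _ ≤ ∑ i ∈ I, (T1 i ∪ (T2 i ∪ T3 i)).card := card_biUnion_le
    _ ≤ ∑ i ∈ I, (repF (S i) (S i) n + 2 * (L i).card) := by
        refine Finset.sum_le_sum fun i _ => ?_
        have h1 := card_union_le (T1 i) (T2 i ∪ T3 i)
        have h2 := card_union_le (T2 i) (T3 i)
        have h3 : (T2 i).card ≤ (L i).card := card_image_le
        have h4 : (T3 i).card ≤ (L i).card := card_image_le
        have h5 : (T1 i).card = repF (S i) (S i) n := rfl
        omega

end Pool.Agent.H125R2.ET
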