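import Pool.Agent.H125R2.ET.Defs

/-!
# The final asymptotic bound (task T22)
-/

set_option autoImplicit false

namespace Pool.Agent.H125R2.ET

open Finset

namespace T22

lemma one_lt_log {n : ℕ} (hn : 3 ≤ n) : 1 < Real.log n := by
  rw [Real.lt_log_iff_exp_lt (by positivity)]
  have h1 := Real.exp_one_lt_d9
  have h2 : (3 : ℝ) ≤ n := by exact_mod_cast hn
  linarith

lemma one_le_ratio {L : ℝ} (hL : 1 < L) : 1 ≤ L / Real.log L := by
  have h1 : 0 < Real.log L := Real.log_pos hL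
  rw [one_le_div h1]
  have := Real.log_le_sub_one_of_pos (show (0 : ℝ) < L by linarith)
  linarith

lemma ratio_mono {m L : ℝ} (hm : 3 ≤ m) (hmL : m ≤ L) : m / Real.log m ≤ L / Real.log L := by
  have he : Real.exp 1 ≤ 3 := by
    have := Real.exp_one_lt_d9
    linarith
  have h := Real.log_div_self_antitoneOn (show m ∈ {x | Real.exp 1 ≤ x} from he.trans hm)
    (show L ∈ {x | Real.exp 1 ≤ x} from he.trans (hm.trans hmL)) hmL
  have h1 : 0 < Real.log m := Real.log_pos (by linarith)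
  have h2 : 0 < Real.log L := Real.log_pos (by linarith)
  have h3 : Real.log L / L ≤ Real.log m / m := h
  rw [div_le_div_iff₀ (by linarith) (by linarith)] at h3
  rw [div_le_div_iff₀ h1 h2]
  linarith

end T22

/-- T22 (uses T21) -/
theorem blocks_upper (C K C3 R : ℕ) (hK : 3 ≤ K) (p : ℕ → ℕ) (S : ℕ → Finset ℕ)
    (h : Blocks C K C3 R p S)
    (hc : ∀ n, rA (bigA S) n ≤ ∑ i ∈ (range (n + 1)).filter
      (fun i => (p i) ^ 8 ≤ n ∧ n < 2 * ((C + 4) * (p i) ^ 8)),
        (repF (S i) (S i) n + 2 * (S i ∩ refl n ((range i).biUnion S)).card)) :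
    ∃ B : ℝ, 0 < B ∧ ∀ n : ℕ, 3 ≤ n →
      (rA (bigA S) n : ℝ) ≤ B * (Real.log n / Real.log (Real.log n)) := by
  set M : ℕ := 512 * (C + 4) with hM
  refine ⟨M * (R + 2 * C3) + 1, by positivity, fun n hn => ?_⟩
  set I := (range (n + 1)).filter (fun i => (p i) ^ 8 ≤ n ∧ n < 2 * ((C + 4) * (p i) ^ 8)) with hI
  have hL := T22.one_lt_log hn
  have hq := T22.one_le_ratio hL
  set Q : ℝ := Real.log n / Real.log (Real.log n) with hQ
  -- the sandwich
  have hlo : ∀ i ∈ I, 2 ^ (8 * (K + i)) < n := by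
    intro i hi
    have h1 := (mem_filter.1 hi).2.1
    refine lt_of_lt_of_le ?_ h1
    rw [mul_comm 8, pow_mul]
    exact Nat.pow_lt_pow_left (h.lo i) (by norm_num)
  have hhi : ∀ i ∈ I, n < M * 2 ^ (8 * (K + i)) := by
    intro i hi
    have h1 := (mem_filter.1 hi).2.2
    refine lt_of_lt_of_le h1 ?_
    have h2 : (p i) ^ 8 ≤ 2 ^ (8 * (K + i)) * 256 := by
      calc (p i) ^ 8 ≤ (2 ^ (K + i + 1)) ^ 8 := Nat.pow_le_pow_left (h.hi i) 8
        _ = 2 ^ (8 * (K + i)) * 256 := by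
          rw [← pow_mul, show (K + i + 1) * 8 = 8 * (K + i) + 8 by ring, pow_add]
          norm_num
    calc 2 * ((C + 4) * (p i) ^ 8) ≤ 2 * ((C + 4) * (2 ^ (8 * (K + i)) * 256)) := by gcongr
      _ = M * 2 ^ (8 * (K + i)) := by rw [hM]; ring
  -- few indices
  have hcard : I.card ≤ M := by
    rcases I.eq_empty_or_nonempty with h0 | hne
    · rw [h0]; simp
    · set i0 := I.min' hne with hi0
      have hi0I : i0 ∈ I := Finset.min'_mem I hne
      have hsub : I ⊆ Finset.Ico i0 (i0 + M) := by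
        intro j hj
        have hij : i0 ≤ j := Finset.min'_le I j hj
        rw [Finset.mem_Ico]
        refine ⟨hij, ?_⟩
        by_contra hcon
        push Not at hcon
        have h1 := hlo j hj
        have h2 := hhi i0 hi0I
        have h3 : M * 2 ^ (8 * (K + i0)) ≤ 2 ^ (8 * (K + j)) := by
          calc M * 2 ^ (8 * (K + i0)) ≤ 2 ^ M * 2 ^ (8 * (K + i0)) :=
                Nat.mul_le_mul_right _ Nat.lt_two_pow_self.le
            _ = 2 ^ (M + 8 * (K + i0)) := by rw [pow_add]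
            _ ≤ 2 ^ (8 * (K + j)) := Nat.pow_le_pow_right (by norm_num) (by omega)
        omega
      calc I.card ≤ (Finset.Ico i0 (i0 + M)).card := Finset.card_le_card hsub
        _ = M := by simp
  -- each term
  have hterm : ∀ i ∈ I, ((repF (S i) (S i) n + 2 * (S i ∩ refl n ((range i).biUnion S)).card : ℕ) : ℝ)
      ≤ (R + 2 * C3) * Q := by
    intro i hi
    have h1 : (repF (S i) (S i) n : ℝ) ≤ R := by exact_mod_cast h.rep i n
    have h2 := h.cross i n
    have h3 : (3 : ℝ) ≤ ((K + i : ℕ) : ℝ) := by exact_mod_cast (show 3 ≤ K + i by omega)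
    have h4 : ((K + i : ℕ) : ℝ) ≤ Real.log n := by
      have h5 : ((2 ^ (8 * (K + i)) : ℕ) : ℝ) ≤ n := by exact_mod_cast (hlo i hi).le
      have h6 : Real.log ((2 ^ (8 * (K + i)) : ℕ) : ℝ) ≤ Real.log n :=
        Real.log_le_log (by positivity) h5
      rw [Nat.cast_pow, Real.log_pow, Nat.cast_ofNat] at h6
      have h7 := Real.log_two_gt_d9
      have h8 : ((8 * (K + i) : ℕ) : ℝ) = 8 * ((K + i : ℕ) : ℝ) := by push_cast; ring
      rw [h8] at h6
      have h9 : ((K + i : ℕ) : ℝ) * 1 ≤ ((K + i : ℕ) : ℝ) * (8 * Real.log 2) :=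
        mul_le_mul_of_nonneg_left (by linarith) (by linarith)
      have h10 : 8 * ((K + i : ℕ) : ℝ) * Real.log 2 = ((K + i : ℕ) : ℝ) * (8 * Real.log 2) := by
        ring
      linarith
    have h5 := T22.ratio_mono h3 h4
    have h6 : ((S i ∩ refl n ((range i).biUnion S)).card : ℝ) ≤ C3 * Q := by
      refine h2.trans ?_
      rw [mul_div_assoc]
      exact mul_le_mul_of_nonneg_left h5 (Nat.cast_nonneg C3)
    push_cast
    have h7 : (R : ℝ) ≤ R * Q := le_mul_of_one_le_right (Nat.cast_nonneg R) hq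
    linarith
  calc (rA (bigA S) n : ℝ) ≤ ((∑ i ∈ I, (repF (S i) (S i) n +
        2 * (S i ∩ refl n ((range i).biUnion S)).card) : ℕ) : ℝ) := by exact_mod_cast hc n
    _ = ∑ i ∈ I, ((repF (S i) (S i) n +
        2 * (S i ∩ refl n ((range i).biUnion S)).card : ℕ) : ℝ) := by rw [Nat.cast_sum]
    _ ≤ ∑ _i ∈ I, ((R + 2 * C3) * Q : ℝ) := Finset.sum_le_sum hterm
    _ = I.card * ((R + 2 * C3) * Q) := by rw [Finset.sum_const, nsmul_eq_mul]
    _ ≤ M * ((R + 2 * C3) * Q) := by
        have : (I.card : ℝ) ≤ M := by exact_mod_cast hcard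
        refine mul_le_mul_of_nonneg_right this (mul_nonneg ?_ (zero_le_one.trans hq))
        exact add_nonneg (Nat.cast_nonneg R) (mul_nonneg zero_le_two (Nat.cast_nonneg C3))
    _ ≤ (M * (R + 2 * C3) + 1) * Q := by
        have e : ((M : ℝ) * (R + 2 * C3) + 1) * Q = M * ((R + 2 * C3) * Q) + Q := by ring
        rw [e]
        linarith

end Pool.Agent.H125R2.ET
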