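import Pool.Agent.H125R2.ET.Defs2
import Pool.Agent.H125R2.ET.T15

/-!
# T23: Poisson-like tail of the number of hits
-/

set_option autoImplicit false

namespace Pool.Agent.H125R2.ET

open Finset

namespace T23

theorem Pr_lt_le (X : RFS) {f : X.Ω → ℝ} (hf : ∀ ω, 0 ≤ f ω) {T : ℝ} (hT : 0 < T) :
    X.Pr (fun ω => T < f ω) ≤ T⁻¹ * X.E f := by
  unfold RFS.Pr
  rw [← E_mul_left]
  refine E_mono X (fun ω => ?_)
  by_cases h : T < f ω
  · rw [ind_true h]
    rw [inv_mul_eq_div, le_div_iff₀ hT]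
    linarith
  · rw [ind_false h]
    exact mul_nonneg (by positivity) (hf ω)

theorem tailCount_eq (S Y : Finset ℕ) (N m : ℕ) :
    (tailCount S Y N m : ℝ) = ∑ n ∈ range N, ind ((m : ℝ) ≤ ((S ∩ refl n Y).card : ℝ)) := by
  unfold tailCount
  rw [Finset.card_filter]
  push_cast
  refine Finset.sum_congr rfl (fun n _ => ?_)
  by_cases h : m ≤ (S ∩ refl n Y).card
  · rw [if_pos h, ind_true (by exact_mod_cast h)]
  · rw [if_neg h, ind_false (by exact_mod_cast h)]

theorem sum_half (k : ℕ) : ∑ m ∈ Finset.Icc 1 k, (1 / 2 : ℝ) ^ m ≤ 1 := by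
  have h : ∑ m ∈ Finset.Icc 1 k, (1 / 2 : ℝ) ^ m = 1 - (1 / 2) ^ k := by
    induction k with
    | zero => simp
    | succ k ih =>
      rw [Finset.sum_Icc_succ_top (by omega), ih]
      ring
  rw [h]
  have : (0 : ℝ) ≤ (1 / 2) ^ k := by positivity
  linarith

end T23

open T23 in
/-- T23 -/
theorem tail_prob (C : ℕ) (hM : BlockMom C) (hR : BlockRange C) : TailProb C := by
  intro g C2
  obtain ⟨K, hK, hM⟩ := hM
  have hlim := tendsto_pow_const_div_const_pow_of_one_lt 3 (r := (2 : ℝ)) (by norm_num)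
  have hev : ∀ᶠ k : ℕ in Filter.atTop, (k : ℝ) ^ 3 / 2 ^ k < 1 / (K * C2 + 1) := by
    apply (tendsto_order.1 hlim).2
    positivity
  obtain ⟨k1, hk1⟩ := Filter.eventually_atTop.1 hev
  have hg1 : (0 : ℝ) < ((g + 1 : ℕ) : ℝ) := by exact_mod_cast Nat.succ_pos g
  obtain ⟨c, hc⟩ : ∃ c : ℝ, c = 1 / ((g + 1 : ℕ) : ℝ) := ⟨_, rfl⟩
  obtain ⟨B, hB⟩ : ∃ B : ℝ, B = K * C2 + Real.log (8 * (C + 4)) + 2 := ⟨_, rfl⟩
  refine ⟨B, c, by rw [hc]; positivity, k1, ?_⟩
  intro k hkk1 p hp D hp1 hp2 hD Y hY h6 h4 h2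
  have hpr : (0 : ℝ) < (p : ℝ) := by exact_mod_cast hp
  obtain ⟨N, hN⟩ : ∃ N : ℕ, N = 2 * ((C + 4) * p ^ 8) := ⟨_, rfl⟩
  rw [← hN]
  -- one value of n and m
  have hone : ∀ n m : ℕ, 1 ≤ m → m ≤ k →
      (block p hp D).Pr (fun ω => (m : ℝ) ≤ ((((block p hp D).S ω) ∩ refl n Y).card : ℝ)) ≤
      Real.exp (K * C2 * m - c * m * Real.log m) := by
    intro n m hm1 hmk
    have hmr : (1 : ℝ) ≤ m := by exact_mod_cast hm1
    have hmkr : (m : ℝ) ≤ k := by exact_mod_cast hmk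
    have hlogm : 0 ≤ Real.log m := Real.log_nonneg hmr
    obtain ⟨lam, hlam⟩ : ∃ lam : ℝ, lam = Real.log m / ((g + 1 : ℕ) : ℝ) := ⟨_, rfl⟩
    have hlam0 : 0 ≤ lam := by rw [hlam]; positivity
    have hexp : Real.exp (lam * ((g + 1 : ℕ) : ℝ)) = m := by
      rw [hlam, div_mul_cancel₀ _ hg1.ne', Real.exp_log (by linarith)]
    have hmom := hM p hp D hD lam hlam0 (g + 1) (C2 * k ^ 2) (C2 * p ^ 2) (refl n Y)
      (T15_cls_mono (T15_cls_refl h6 n) (Nat.le_succ g)) (T15_cls_refl h4 n)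
      (T15_cls_refl h2 n) (by
        rw [hexp]
        push_cast
        have b1 := hk1 k hkk1
        have b2 : (0 : ℝ) < 2 ^ k := by positivity
        have b3 : (0 : ℝ) < K * C2 + 1 := by positivity
        rw [div_lt_div_iff₀ b2 b3] at b1
        have b4 : (2 : ℝ) ^ k ≤ p := by exact_mod_cast hp1.le
        have b5 : (0 : ℝ) ≤ (k : ℝ) ^ 3 := by positivity
        calc K * (m : ℝ) * ((C2 : ℝ) * (k : ℝ) ^ 2) ≤ K * (k : ℝ) * ((C2 : ℝ) * (k : ℝ) ^ 2) := by
              gcongr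
          _ = (k : ℝ) ^ 3 * (K * C2) := by ring
          _ ≤ (k : ℝ) ^ 3 * (K * C2 + 1) := by nlinarith
          _ ≤ 1 * 2 ^ k := b1.le
          _ = 2 ^ k := one_mul _
          _ ≤ p := b4)
    refine le_trans (Pr_hits_le (block p hp D) hlam0 (refl n Y) (m : ℝ)) ?_
    have e1 : K * Real.exp (lam * ((g + 1 : ℕ) : ℝ)) * ((C2 * p ^ 2 : ℕ) : ℝ) / (p : ℝ) ^ 2 =
        K * C2 * m := by
      rw [hexp]
      push_cast
      field_simp
    rw [e1] at hmom
    calc Real.exp (-(lam * m)) * (block p hp D).mom lam (refl n Y)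
        ≤ Real.exp (-(lam * m)) * Real.exp (K * C2 * m) :=
          mul_le_mul_of_nonneg_left hmom (Real.exp_pos _).le
      _ = Real.exp (K * C2 * m - c * m * Real.log m) := by
          rw [← Real.exp_add]
          congr 1
          rw [hlam, hc]
          ring
  -- the expectation of the count
  have hE : ∀ m : ℕ, 1 ≤ m → m ≤ k →
      (block p hp D).E (fun ω => (tailCount ((block p hp D).S ω) Y N m : ℝ)) ≤
        N * Real.exp (K * C2 * m - c * m * Real.log m) := by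
    intro m hm1 hmk
    have : (fun ω => (tailCount ((block p hp D).S ω) Y N m : ℝ)) =
        fun ω => ∑ n ∈ range N, ind ((m : ℝ) ≤ ((((block p hp D).S ω) ∩ refl n Y).card : ℝ)) := by
      funext ω
      exact tailCount_eq _ _ _ _
    rw [this, E_sum]
    calc ∑ n ∈ range N, (block p hp D).E
          (fun ω => ind ((m : ℝ) ≤ ((((block p hp D).S ω) ∩ refl n Y).card : ℝ)))
        ≤ ∑ n ∈ range N, Real.exp (K * C2 * m - c * m * Real.log m) :=
          Finset.sum_le_sum (fun n _ => hone n m hm1 hmk)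
      _ = N * Real.exp (K * C2 * m - c * m * Real.log m) := by
          rw [Finset.sum_const, card_range, nsmul_eq_mul]
  -- Markov for one m
  have hMk : ∀ m : ℕ, 1 ≤ m → m ≤ k →
      (block p hp D).Pr (fun ω => (p : ℝ) ^ 8 * Real.exp (B * m - c * m * Real.log m) <
        (tailCount ((block p hp D).S ω) Y N m : ℝ)) ≤ (1 / 4) * (1 / 2) ^ m := by
    intro m hm1 hmk
    have hmr : (1 : ℝ) ≤ m := by exact_mod_cast hm1
    have hT : 0 < (p : ℝ) ^ 8 * Real.exp (B * m - c * m * Real.log m) := by positivity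
    refine le_trans (Pr_lt_le _ (fun ω => Nat.cast_nonneg _) hT) ?_
    refine le_trans (mul_le_mul_of_nonneg_left (hE m hm1 hmk) (by positivity)) ?_
    rw [inv_mul_eq_div, div_le_iff₀ hT]
    have hNr : (N : ℝ) = 2 * ((C + 4) * p ^ 8) := by rw [hN]; push_cast; ring
    have e1 : Real.exp (B * m - c * m * Real.log m) =
        Real.exp ((Real.log (8 * (C + 4)) + 2) * m) *
          Real.exp (K * C2 * m - c * m * Real.log m) := by
      rw [← Real.exp_add, hB]
      congr 1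
      ring
    have hCpos : (0 : ℝ) < 8 * (C + 4) := by positivity
    have hC1 : (1 : ℝ) ≤ 8 * (C + 4) := by
      have : (0 : ℝ) ≤ C := Nat.cast_nonneg C
      linarith
    have e2 : 8 * (C + 4) * (2 : ℝ) ^ m ≤ Real.exp ((Real.log (8 * (C + 4)) + 2) * m) := by
      have f1 : (Real.log (8 * (C + 4)) + 2) * m = Real.log (8 * (C + 4)) * m + 2 * m := by ring
      rw [f1, Real.exp_add]
      have f2 : 8 * ((C : ℝ) + 4) ≤ Real.exp (Real.log (8 * (C + 4)) * m) := by
        calc 8 * ((C : ℝ) + 4) = Real.exp (Real.log (8 * (C + 4))) := (Real.exp_log hCpos).symm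
          _ ≤ Real.exp (Real.log (8 * (C + 4)) * m) := by
            rw [Real.exp_le_exp]
            have : 0 ≤ Real.log (8 * ((C : ℝ) + 4)) := Real.log_nonneg hC1
            nlinarith
      have f3 : (2 : ℝ) ^ m ≤ Real.exp (2 * m) := by
        have f4 : (2 : ℝ) ≤ Real.exp 1 := by
          have := Real.add_one_le_exp (1 : ℝ)
          linarith
        calc (2 : ℝ) ^ m ≤ (Real.exp 1) ^ m := pow_le_pow_left₀ (by norm_num) f4 _
          _ = Real.exp (m * 1) := by rw [← Real.exp_nat_mul]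
          _ ≤ Real.exp (2 * m) := by rw [Real.exp_le_exp]; linarith
      exact mul_le_mul f2 f3 (by positivity) (by positivity)
    rw [hNr, e1]
    have hp8 : (0 : ℝ) < (p : ℝ) ^ 8 := by positivity
    have hex := Real.exp_pos (K * C2 * m - c * m * Real.log m)
    have h2m : (1 / 2 : ℝ) ^ m * 2 ^ m = 1 := by
      rw [← mul_pow]; norm_num
    have hhalf : (0 : ℝ) < (1 / 2 : ℝ) ^ m := by positivity
    have key : 2 * ((C : ℝ) + 4) ≤
        1 / 4 * (1 / 2) ^ m * Real.exp ((Real.log (8 * (C + 4)) + 2) * m) := by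
      calc 2 * ((C : ℝ) + 4) = 1 / 4 * (1 / 2) ^ m * (8 * (C + 4) * (2 : ℝ) ^ m) := by
            calc 2 * ((C : ℝ) + 4) = 2 * (C + 4) * ((1 / 2 : ℝ) ^ m * 2 ^ m) := by rw [h2m]; ring
              _ = 1 / 4 * (1 / 2) ^ m * (8 * (C + 4) * (2 : ℝ) ^ m) := by ring
        _ ≤ _ := mul_le_mul_of_nonneg_left e2 (by positivity)
    calc 2 * (((C : ℝ) + 4) * (p : ℝ) ^ 8) * Real.exp (K * C2 * m - c * m * Real.log m)
        = 2 * ((C : ℝ) + 4) * ((p : ℝ) ^ 8 * Real.exp (K * C2 * m - c * m * Real.log m)) := by ring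
      _ ≤ (1 / 4 * (1 / 2) ^ m * Real.exp ((Real.log (8 * (C + 4)) + 2) * m)) *
          ((p : ℝ) ^ 8 * Real.exp (K * C2 * m - c * m * Real.log m)) :=
          mul_le_mul_of_nonneg_right key (by positivity)
      _ = 1 / 4 * (1 / 2) ^ m * ((p : ℝ) ^ 8 * (Real.exp ((Real.log (8 * (C + 4)) + 2) * m) *
          Real.exp (K * C2 * m - c * m * Real.log m))) := by ring
  -- union bound
  calc (block p hp D).Pr (fun ω => ¬ ∀ m : ℕ, 1 ≤ m → m ≤ k →
      (tailCount ((block p hp D).S ω) Y N m : ℝ) ≤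
        (p : ℝ) ^ 8 * Real.exp (B * m - c * m * Real.log m))
      ≤ (block p hp D).Pr (fun ω => ∃ m ∈ Finset.Icc 1 k,
          (p : ℝ) ^ 8 * Real.exp (B * m - c * m * Real.log m) <
            (tailCount ((block p hp D).S ω) Y N m : ℝ)) := by
        apply Pr_mono
        intro ω hω
        push Not at hω
        obtain ⟨m, hm1, hmk, hm⟩ := hω
        exact ⟨m, Finset.mem_Icc.mpr ⟨hm1, hmk⟩, hm⟩
    _ ≤ ∑ m ∈ Finset.Icc 1 k, (block p hp D).Pr (fun ω =>
          (p : ℝ) ^ 8 * Real.exp (B * m - c * m * Real.log m) <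
            (tailCount ((block p hp D).S ω) Y N m : ℝ)) := Pr_exists_le _ _ _
    _ ≤ ∑ m ∈ Finset.Icc 1 k, (1 / 4 : ℝ) * (1 / 2) ^ m :=
        Finset.sum_le_sum (fun m hm => hMk m (Finset.mem_Icc.mp hm).1 (Finset.mem_Icc.mp hm).2)
    _ = 1 / 4 * ∑ m ∈ Finset.Icc 1 k, (1 / 2 : ℝ) ^ m := by rw [Finset.mul_sum]
    _ ≤ 1 / 4 * 1 := mul_le_mul_of_nonneg_left (sum_half k) (by norm_num)
    _ = 1 / 4 := by ring

end Pool.Agent.H125R2.ET
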