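import Pool.Agent.H125R2.ET.Defs

/-!
# T18: the good sequence (instantiation of `exists_good`)
-/

set_option autoImplicit false

namespace Pool.Agent.H125R2.ET

open Finset

namespace T18

/-- the good event, defined recursively -/
def GG (X : ℕ → RFS) (F : ∀ i, (pre X i).Ω → (X i).Ω → Prop) (Sp : ∀ i, (pre X i).Ω → Prop) :
    ∀ i, (pre X i).Ω → Prop
  | 0 => fun x => Sp 0 x
  | (i + 1) => fun (x : (pre X i).Ω × (X i).Ω) =>
      GG X F Sp i x.1 ∧ F i x.1 x.2 ∧ Sp (i + 1) x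

theorem pt_congr (X : ℕ → RFS) (ω ω' : ∀ i, (X i).Ω) (i : ℕ) (h : ∀ j < i, ω j = ω' j) :
    pt X ω i = pt X ω' i := by
  induction i with
  | zero => rfl
  | succ i ih =>
    show (pt X ω i, ω i) = (pt X ω' i, ω' i)
    rw [ih (fun j hj => h j (by omega)), h i (by omega)]

/-- every point of a finite product comes from a sequence -/
theorem pt_surj (X : ℕ → RFS) (i : ℕ) : ∀ x : (pre X i).Ω, ∃ ω : ∀ i, (X i).Ω, pt X ω i = x := by
  induction i with
  | zero =>
    intro x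
    exact ⟨fun j => Classical.choice (X j).ne, rfl⟩
  | succ i ih =>
    rintro ⟨x, w⟩
    obtain ⟨ω, hω⟩ := ih x
    refine ⟨Function.update ω i w, ?_⟩
    show (pt X (Function.update ω i w) i, Function.update ω i w i) = (x, w)
    rw [Function.update_self, pt_congr X (Function.update ω i w) ω i
      (fun j hj => Function.update_of_ne (by omega) _ _), hω]

theorem S_pt (X : ℕ → RFS) (ω : ∀ i, (X i).Ω) (i : ℕ) :
    (pre X i).S (pt X ω i) = (range i).biUnion (fun j => (X j).S (ω j)) := by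
  induction i with
  | zero => rfl
  | succ i ih =>
    show (pre X i).S (pt X ω i) ∪ (X i).S (ω i) = _
    rw [ih, Finset.range_add_one, Finset.biUnion_insert, Finset.union_comm]

theorem GG_pt (X : ℕ → RFS) (F : ∀ i, (pre X i).Ω → (X i).Ω → Prop)
    (Sp : ∀ i, (pre X i).Ω → Prop) (ω : ∀ i, (X i).Ω) (i : ℕ)
    (h : GG X F Sp i (pt X ω i)) : (∀ j < i, F j (pt X ω j) (ω j)) ∧ Sp i (pt X ω i) := by
  induction i with
  | zero => exact ⟨fun j hj => absurd hj (Nat.not_lt_zero j), h⟩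
  | succ i ih =>
    obtain ⟨h1, h2, h3⟩ : GG X F Sp i (pt X ω i) ∧ F i (pt X ω i) (ω i) ∧
      Sp (i + 1) (pt X ω (i + 1)) := h
    refine ⟨fun j hj => ?_, h3⟩
    rcases Nat.lt_succ_iff_lt_or_eq.1 hj with hj | rfl
    · exact (ih h1).1 j hj
    · exact h2

/-- the statement of `exists_good` -/
def ExistsGood : Prop :=
  ∀ (X : ℕ → RFS) (G : ∀ i, (pre X i).Ω → Prop)
    (F : ∀ i, (pre X i).Ω → (X i).Ω → Prop) (Sp : ∀ i, (pre X i).Ω → Prop)
    (_ : ∀ x : (pre X 0).Ω, Sp 0 x → G 0 x)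
    (_ : ∀ i (x : (pre X i).Ω) (w : (X i).Ω), G (i + 1) (x, w) ↔
      (G i x ∧ F i x w ∧ Sp (i + 1) (x, w)))
    (_ : ∀ i (x : (pre X i).Ω), G i x → (X i).Pr (fun w => ¬ F i x w) ≤ 1 / 2)
    (_ : ∀ i, (pre X i).Pr (fun x => ¬ Sp i x) ≤ 1 / (2 * 4 ^ i)),
    ∃ ω : ∀ i, (X i).Ω, ∀ i, G i (pt X ω i)

/-- T18 with `exists_good` as a hypothesis -/
theorem good_seq_of (hEG : ExistsGood) (C : ℕ) (h0 : BlockRange C) (h1 : RegProb C)
    (h2 : SprProb C) (h3 : FinProb C) (h4 : LowClass C) : GoodSeq C := by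
  obtain ⟨C1, k1, hReg⟩ := h1
  obtain ⟨g, K1, hSpr⟩ := h2
  obtain ⟨C2, hLow⟩ := h4 C1
  obtain ⟨C3, k3, hFin⟩ := h3 g C2
  refine ⟨C3, k1 + K1 + k3 + C + 8, ?_⟩
  intro K hK s
  have hlow8 : ∀ i, K + i < s.p i := fun i =>
    lt_trans Nat.lt_two_pow_self (s.lo i)
  -- the events
  set F : ∀ i, (pre s.X i).Ω → (s.X i).Ω → Prop := fun i x w =>
    Reg C1 (s.p i) (K + i) ((s.X i).S w) ∧
      ∀ n, ((((s.X i).S w) ∩ refl n ((pre s.X i).S x)).card : ℝ) ≤
        C3 * ((K + i : ℕ) : ℝ) / Real.log ((K + i : ℕ) : ℝ) with hFdef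
  set Sp : ∀ i, (pre s.X i).Ω → Prop := fun i x =>
    ClsLE ((s.p i) ^ 6) ((pre s.X i).S x) g with hSpdef
  obtain ⟨ω, hω⟩ := hEG s.X (GG s.X F Sp) F Sp (fun x hx => hx) (fun i x w => Iff.rfl)
    (by
      intro i x hx
      obtain ⟨ω, rfl⟩ := pt_surj s.X i x
      obtain ⟨hF, hS⟩ := GG_pt s.X F Sp ω i hx
      have hSpt := S_pt s.X ω i
      have hlc := hLow K i s.p (fun j => (s.X j).S (ω j)) (by omega) s.prime s.lo s.hi
        (fun j hj y hy => ((h0 (s.p j) (s.prime j).pos (by have := hlow8 j; omega)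
          (by have := hlow8 j; omega) (s.D j) (s.base j) (ω j)).1 y hy).2)
        (fun j hj => (hF j hj).1)
      rw [← hSpt] at hlc
      have hY : ∀ y ∈ (pre s.X i).S (pt s.X ω i), y < (C + 4) * (s.p i) ^ 8 := by
        intro y hy
        rw [hSpt, Finset.mem_biUnion] at hy
        obtain ⟨j, hj, hy⟩ := hy
        have hji : j < i := Finset.mem_range.1 hj
        have h5 := ((h0 (s.p j) (s.prime j).pos (by have := hlow8 j; omega)
          (by have := hlow8 j; omega) (s.D j) (s.base j) (ω j)).1 y hy).2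
        have h6 : s.p j ≤ s.p i := by
          have h7 : 2 ^ (K + j + 1) ≤ 2 ^ (K + i) := Nat.pow_le_pow_right (by norm_num) (by omega)
          exact (s.hi j).trans (h7.trans (s.lo i).le)
        exact lt_of_lt_of_le h5 (Nat.mul_le_mul le_rfl (Nat.pow_le_pow_left h6 8))
      have hfin := hFin (K + i) (by omega) (s.p i) (s.prime i).pos (s.D i) (s.lo i) (s.hi i)
        (s.base i) ((pre s.X i).S (pt s.X ω i)) hY hS hlc.1 hlc.2
      have hreg := hReg (K + i) (by omega) (s.p i) (s.prime i).pos (s.D i) (s.prime i) (s.lo i)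
        (s.hi i) (s.base i)
      have hle : (s.X i).Pr (fun w => ¬ F i (pt s.X ω i) w) ≤
          (s.X i).Pr (fun w => ¬ Reg C1 (s.p i) (K + i) ((s.X i).S w) ∨
            ¬ ∀ n, ((((s.X i).S w) ∩ refl n ((pre s.X i).S (pt s.X ω i))).card : ℝ) ≤
              C3 * ((K + i : ℕ) : ℝ) / Real.log ((K + i : ℕ) : ℝ)) :=
        Pr_mono _ (fun w hw => not_and_or.1 hw)
      refine hle.trans ((Pr_or_le _ _ _).trans ((add_le_add hreg hfin).trans ?_))
      have h8 : (2 : ℝ) ^ 3 ≤ 2 ^ (K + i + 3) := pow_le_pow_right₀ (by norm_num) (by omega)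
      have h9 : (1 : ℝ) / 2 ^ (K + i + 3) ≤ 1 / 2 ^ 3 :=
        one_div_le_one_div_of_le (by norm_num) h8
      norm_num at h9 ⊢
      linarith)
    (by
      intro i
      refine (hSpr K (by omega) s i).trans ?_
      refine one_div_le_one_div_of_le (by positivity) ?_
      have h5 : (2 : ℝ) * 4 ^ i = 2 ^ (2 * i + 1) := by
        rw [pow_succ, pow_mul]
        norm_num
        ring
      rw [h5]
      exact pow_le_pow_right₀ (by norm_num) (by omega))
  refine ⟨ω, fun i n => ?_⟩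
  have h5 := ((GG_pt s.X F Sp ω (i + 1) (hω (i + 1))).1 i (Nat.lt_succ_self i)).2 n
  rw [S_pt] at h5
  exact h5

end T18

end Pool.Agent.H125R2.ET
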