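import Pool.Agent.H125R2.ET.Defs2
import Pool.Agent.H125R2.ET.T18

/-!
# T24: the good sequence with the tail property (adapted from T18)
-/

set_option autoImplicit false

namespace Pool.Agent.H125R2.ET

open Finset

namespace T18

/-- T24 with `exists_good` as a hypothesis -/
theorem good_seq2_of (hEG : ExistsGood) (C : ℕ) (h0 : BlockRange C) (h1 : RegProb C)
    (h2 : SprProb C) (h3 : FinProb C) (h4 : LowClass C) (h5t : TailProb C) : GoodSeq2 C := by
  obtain ⟨C1, k1, hReg⟩ := h1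
  obtain ⟨g, K1, hSpr⟩ := h2
  obtain ⟨C2, hLow⟩ := h4 C1
  obtain ⟨C3, k3, hFin⟩ := h3 g C2
  obtain ⟨B, c, hc, k4, hTail⟩ := h5t g C2
  refine ⟨C3, k1 + K1 + k3 + k4 + C + 8, B, c, hc, ?_⟩
  intro K hK s
  have hlow8 : ∀ i, K + i < s.p i := fun i =>
    lt_trans Nat.lt_two_pow_self (s.lo i)
  -- the events
  set F : ∀ i, (pre s.X i).Ω → (s.X i).Ω → Prop := fun i x w =>
    Reg C1 (s.p i) (K + i) ((s.X i).S w) ∧
      ((∀ n, ((((s.X i).S w) ∩ refl n ((pre s.X i).S x)).card : ℝ) ≤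
        C3 * ((K + i : ℕ) : ℝ) / Real.log ((K + i : ℕ) : ℝ)) ∧
      (∀ m : ℕ, 1 ≤ m → m ≤ K + i →
        (tailCount ((s.X i).S w) ((pre s.X i).S x) (2 * ((C + 4) * (s.p i) ^ 8)) m : ℝ) ≤
          (s.p i : ℝ) ^ 8 * Real.exp (B * m - c * m * Real.log m))) with hFdef
  set Sp : ∀ i, (pre s.X i).Ω → Prop := fun i x =>
    ClsLE ((s.p i) ^ 6) ((pre s.X i).S x) g with hSpdef
  obtain ⟨ω, hω⟩ := hEG s.X (GG s.X F Sp) F Sp (fun x hx => hx) (fun i x w => Iff.rfl)
    (by
      intro i x hx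
      obtain ⟨ω, rfl⟩ := pt_surj s.X i x
      obtain ⟨hF, hS⟩ := GG_pt s.X F Sp ω i hx
      have hSpt := S_pt s.X ω i
      have hlc := hLow K i s.p (fun j => (s.X j).S (ω j)) (by omega) s.prime s.lo s.hi
        (fun j hj y hy => ((h0 (s.p j) (s.prime j).pos (by have := hlow8 j; omega)
          (by have := hlow8 j; omega) (s.D j) (s.base j) (ω j)).1 y hy).2)
        (fun j hj => (hF j hj).1)
      rw [← hSpt] at hlc
      have hY : ∀ y ∈ (pre s.X i).S (pt s.X ω i), y < (C + 4) * (s.p i) ^ 8 := by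
        intro y hy
        rw [hSpt, Finset.mem_biUnion] at hy
        obtain ⟨j, hj, hy⟩ := hy
        have hji : j < i := Finset.mem_range.1 hj
        have h5 := ((h0 (s.p j) (s.prime j).pos (by have := hlow8 j; omega)
          (by have := hlow8 j; omega) (s.D j) (s.base j) (ω j)).1 y hy).2
        have h6 : s.p j ≤ s.p i := by
          have h7 : 2 ^ (K + j + 1) ≤ 2 ^ (K + i) := Nat.pow_le_pow_right (by norm_num) (by omega)
          exact (s.hi j).trans (h7.trans (s.lo i).le)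
        exact lt_of_lt_of_le h5 (Nat.mul_le_mul le_rfl (Nat.pow_le_pow_left h6 8))
      have hfin := hFin (K + i) (by omega) (s.p i) (s.prime i).pos (s.D i) (s.lo i) (s.hi i)
        (s.base i) ((pre s.X i).S (pt s.X ω i)) hY hS hlc.1 hlc.2
      have htail := hTail (K + i) (by omega) (s.p i) (s.prime i).pos (s.D i) (s.lo i) (s.hi i)
        (s.base i) ((pre s.X i).S (pt s.X ω i)) hY hS hlc.1 hlc.2
      have hreg := hReg (K + i) (by omega) (s.p i) (s.prime i).pos (s.D i) (s.prime i) (s.lo i)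
        (s.hi i) (s.base i)
      have hle : (s.X i).Pr (fun w => ¬ F i (pt s.X ω i) w) ≤
          (s.X i).Pr (fun w => ¬ Reg C1 (s.p i) (K + i) ((s.X i).S w) ∨
            (¬ (∀ n, ((((s.X i).S w) ∩ refl n ((pre s.X i).S (pt s.X ω i))).card : ℝ) ≤
              C3 * ((K + i : ℕ) : ℝ) / Real.log ((K + i : ℕ) : ℝ)) ∨
            ¬ (∀ m : ℕ, 1 ≤ m → m ≤ K + i →
              (tailCount ((s.X i).S w) ((pre s.X i).S (pt s.X ω i))
                (2 * ((C + 4) * (s.p i) ^ 8)) m : ℝ) ≤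
                (s.p i : ℝ) ^ 8 * Real.exp (B * m - c * m * Real.log m)))) :=
        Pr_mono _ (fun w hw => (not_and_or.1 hw).imp id not_and_or.1)
      refine hle.trans ((Pr_or_le _ _ _).trans ((add_le_add hreg ((Pr_or_le _ _ _).trans
        (add_le_add hfin htail))).trans ?_))
      have h8 : (2 : ℝ) ^ 3 ≤ 2 ^ (K + i + 3) := pow_le_pow_right₀ (by norm_num) (by omega)
      have h9 : (1 : ℝ) / 2 ^ (K + i + 3) ≤ 1 / 2 ^ 3 :=
        one_div_le_one_div_of_le (by norm_num) h8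
      norm_num at h9 ⊢
      linarith)
    (by
      intro i
      refine (hSpr K (by omega) s i).trans ?_
      refine one_div_le_one_div_of_le (by positivity) ?_
      have h5 : (2 : ℝ) * 4 ^ i = 2 ^ (2 * i + 1) := by
        rw [pow_succ, pow_mul]
        norm_num
        ring
      rw [h5]
      exact pow_le_pow_right₀ (by norm_num) (by omega))
  refine ⟨ω, fun i n => ?_, fun i m hm1 hm2 => ?_⟩
  · have h5 := ((GG_pt s.X F Sp ω (i + 1) (hω (i + 1))).1 i (Nat.lt_succ_self i)).2.1 n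
    rw [S_pt] at h5
    exact h5
  · have h5 := ((GG_pt s.X F Sp ω (i + 1) (hω (i + 1))).1 i (Nat.lt_succ_self i)).2.2 m hm1 hm2
    rw [S_pt] at h5
    exact h5

end T18

end Pool.Agent.H125R2.ET
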