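import Pool.Agent.H125R2.ET.Defs2

/-!
# T25: the tail of the representation function
-/

set_option autoImplicit false

namespace Pool.Agent.H125R2.ET

open Finset

namespace T25

theorem geom_aux (K M : ℕ) : ∑ i ∈ range (M + 1), 256 ^ (K + i) ≤ 2 * 256 ^ (K + M) := by
  induction M with
  | zero => simp
  | succ M ih =>
    rw [Finset.sum_range_succ]
    have : 256 ^ (K + (M + 1)) = 256 * 256 ^ (K + M) := by ring
    omega

theorem geom_set (K x : ℕ) (T : Finset ℕ) (h : ∀ i ∈ T, 256 ^ (K + i) ≤ x) :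
    ∑ i ∈ T, 256 ^ (K + i) ≤ 2 * x := by
  rcases T.eq_empty_or_nonempty with rfl | hT
  · simp
  · obtain ⟨M, hM, hmax⟩ := T.exists_max_image id hT
    have hsub : T ⊆ range (M + 1) := fun i hi => mem_range.mpr (Nat.lt_succ_of_le (hmax i hi))
    calc ∑ i ∈ T, 256 ^ (K + i) ≤ ∑ i ∈ range (M + 1), 256 ^ (K + i) :=
          Finset.sum_le_sum_of_subset hsub
      _ ≤ 2 * 256 ^ (K + M) := geom_aux K M
      _ ≤ 2 * x := Nat.mul_le_mul_left 2 (h M hM)

theorem idx_card {C K C3 R : ℕ} {p : ℕ → ℕ} {S : ℕ → Finset ℕ} (h : Blocks C K C3 R p S) (n : ℕ) :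
    ((range (n + 1)).filter (fun i => (p i) ^ 8 ≤ n ∧ n < 2 * ((C + 4) * (p i) ^ 8))).card ≤
      2 * (C + 4) + 1 := by
  set T := (range (n + 1)).filter (fun i => (p i) ^ 8 ≤ n ∧ n < 2 * ((C + 4) * (p i) ^ 8)) with hTdef
  rcases T.eq_empty_or_nonempty with hT | hT
  · rw [hT]; simp
  · obtain ⟨a, ha, hmin⟩ := T.exists_min_image id hT
    have hsub : T ⊆ Finset.Icc a (a + 2 * (C + 4)) := by
      intro j hj
      rw [mem_Icc]
      refine ⟨hmin j hj, ?_⟩
      by_contra hc
      push Not at hc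
      have h1 : p j ^ 8 ≤ n := by
        rw [hTdef, mem_filter] at hj
        exact hj.2.1
      have h2 : n < 2 * ((C + 4) * p a ^ 8) := by
        rw [hTdef, mem_filter] at ha
        exact ha.2.2
      have h3 : (2 ^ (K + j)) ^ 8 ≤ p j ^ 8 := Nat.pow_le_pow_left (h.lo j).le 8
      have h4 : p a ^ 8 ≤ (2 ^ (K + a + 1)) ^ 8 := Nat.pow_le_pow_left (h.hi a) 8
      obtain ⟨e, rfl⟩ : ∃ e, j = a + 1 + e := ⟨j - (a + 1), by omega⟩
      have h6 : (2 ^ (K + (a + 1 + e))) ^ 8 = (2 ^ (K + a + 1)) ^ 8 * (2 ^ e) ^ 8 := by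
        rw [← mul_pow, ← pow_add]
        ring_nf
      have h7 : e < 2 ^ e := Nat.lt_two_pow_self
      have h8 : 2 ^ e ≤ (2 ^ e) ^ 8 := Nat.le_self_pow (by norm_num) _
      have h9 : 2 * (C + 4) ≤ (2 ^ e) ^ 8 := by omega
      have h10 : 2 * ((C + 4) * p a ^ 8) ≤ 2 * ((C + 4) * (2 ^ (K + a + 1)) ^ 8) :=
        Nat.mul_le_mul_left 2 (Nat.mul_le_mul_left (C + 4) h4)
      have h11 : 2 * ((C + 4) * (2 ^ (K + a + 1)) ^ 8) ≤ (2 ^ (K + a + 1)) ^ 8 * (2 ^ e) ^ 8 := by
        calc 2 * ((C + 4) * (2 ^ (K + a + 1)) ^ 8) = (2 ^ (K + a + 1)) ^ 8 * (2 * (C + 4)) := by ring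
          _ ≤ (2 ^ (K + a + 1)) ^ 8 * (2 ^ e) ^ 8 := Nat.mul_le_mul_left _ h9
      rw [← h6] at h11
      omega
    calc T.card ≤ (Finset.Icc a (a + 2 * (C + 4))).card := Finset.card_le_card hsub
      _ = 2 * (C + 4) + 1 := by rw [Nat.card_Icc]; omega

/-- a large representation number forces many hits in one scale -/
theorem exists_idx {C K C3 R : ℕ} {p : ℕ → ℕ} {S : ℕ → Finset ℕ} (h : Blocks C K C3 R p S)
    (n m q : ℕ)
    (hc : rA (bigA S) n ≤ ∑ i ∈ (range (n + 1)).filter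
      (fun i => (p i) ^ 8 ≤ n ∧ n < 2 * ((C + 4) * (p i) ^ 8)),
        (repF (S i) (S i) n + 2 * (S i ∩ refl n ((range i).biUnion S)).card))
    (hq : (2 * (C + 4) + 1) * (R + 2 * (q - 1)) < m) (hq1 : 1 ≤ q)
    (hm : m ≤ rA (bigA S) n) :
    ∃ i, (p i) ^ 8 ≤ n ∧ n < 2 * ((C + 4) * (p i) ^ 8) ∧
      q ≤ (S i ∩ refl n ((range i).biUnion S)).card := by
  by_contra hcon
  push Not at hcon
  have h1 : ∑ i ∈ (range (n + 1)).filter
      (fun i => (p i) ^ 8 ≤ n ∧ n < 2 * ((C + 4) * (p i) ^ 8)),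
        (repF (S i) (S i) n + 2 * (S i ∩ refl n ((range i).biUnion S)).card) ≤
      ((range (n + 1)).filter
      (fun i => (p i) ^ 8 ≤ n ∧ n < 2 * ((C + 4) * (p i) ^ 8))).card • (R + 2 * (q - 1)) := by
    refine Finset.sum_le_card_nsmul _ _ _ (fun i hi => ?_)
    rw [mem_filter] at hi
    have h2 := hcon i hi.2.1 hi.2.2
    have h3 := h.rep i n
    omega
  have h2 := idx_card h n
  rw [smul_eq_mul] at h1
  have h3 := Nat.mul_le_mul_right (R + 2 * (q - 1)) h2
  omega

end T25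

open T25 in
/-- T25 -/
theorem blocks_tail (C K C3 R : ℕ) (hK : 3 ≤ K) (p : ℕ → ℕ) (S : ℕ → Finset ℕ)
    (h : Blocks C K C3 R p S)
    (hc : ∀ n, rA (bigA S) n ≤ ∑ i ∈ (range (n + 1)).filter
      (fun i => (p i) ^ 8 ≤ n ∧ n < 2 * ((C + 4) * (p i) ^ 8)),
        (repF (S i) (S i) n + 2 * (S i ∩ refl n ((range i).biUnion S)).card))
    (B c : ℝ) (hc0 : 0 < c)
    (ht : ∀ i m : ℕ, 1 ≤ m → m ≤ K + i →
      (tailCount (S i) ((range i).biUnion S) (2 * ((C + 4) * (p i) ^ 8)) m : ℝ) ≤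
        (p i : ℝ) ^ 8 * Real.exp (B * m - c * m * Real.log m)) :
    ∃ B' c' : ℝ, 0 < c' ∧ ∀ x m : ℕ, 1 ≤ x → 1 ≤ m →
      ({n : ℕ | n ≤ x ∧ m ≤ rA (bigA S) n}.ncard : ℝ) ≤
        B' * x * Real.exp (-(c' * m * Real.log m)) := by
  obtain ⟨J, hJ⟩ : ∃ J : ℕ, J = 2 * (C + 4) + 1 := ⟨_, rfl⟩
  have hJ1 : 1 ≤ J := by omega
  have hJr : (1 : ℝ) ≤ (J : ℝ) := by exact_mod_cast hJ1
  obtain ⟨M0, hM0⟩ : ∃ M0 : ℕ, (2 * J * R : ℝ) + (4 * J) ^ 2 + Real.exp (16 * J * |B| / c) +
      4 * J * (C3 * Real.exp C3 + 1) + 1 ≤ (M0 : ℝ) :=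
    ⟨_, Nat.le_ceil _⟩
  have hp1 : (0 : ℝ) ≤ 2 * J * R := by positivity
  have hp2 : (0 : ℝ) ≤ (4 * J : ℝ) ^ 2 := by positivity
  have hp3 : (0 : ℝ) ≤ Real.exp (16 * J * |B| / c) := by positivity
  have hp4 : (0 : ℝ) ≤ 4 * J * (C3 * Real.exp C3 + 1) := by positivity
  have hA1 : (2 * J * R : ℝ) + 1 ≤ M0 := by linarith
  have hA2 : (4 * J : ℝ) ^ 2 ≤ M0 := by linarith
  have hA3 : Real.exp (16 * J * |B| / c) ≤ M0 := by linarith
  have hA4 : 4 * J * (C3 * Real.exp C3 + 1) ≤ (M0 : ℝ) := by linarith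
  have hA5 : (1 : ℝ) ≤ M0 := by linarith
  obtain ⟨c', hc'⟩ : ∃ c' : ℝ, c' = c / (16 * J) := ⟨_, rfl⟩
  have hc'0 : 0 < c' := by rw [hc']; positivity
  refine ⟨2 * Real.exp (c' * M0 * Real.log M0) + 512, c', hc'0, ?_⟩
  intro x m hx hm
  have hxr : (1 : ℝ) ≤ (x : ℝ) := by exact_mod_cast hx
  have hmr : (1 : ℝ) ≤ (m : ℝ) := by exact_mod_cast hm
  rcases lt_or_ge m M0 with hlt | hge
  · -- trivial bound
    have h1 : ({n : ℕ | n ≤ x ∧ m ≤ rA (bigA S) n}.ncard : ℝ) ≤ 2 * x := by
      have h2 : {n : ℕ | n ≤ x ∧ m ≤ rA (bigA S) n}.ncard ≤ x + 1 := by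
        calc {n : ℕ | n ≤ x ∧ m ≤ rA (bigA S) n}.ncard ≤ ((range (x + 1) : Finset ℕ) : Set ℕ).ncard := by
              refine Set.ncard_le_ncard ?_ (Finset.finite_toSet _)
              intro n hn
              simp only [coe_range, Set.mem_Iio]
              have := hn.1
              omega
          _ = x + 1 := by rw [Set.ncard_coe_finset, card_range]
      have h3 : ({n : ℕ | n ≤ x ∧ m ≤ rA (bigA S) n}.ncard : ℝ) ≤ ((x + 1 : ℕ) : ℝ) := by
        exact_mod_cast h2
      push_cast at h3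
      linarith
    have h2 : c' * m * Real.log m ≤ c' * M0 * Real.log M0 := by
      have hmM : (m : ℝ) ≤ M0 := by exact_mod_cast hlt.le
      have hl : Real.log m ≤ Real.log M0 := Real.log_le_log (by linarith) hmM
      have hl0 : 0 ≤ Real.log m := Real.log_nonneg hmr
      have := mul_le_mul hmM hl hl0 (by linarith)
      calc c' * m * Real.log m = c' * (m * Real.log m) := by ring
        _ ≤ c' * (M0 * Real.log M0) := mul_le_mul_of_nonneg_left this hc'0.le
        _ = c' * M0 * Real.log M0 := by ring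
    have h3 : 1 ≤ Real.exp (c' * M0 * Real.log M0) * Real.exp (-(c' * m * Real.log m)) := by
      rw [← Real.exp_add]
      exact Real.one_le_exp (by linarith)
    have h4 : 0 ≤ 512 * (x : ℝ) * Real.exp (-(c' * m * Real.log m)) := by positivity
    calc ({n : ℕ | n ≤ x ∧ m ≤ rA (bigA S) n}.ncard : ℝ) ≤ 2 * x * 1 := by linarith
      _ ≤ 2 * x * (Real.exp (c' * M0 * Real.log M0) * Real.exp (-(c' * m * Real.log m))) :=
        mul_le_mul_of_nonneg_left h3 (by positivity)
      _ ≤ (2 * Real.exp (c' * M0 * Real.log M0) + 512) * x *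
          Real.exp (-(c' * m * Real.log m)) := by nlinarith
  · -- large `m`
    have hmM : (M0 : ℝ) ≤ m := by exact_mod_cast hge
    obtain ⟨q, hq⟩ : ∃ q : ℕ, q = ⌈(m : ℝ) / (4 * J)⌉₊ := ⟨_, rfl⟩
    have h4J : (0 : ℝ) < 4 * J := by linarith
    have hqlo : (m : ℝ) / (4 * J) ≤ q := by rw [hq]; exact Nat.le_ceil _
    have hqhi : (q : ℝ) < (m : ℝ) / (4 * J) + 1 := by
      rw [hq]; exact Nat.ceil_lt_add_one (by positivity)
    have hq1 : 1 ≤ q := by
      rw [hq]
      exact Nat.one_le_iff_ne_zero.mpr (Nat.pos_iff_ne_zero.mp (Nat.ceil_pos.mpr (by positivity)))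
    have hqr : (1 : ℝ) ≤ (q : ℝ) := by exact_mod_cast hq1
    have hqm : (q : ℝ) ≤ m := by
      have : q ≤ m := by
        rw [hq]
        refine Nat.ceil_le.mpr ?_
        rw [div_le_iff₀ h4J]
        nlinarith
      exact_mod_cast this
    have hqstep : (2 * (C + 4) + 1) * (R + 2 * (q - 1)) < m := by
      rw [← hJ]
      have h1 : ((J * (R + 2 * (q - 1)) : ℕ) : ℝ) < (m : ℝ) := by
        rw [Nat.cast_mul, Nat.cast_add, Nat.cast_mul, Nat.cast_sub hq1]
        push_cast
        have h2 : (q : ℝ) - 1 < (m : ℝ) / (4 * J) := by linarith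
        have h3 : (J : ℝ) * (2 * ((q : ℝ) - 1)) < m / 2 := by
          calc (J : ℝ) * (2 * ((q : ℝ) - 1)) < (J : ℝ) * (2 * ((m : ℝ) / (4 * J))) := by
                apply mul_lt_mul_of_pos_left _ (by linarith)
                linarith
            _ = m / 2 := by field_simp; ring
        have h4 : (J : ℝ) * R ≤ m / 2 := by linarith
        calc (J : ℝ) * (R + 2 * ((q : ℝ) - 1)) = J * R + J * (2 * ((q : ℝ) - 1)) := by ring
          _ < m / 2 + m / 2 := by linarith
          _ = m := by ring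
      exact_mod_cast h1
    -- the exponent
    have hlog : Real.log m / 2 ≤ Real.log q := by
      have h1 : Real.log m / 2 ≤ Real.log ((m : ℝ) / (4 * J)) := by
        rw [Real.log_div (by linarith) (by linarith)]
        have h2 : Real.log ((4 * J : ℝ) ^ 2) ≤ Real.log m :=
          Real.log_le_log (by positivity) (le_trans hA2 hmM)
        rw [Real.log_pow] at h2
        push_cast at h2
        linarith
      exact h1.trans (Real.log_le_log (by positivity) hqlo)
    have hlm : 0 ≤ Real.log m := Real.log_nonneg hmr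
    have hBlog : 16 * J * |B| ≤ c * Real.log m := by
      have h1 : 16 * J * |B| / c ≤ Real.log m := by
        rw [Real.le_log_iff_exp_le (by linarith)]
        exact le_trans hA3 hmM
      rw [div_le_iff₀ hc0] at h1
      linarith
    have hexp : B * q - c * q * Real.log q ≤ -(c' * m * Real.log m) := by
      have h1 : B * q ≤ |B| * m := by
        calc B * q ≤ |B| * q := mul_le_mul_of_nonneg_right (le_abs_self B) (by linarith)
          _ ≤ |B| * m := mul_le_mul_of_nonneg_left hqm (abs_nonneg B)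
      have h2 : |B| * m ≤ c / (16 * J) * (m * Real.log m) := by
        rw [div_mul_eq_mul_div, le_div_iff₀ (by linarith)]
        have := mul_le_mul_of_nonneg_right hBlog (show (0:ℝ) ≤ m by linarith)
        nlinarith
      have h3 : (m : ℝ) / (4 * J) * (Real.log m / 2) ≤ q * Real.log q :=
        mul_le_mul hqlo hlog (by linarith) (by linarith)
      have h4 : c * ((m : ℝ) / (4 * J) * (Real.log m / 2)) ≤ c * (q * Real.log q) :=
        mul_le_mul_of_nonneg_left h3 hc0.le
      have h5 : c * ((m : ℝ) / (4 * J) * (Real.log m / 2)) = 2 * (c / (16 * J) * (m * Real.log m)) := by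
        field_simp
        ring
      rw [hc']
      calc B * q - c * q * Real.log q = B * q - c * (q * Real.log q) := by ring
        _ ≤ c / (16 * J) * (m * Real.log m) - 2 * (c / (16 * J) * (m * Real.log m)) := by
          rw [← h5]; linarith
        _ = -(c / (16 * J) * m * Real.log m) := by ring
    -- the relevant indices
    have hsub : {n : ℕ | n ≤ x ∧ m ≤ rA (bigA S) n} ⊆
        (((range (x + 1)).filter (fun i => (p i) ^ 8 ≤ x ∧ q ≤ K + i)).biUnion
          (fun i => (range (2 * ((C + 4) * (p i) ^ 8))).filter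
            (fun n => q ≤ (S i ∩ refl n ((range i).biUnion S)).card)) : Finset ℕ) := by
      rintro n ⟨hnx, hnm⟩
      obtain ⟨i, hi1, hi2, hi3⟩ := exists_idx h n m q (hc n) hqstep hq1 hnm
      rw [Finset.mem_coe, mem_biUnion]
      have hiK : q ≤ K + i := by
        by_contra hcon
        push Not at hcon
        have hcr := h.cross i n
        have hqr2 : (q : ℝ) ≤ ((S i ∩ refl n ((range i).biUnion S)).card : ℝ) := by
          exact_mod_cast hi3
        have hKi : (3 : ℝ) ≤ ((K + i : ℕ) : ℝ) := by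
          have : 3 ≤ K + i := by omega
          exact_mod_cast this
        have hKq : ((K + i : ℕ) : ℝ) < q := by exact_mod_cast hcon
        obtain ⟨L, hL⟩ : ∃ L : ℝ, L = ((K + i : ℕ) : ℝ) := ⟨_, rfl⟩
        rw [← hL] at hcr hKi hKq
        have hlogL : 1 ≤ Real.log L := by
          rw [Real.le_log_iff_exp_le (by linarith)]
          have := Real.exp_one_lt_d9
          linarith
        have h1 : (q : ℝ) ≤ C3 * L / Real.log L := hqr2.trans hcr
        have h2 : L < C3 * L / Real.log L := lt_of_lt_of_le hKq h1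
        rw [lt_div_iff₀ (by linarith)] at h2
        have h3 : Real.log L < C3 := by
          by_contra hcc
          push Not at hcc
          have := mul_le_mul_of_nonneg_left hcc (show (0:ℝ) ≤ L by linarith)
          linarith
        have h4 : L < Real.exp C3 := (Real.log_lt_iff_lt_exp (by linarith)).mp h3
        have h5 : C3 * L / Real.log L ≤ C3 * L :=
          div_le_self (by positivity) hlogL
        have h6 : (C3 : ℝ) * L ≤ C3 * Real.exp C3 :=
          mul_le_mul_of_nonneg_left h4.le (by positivity)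
        have h7 : C3 * Real.exp C3 + 1 ≤ (m : ℝ) / (4 * J) := by
          rw [le_div_iff₀ h4J]
          calc (C3 * Real.exp C3 + 1) * (4 * J) = 4 * J * (C3 * Real.exp C3 + 1) := by ring
            _ ≤ M0 := hA4
            _ ≤ m := hmM
        linarith
      refine ⟨i, ?_, ?_⟩
      · rw [mem_filter, mem_range]
        refine ⟨?_, hi1.trans hnx, hiK⟩
        have e1 : K + i < 2 ^ (K + i) := Nat.lt_two_pow_self
        have e2 := h.lo i
        have e3 : p i ≤ p i ^ 8 := Nat.le_self_pow (by norm_num) _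
        omega
      · rw [mem_filter, mem_range]
        exact ⟨hi2, hi3⟩
    have hcard : {n : ℕ | n ≤ x ∧ m ≤ rA (bigA S) n}.ncard ≤
        ∑ i ∈ (range (x + 1)).filter (fun i => (p i) ^ 8 ≤ x ∧ q ≤ K + i),
          tailCount (S i) ((range i).biUnion S) (2 * ((C + 4) * (p i) ^ 8)) q := by
      calc {n : ℕ | n ≤ x ∧ m ≤ rA (bigA S) n}.ncard ≤
          ((((range (x + 1)).filter (fun i => (p i) ^ 8 ≤ x ∧ q ≤ K + i)).biUnion
          (fun i => (range (2 * ((C + 4) * (p i) ^ 8))).filter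
            (fun n => q ≤ (S i ∩ refl n ((range i).biUnion S)).card)) : Finset ℕ) : Set ℕ).ncard :=
            Set.ncard_le_ncard hsub (Finset.finite_toSet _)
        _ = (((range (x + 1)).filter (fun i => (p i) ^ 8 ≤ x ∧ q ≤ K + i)).biUnion
          (fun i => (range (2 * ((C + 4) * (p i) ^ 8))).filter
            (fun n => q ≤ (S i ∩ refl n ((range i).biUnion S)).card))).card :=
            Set.ncard_coe_finset _
        _ ≤ _ := Finset.card_biUnion_le
    have hsum : ∑ i ∈ (range (x + 1)).filter (fun i => (p i) ^ 8 ≤ x ∧ q ≤ K + i), (p i) ^ 8 ≤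
        512 * x := by
      have h1 : ∑ i ∈ (range (x + 1)).filter (fun i => (p i) ^ 8 ≤ x ∧ q ≤ K + i), (p i) ^ 8 ≤
          ∑ i ∈ (range (x + 1)).filter (fun i => (p i) ^ 8 ≤ x ∧ q ≤ K + i), 256 * 256 ^ (K + i) := by
        refine Finset.sum_le_sum (fun i _ => ?_)
        calc (p i) ^ 8 ≤ (2 ^ (K + i + 1)) ^ 8 := Nat.pow_le_pow_left (h.hi i) 8
          _ = 256 * 256 ^ (K + i) := by
            rw [show (256 : ℕ) = 2 ^ 8 by norm_num, ← pow_mul, ← pow_mul, ← pow_add]
            congr 1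
            ring
      rw [← Finset.mul_sum] at h1
      have h2 := geom_set K x ((range (x + 1)).filter (fun i => (p i) ^ 8 ≤ x ∧ q ≤ K + i)) (by
        intro i hi
        rw [mem_filter] at hi
        calc 256 ^ (K + i) = (2 ^ (K + i)) ^ 8 := by
              rw [show (256 : ℕ) = 2 ^ 8 by norm_num, ← pow_mul, ← pow_mul]
              congr 1
              ring
          _ ≤ (p i) ^ 8 := Nat.pow_le_pow_left (h.lo i).le 8
          _ ≤ x := hi.2.1)
      omega
    have hsumr : ∑ i ∈ (range (x + 1)).filter (fun i => (p i) ^ 8 ≤ x ∧ q ≤ K + i),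
        (p i : ℝ) ^ 8 ≤ 512 * x := by
      exact_mod_cast hsum
    calc ({n : ℕ | n ≤ x ∧ m ≤ rA (bigA S) n}.ncard : ℝ) ≤
        ((∑ i ∈ (range (x + 1)).filter (fun i => (p i) ^ 8 ≤ x ∧ q ≤ K + i),
          tailCount (S i) ((range i).biUnion S) (2 * ((C + 4) * (p i) ^ 8)) q : ℕ) : ℝ) := by
          exact_mod_cast hcard
      _ = ∑ i ∈ (range (x + 1)).filter (fun i => (p i) ^ 8 ≤ x ∧ q ≤ K + i),
          (tailCount (S i) ((range i).biUnion S) (2 * ((C + 4) * (p i) ^ 8)) q : ℝ) := by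
          push_cast
          rfl
      _ ≤ ∑ i ∈ (range (x + 1)).filter (fun i => (p i) ^ 8 ≤ x ∧ q ≤ K + i),
          (p i : ℝ) ^ 8 * Real.exp (B * q - c * q * Real.log q) := by
          refine Finset.sum_le_sum (fun i hi => ?_)
          rw [mem_filter] at hi
          exact ht i q hq1 hi.2.2
      _ = (∑ i ∈ (range (x + 1)).filter (fun i => (p i) ^ 8 ≤ x ∧ q ≤ K + i), (p i : ℝ) ^ 8) *
          Real.exp (B * q - c * q * Real.log q) := by rw [Finset.sum_mul]
      _ ≤ (512 * x) * Real.exp (-(c' * m * Real.log m)) :=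
          mul_le_mul hsumr (Real.exp_le_exp.mpr hexp) (Real.exp_pos _).le (by positivity)
      _ ≤ (2 * Real.exp (c' * M0 * Real.log M0) + 512) * x *
          Real.exp (-(c' * m * Real.log m)) := by
          have e1 : 0 ≤ 2 * Real.exp (c' * M0 * Real.log M0) * x *
            Real.exp (-(c' * m * Real.log m)) := by positivity
          linarith

end Pool.Agent.H125R2.ET
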