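import Pool.Agent.H125R2.ET.Defs

/-! Task T3: the local digit set. -/

set_option autoImplicit false

namespace Pool.Agent.H125R2.ET

open Finset

/-- a quadratic equation has at most two solutions -/
theorem t3_roots {F : Type*} [Field F] [Fintype F] [DecidableEq F] (c d m n : F)
    (hcd : c + d ≠ 0) :
    ((univ : Finset F).filter (fun x => c * x ^ 2 + d * (m - x) ^ 2 = n)).card ≤ 2 := by
  by_contra h
  push Not at h
  rw [two_lt_card] at h
  obtain ⟨a, ha, b, hb, e, he, hab, hae, hbe⟩ := h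
  rw [mem_filter] at ha hb he
  have h1 : (a - b) * ((c + d) * (a + b) - 2 * d * m) = 0 := by
    linear_combination ha.2 - hb.2
  have h2 : (a - e) * ((c + d) * (a + e) - 2 * d * m) = 0 := by
    linear_combination ha.2 - he.2
  have h3 := (mul_eq_zero.1 h1).resolve_left (sub_ne_zero.2 hab)
  have h4 := (mul_eq_zero.1 h2).resolve_left (sub_ne_zero.2 hae)
  have h5 : (c + d) * (b - e) = 0 := by linear_combination h3 - h4
  exact hbe (sub_eq_zero.1 ((mul_eq_zero.1 h5).resolve_left hcd))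

/-- T3 -/
theorem local_set (p : ℕ) (hpp : p.Prime) (hp : 7 < p)
    (h : ∃ k l : ZMod p, k ≠ 0 ∧ l ≠ 0 ∧ k + l ≠ 0 ∧ 1 + k ≠ 0 ∧ 1 + l ≠ 0 ∧
      ∀ m n : ZMod p, (∃ x y : ZMod p, x + y = m ∧ x ^ 2 + y ^ 2 = n) ∨
        (∃ x y : ZMod p, x + y = m ∧ k * x ^ 2 + l * y ^ 2 = n)) :
    ∃ E : Finset (ℕ × ℕ), IsLocal p E := by
  classical
  haveI : Fact p.Prime := ⟨hpp⟩
  obtain ⟨k, l, hk, hl, hkl, h1k, h1l, hq⟩ := h
  have h2 : (2 : ZMod p) ≠ 0 := by
    intro h0
    have h3 : ((2 : ℕ) : ZMod p) = 0 := by exact_mod_cast h0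
    rw [ZMod.natCast_eq_zero_iff] at h3
    have := Nat.le_of_dvd (by norm_num) h3
    omega
  set K : Finset (ZMod p) := {1, k, l} with hK
  have hKcard : K.card ≤ 3 := card_le_three
  have hKsum : ∀ c ∈ K, ∀ d ∈ K, c + d ≠ 0 := by
    intro c hc d hd
    rw [hK, mem_insert, mem_insert, mem_singleton] at hc hd
    have hcc : ∀ c : ZMod p, c ≠ 0 → c + c ≠ 0 := by
      intro c hc h0
      rw [← two_mul] at h0
      exact (mul_ne_zero h2 hc) h0
    rcases hc with rfl | rfl | rfl <;> rcases hd with rfl | rfl | rfl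
    · exact hcc 1 one_ne_zero
    · exact h1k
    · exact h1l
    · rwa [add_comm]
    · exact hcc _ hk
    · exact hkl
    · rwa [add_comm]
    · rwa [add_comm]
    · exact hcc _ hl
  set A : ZMod p → Finset (ℕ × ℕ) := fun c =>
    (univ : Finset (ZMod p)).image (fun x => (x.val, (c * x ^ 2).val)) with hA
  have hmemA : ∀ c x, (x.val, (c * x ^ 2).val) ∈ A c := fun c x =>
    mem_image_of_mem _ (mem_univ x)
  have hval : ∀ x : ZMod p, ((x.val : ℕ) : ZMod p) = x := fun x => ZMod.natCast_zmod_val x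
  refine ⟨K.biUnion A, ?_, ?_, ?_, ?_⟩
  · intro e he
    rw [mem_biUnion] at he
    obtain ⟨c, -, hc⟩ := he
    rw [hA, mem_image] at hc
    obtain ⟨x, -, rfl⟩ := hc
    exact ⟨ZMod.val_lt _, ZMod.val_lt _⟩
  · refine (card_biUnion_le_card_mul K A p ?_).trans (Nat.mul_le_mul_right p hKcard)
    intro c _
    refine card_image_le.trans ?_
    rw [card_univ, ZMod.card]
  · intro s t
    have key : ∀ c ∈ K, ∀ d ∈ K, ∀ x y : ZMod p, x + y = (s : ZMod p) →
        c * x ^ 2 + d * y ^ 2 = (t : ZMod p) → ∃ e ∈ K.biUnion A, ∃ f ∈ K.biUnion A,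
          e.1 + f.1 ≡ s [MOD p] ∧ e.2 + f.2 ≡ t [MOD p] := by
      intro c hc d hd x y h3 h4
      refine ⟨(x.val, (c * x ^ 2).val), mem_biUnion.2 ⟨c, hc, hmemA c x⟩,
        (y.val, (d * y ^ 2).val), mem_biUnion.2 ⟨d, hd, hmemA d y⟩, ?_, ?_⟩
      · rw [← ZMod.natCast_eq_natCast_iff]
        push_cast
        rw [hval, hval, h3]
      · rw [← ZMod.natCast_eq_natCast_iff]
        push_cast
        rw [hval, hval, h4]
    have hK1 : (1 : ZMod p) ∈ K := by rw [hK]; simp
    have hKk : k ∈ K := by rw [hK]; simp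
    have hKl : l ∈ K := by rw [hK]; simp
    rcases hq (s : ZMod p) (t : ZMod p) with ⟨x, y, h3, h4⟩ | ⟨x, y, h3, h4⟩
    · exact key 1 hK1 1 hK1 x y h3 (by rw [one_mul, one_mul]; exact h4)
    · exact key k hKk l hKl x y h3 h4
  · intro s t
    have hsub : ((K.biUnion A) ×ˢ (K.biUnion A)).filter (fun x => x.1.1 + x.2.1 ≡ s [MOD p] ∧
        x.1.2 + x.2.2 ≡ t [MOD p]) ⊆ (K ×ˢ K).biUnion (fun cd =>
          ((univ : Finset (ZMod p)).filter (fun x => cd.1 * x ^ 2 +
            cd.2 * ((s : ZMod p) - x) ^ 2 = (t : ZMod p))).image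
            (fun x => ((x.val, (cd.1 * x ^ 2).val),
              (((s : ZMod p) - x).val, (cd.2 * ((s : ZMod p) - x) ^ 2).val)))) := by
      rintro ⟨e, f⟩ hef
      rw [mem_filter, mem_product, mem_biUnion, mem_biUnion] at hef
      obtain ⟨⟨⟨c, hc, he⟩, ⟨d, hd, hf⟩⟩, h3, h4⟩ := hef
      rw [hA, mem_image] at he hf
      obtain ⟨x, -, hx⟩ := he
      obtain ⟨y, -, hy⟩ := hf
      simp only at hx hy h3 h4
      rw [← hx, ← hy] at h3 h4
      rw [← ZMod.natCast_eq_natCast_iff] at h3 h4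
      push_cast at h3 h4
      rw [hval, hval] at h3 h4
      have hyx : y = (s : ZMod p) - x := by rw [← h3]; ring
      rw [mem_biUnion]
      refine ⟨(c, d), mem_product.2 ⟨hc, hd⟩, ?_⟩
      rw [mem_image]
      refine ⟨x, ?_, ?_⟩
      · rw [mem_filter]
        refine ⟨mem_univ _, ?_⟩
        rw [← hyx]
        exact h4
      · simp only
        rw [← hyx, hx, hy]
    refine (card_le_card hsub).trans ?_
    refine (card_biUnion_le_card_mul (K ×ˢ K) _ 2 ?_).trans ?_
    · rintro ⟨c, d⟩ hcd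
      rw [mem_product] at hcd
      exact card_image_le.trans (t3_roots c d _ _ (hKsum c hcd.1 d hcd.2))
    · rw [card_product]
      have := Nat.mul_le_mul hKcard hKcard
      omega

end Pool.Agent.H125R2.ET
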