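import Pool.Agent.H125R2.ET.Defs

/-!
# T4: from the local set `E ⊆ [0,p)²` to the base set `D`
-/

set_option autoImplicit false

namespace Pool.Agent.H125R2.ET

open Finset

namespace T4

/-- the shifts -/
def Sft (J p : ℕ) : Finset ℕ :=
  insert 0 (((Finset.Icc 1 J) ×ˢ (range 3)).image (fun x => (2 * p ^ 2 * x.1 - p) + x.2 * p))

theorem card_Sft (J p : ℕ) : (Sft J p).card ≤ 1 + 3 * J := by
  unfold Sft
  refine (card_insert_le _ _).trans ?_
  have : (((Finset.Icc 1 J) ×ˢ (range 3)).image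
      (fun x => (2 * p ^ 2 * x.1 - p) + x.2 * p)).card ≤ J * 3 := by
    refine card_image_le.trans ?_
    rw [card_product]; simp
  omega

theorem le_mul_sq {p j : ℕ} (hp : 0 < p) (hj : 1 ≤ j) : p ≤ 2 * p ^ 2 * j := by
  nlinarith [Nat.mul_le_mul hp hp, Nat.mul_le_mul (Nat.mul_le_mul hp hp) hj,
    Nat.mul_le_mul (Nat.mul_le_mul hp (le_refl p)) hj]

theorem Sft_le {J p σ : ℕ} (hp : 0 < p) (h : σ ∈ Sft J p) : σ ≤ 2 * p ^ 2 * J + p := by
  unfold Sft at h
  rw [mem_insert, mem_image] at h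
  rcases h with h | ⟨⟨j, i⟩, hx, rfl⟩
  · rw [h]; exact Nat.zero_le _
  · rw [mem_product, mem_Icc, mem_range] at hx
    obtain ⟨⟨h1, h2⟩, h3⟩ := hx
    simp only at h1 h2 h3 ⊢
    have e1 : p ≤ 2 * p ^ 2 * j := le_mul_sq hp h1
    have e2 : 2 * p ^ 2 * j ≤ 2 * p ^ 2 * J := Nat.mul_le_mul_left _ h2
    have e3 : i * p ≤ 2 * p := Nat.mul_le_mul_right _ (by omega)
    omega

/-- the elements of `D` -/
def val (p σ : ℕ) (e : ℕ × ℕ) : ℕ := p ^ 2 + e.1 + 2 * p * e.2 + σ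

theorem fib {p : ℕ} (hp : 0 < p) {E : Finset (ℕ × ℕ)} (hE : IsLocal p E) (n σ σ' : ℕ) :
    ((E ×ˢ E).filter (fun ef => val p σ ef.1 + val p σ' ef.2 = n)).card ≤ 18 := by
  refine (card_le_card ?_).trans (hE.rep ((n - 2 * p ^ 2 - σ - σ') % (2 * p))
    ((n - 2 * p ^ 2 - σ - σ') / (2 * p)))
  rintro ⟨e, f⟩ h
  rw [mem_filter, mem_product] at h
  obtain ⟨⟨he, hf⟩, hn⟩ := h
  simp only at he hf hn
  have h1 := hE.lt e he
  have h2 := hE.lt f hf
  have hm : n - 2 * p ^ 2 - σ - σ' = (e.1 + f.1) + 2 * p * (e.2 + f.2) := by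
    unfold val at hn
    rw [Nat.mul_add]
    omega
  have hlt : e.1 + f.1 < 2 * p := by omega
  rw [mem_filter, mem_product]
  refine ⟨⟨he, hf⟩, ?_, ?_⟩
  · rw [hm, Nat.add_mul_mod_self_left, Nat.mod_eq_of_lt hlt]
  · rw [hm, Nat.add_mul_div_left _ _ (by omega), Nat.div_eq_of_lt hlt, Nat.zero_add]

theorem main (J C : ℕ) (hJ : 2 ^ 20 = 2 * J) (h1 : 2 * J + 3 ≤ C) (h2 : (1 + 3 * J) * 3 ≤ C)
    (h3 : (1 + 3 * J) * (1 + 3 * J) * 18 ≤ C) (p : ℕ) (hp7 : 7 < p) (E : Finset (ℕ × ℕ))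
    (hE : IsLocal p E) : IsBase C p ((Sft J p ×ˢ E).image (fun x => val p x.1 x.2)) := by
  have hp : 0 < p := by omega
  have hmem : ∀ a, a ∈ (Sft J p ×ˢ E).image (fun x => val p x.1 x.2) ↔
      ∃ σ ∈ Sft J p, ∃ e ∈ E, val p σ e = a := by
    intro a
    rw [mem_image]
    constructor
    · rintro ⟨⟨σ, e⟩, hx, rfl⟩
      rw [mem_product] at hx
      exact ⟨σ, hx.1, e, hx.2, rfl⟩
    · rintro ⟨σ, hσ, e, he, rfl⟩
      exact ⟨(σ, e), mem_product.2 ⟨hσ, he⟩, rfl⟩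
  refine ⟨?_, ?_, ?_, ?_, ?_⟩
  · intro a ha
    obtain ⟨σ, hσ, e, he, rfl⟩ := (hmem a).1 ha
    unfold val
    omega
  · intro a ha
    obtain ⟨σ, hσ, e, he, rfl⟩ := (hmem a).1 ha
    have e1 := hE.lt e he
    have e2 := Sft_le hp hσ
    have e3 : 2 * p * e.2 + 2 * p ≤ 2 * p ^ 2 := by
      have : e.2 + 1 ≤ p := e1.2
      nlinarith
    have e4 : (2 * J + 3) * p ^ 2 ≤ C * p ^ 2 := Nat.mul_le_mul_right _ h1
    have e5 : (2 * J + 3) * p ^ 2 = 2 * p ^ 2 * J + 3 * p ^ 2 := by ring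
    have e6 := e1.1
    unfold val
    omega
  · refine card_image_le.trans ?_
    rw [card_product]
    calc (Sft J p).card * E.card ≤ (1 + 3 * J) * (3 * p) :=
          Nat.mul_le_mul (card_Sft J p) hE.card
      _ = ((1 + 3 * J) * 3) * p := by ring
      _ ≤ C * p := Nat.mul_le_mul_right _ h2
  · intro n hn1 hn2
    obtain ⟨m, hm⟩ : ∃ m, n = 2 * p ^ 2 + m := ⟨n - 2 * p ^ 2, by omega⟩
    set s := m % (2 * p) with hs
    set t := m / (2 * p) with ht
    have hmst : m = s + 2 * p * t := by rw [hs, ht]; exact (Nat.mod_add_div _ _).symm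
    have hs2 : s < 2 * p := Nat.mod_lt _ (by omega)
    have ht2 : 2 * p ≤ t := by
      rw [ht, Nat.le_div_iff_mul_le (by omega)]
      have : 2 * p * (2 * p) = 4 * p ^ 2 := by ring
      omega
    have htJ : t < J * p := by
      rw [ht, Nat.div_lt_iff_lt_mul (by omega)]
      have : J * p * (2 * p) = 2 * J * p ^ 2 := by ring
      rw [this, ← hJ]
      omega
    obtain ⟨e, he, f, hf, hes, het⟩ := hE.cover s t
    have he1 := hE.lt e he
    have hf1 := hE.lt f hf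
    -- the second digit
    obtain ⟨j, hj⟩ : ∃ j, t = e.2 + f.2 + p * j := by
      have hle : e.2 + f.2 ≤ t := by omega
      have := (Nat.modEq_iff_dvd' hle).1 het
      obtain ⟨j, hj⟩ := this
      exact ⟨j, by omega⟩
    have hj1 : 1 ≤ j := by
      rcases Nat.eq_zero_or_pos j with h | h
      · rw [h, Nat.mul_zero] at hj; omega
      · exact h
    have hjJ : j ≤ J := by
      by_contra hcon
      have : J * p ≤ p * j := by
        rw [Nat.mul_comm]; exact Nat.mul_le_mul_left _ (by omega)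
      omega
    -- the first digit
    obtain ⟨i, hi, his⟩ : ∃ i < 3, s + p = e.1 + f.1 + i * p := by
      have h6 : e.1 + f.1 ≡ s + p [MOD p] := by
        have : s + p ≡ s [MOD p] := by simp [Nat.ModEq]
        exact hes.trans this.symm
      rcases le_total (e.1 + f.1) (s + p) with hle | hle
      · obtain ⟨i, hi⟩ := (Nat.modEq_iff_dvd' hle).1 h6
        refine ⟨i, ?_, ?_⟩
        · by_contra hcon
          have : p * 3 ≤ p * i := Nat.mul_le_mul_left _ (by omega)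
          omega
        · rw [Nat.mul_comm i p]; omega
      · obtain ⟨i, hi⟩ := (Nat.modEq_iff_dvd' hle).1 h6.symm
        have : i = 0 := by
          by_contra hcon
          have : p * 1 ≤ p * i := Nat.mul_le_mul_left _ (by omega)
          omega
        rw [this, Nat.mul_zero] at hi
        exact ⟨0, by omega, by omega⟩
    refine ⟨val p 0 e, (hmem _).2 ⟨0, mem_insert_self _ _, e, he, rfl⟩,
      val p ((2 * p ^ 2 * j - p) + i * p) f, (hmem _).2 ⟨_, ?_, f, hf, rfl⟩, ?_⟩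
    · apply mem_insert_of_mem
      rw [mem_image]
      exact ⟨(j, i), mem_product.2 ⟨mem_Icc.2 ⟨hj1, hjJ⟩, mem_range.2 hi⟩, rfl⟩
    · have e1 : p ≤ 2 * p ^ 2 * j := le_mul_sq hp hj1
      have e2 : 2 * p * t = 2 * p * e.2 + 2 * p * f.2 + 2 * p ^ 2 * j := by
        rw [hj]; ring
      unfold val
      omega
  · intro n
    have hsub : ((((Sft J p ×ˢ E).image (fun x => val p x.1 x.2)) ×ˢ
        ((Sft J p ×ˢ E).image (fun x => val p x.1 x.2))).filter (fun x => x.1 + x.2 = n)) ⊆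
        (Sft J p ×ˢ Sft J p).biUnion (fun ss =>
          ((E ×ˢ E).filter (fun ef => val p ss.1 ef.1 + val p ss.2 ef.2 = n)).image
            (fun ef => (val p ss.1 ef.1, val p ss.2 ef.2))) := by
      rintro ⟨a, b⟩ h
      rw [mem_filter, mem_product] at h
      obtain ⟨⟨ha, hb⟩, hn⟩ := h
      obtain ⟨σ, hσ, e, he, rfl⟩ := (hmem a).1 ha
      obtain ⟨σ', hσ', f, hf, rfl⟩ := (hmem b).1 hb
      rw [mem_biUnion]
      refine ⟨(σ, σ'), mem_product.2 ⟨hσ, hσ'⟩, ?_⟩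
      rw [mem_image]
      exact ⟨(e, f), mem_filter.2 ⟨mem_product.2 ⟨he, hf⟩, hn⟩, rfl⟩
    refine (card_le_card hsub).trans ?_
    refine (card_biUnion_le_card_mul _ _ 18 ?_).trans ?_
    · intro ss _
      exact card_image_le.trans (fib hp hE n ss.1 ss.2)
    · rw [card_product]
      refine le_trans ?_ h3
      exact Nat.mul_le_mul_right _ (Nat.mul_le_mul (card_Sft J p) (card_Sft J p))

end T4

/-- T4 -/
theorem base_of_local : ∃ C : ℕ, ∀ p : ℕ, 7 < p → ∀ E : Finset (ℕ × ℕ), IsLocal p E →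
    ∃ D : Finset ℕ, IsBase C p D :=
  ⟨(1 + 3 * 2 ^ 19) * (1 + 3 * 2 ^ 19) * 18, fun p hp E hE =>
    ⟨_, T4.main (2 ^ 19) _ (by norm_num) (by norm_num) (by norm_num) le_rfl p hp E hE⟩⟩

end Pool.Agent.H125R2.ET
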