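import Pool.Agent.H125R2.ET.Defs

/-!
# T5: block + block covers a long interval
-/

set_option autoImplicit false

namespace Pool.Agent.H125R2.ET

open Finset

theorem Cov_mono_T5 {X : RFS} {a b a' : ℕ} (h : Cov X a b) (ha : a ≤ a') : Cov X a' b :=
  fun t t' n h1 h2 => h t t' n (ha.trans h1) h2

theorem Cov_step_T5 {P : ℕ} (hP : 0 < P) {D : Finset ℕ}
    (hD : ∀ n, 6 * P ≤ n → n < 7 * P → ∃ a ∈ D, ∃ b ∈ D, a + b = n) {X : RFS} {a b : ℕ}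
    (h : Cov X a b) : Cov (step P hP D X) (P * (a + 2 * P + 7)) (P * b) := by
  intro t t' n hn hn'
  have hmod : n % P < P := Nat.mod_lt _ hP
  obtain ⟨a0, ha0, b0, hb0, hab⟩ := hD (6 * P + n % P) (by omega) (by omega)
  have h1 : a + 2 * P + 7 ≤ n / P := (Nat.le_div_iff_mul_le hP).2 (by rw [mul_comm]; exact hn)
  have h2 : n / P < b := Nat.div_lt_of_lt_mul hn'
  have ht : (t ⟨a0, ha0⟩).1.1 < P := (t ⟨a0, ha0⟩).1.2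
  have ht' : (t' ⟨b0, hb0⟩).1.1 < P := (t' ⟨b0, hb0⟩).1.2
  obtain ⟨s, hs, s', hs', hss⟩ := h (t ⟨a0, ha0⟩).2 (t' ⟨b0, hb0⟩).2
    (n / P - 6 - (t ⟨a0, ha0⟩).1.1 - (t' ⟨b0, hb0⟩).1.1) (by omega) (by omega)
  refine ⟨a0 + P * ((t ⟨a0, ha0⟩).1.1 + s), ?_, b0 + P * ((t' ⟨b0, hb0⟩).1.1 + s'), ?_, ?_⟩
  · exact Finset.mem_biUnion.2 ⟨⟨a0, ha0⟩, Finset.mem_univ _, Finset.mem_image.2 ⟨s, hs, rfl⟩⟩
  · exact Finset.mem_biUnion.2 ⟨⟨b0, hb0⟩, Finset.mem_univ _, Finset.mem_image.2 ⟨s', hs', rfl⟩⟩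
  · have h3 : a0 + P * ((t ⟨a0, ha0⟩).1.1 + s) + (b0 + P * ((t' ⟨b0, hb0⟩).1.1 + s')) =
        (a0 + b0) + P * ((t ⟨a0, ha0⟩).1.1 + (t' ⟨b0, hb0⟩).1.1 + (s + s')) := by ring
    have h4 : (t ⟨a0, ha0⟩).1.1 + (t' ⟨b0, hb0⟩).1.1 + (s + s') = n / P - 6 := by
      rw [hss]
      omega
    rw [h3, h4, hab, Nat.mul_sub]
    have h5 := Nat.mod_add_div n P
    have h6 : P * 6 ≤ P * (n / P) := Nat.mul_le_mul_left _ (by omega)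
    omega

/-- T5 -/
theorem block_cov (C p : ℕ) (hp : 0 < p) (h7 : 7 < p) (D : Finset ℕ) (hD : IsBase C p D) :
    Cov (block p hp D) (11 * p ^ 8) (2 ^ 20 * p ^ 8) := by
  have hP := pow_pos hp 2
  obtain ⟨P, hPe⟩ : ∃ P, P = p ^ 2 := ⟨_, rfl⟩
  have hP64 : 64 ≤ P := by
    rw [hPe]
    calc 64 = 8 ^ 2 := by norm_num
      _ ≤ p ^ 2 := Nat.pow_le_pow_left (by omega) 2
  have hc : ∀ n, 6 * p ^ 2 ≤ n → n < 7 * p ^ 2 → ∃ a ∈ D, ∃ b ∈ D, a + b = n :=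
    fun n h1 h2 => hD.cover n h1 (by omega)
  have h0 : Cov (leaf D) (6 * p ^ 2) (2 ^ 20 * p ^ 2) := fun _ _ n h1 h2 => hD.cover n h1 h2
  have h1 := Cov_mono_T5 (a' := 9 * P ^ 2) (Cov_step_T5 hP hc h0) (by
    rw [← hPe]
    nlinarith)
  have h2 := Cov_mono_T5 (a' := 10 * P ^ 3) (Cov_step_T5 hP hc h1) (by
    rw [← hPe]
    have : 2 * P + 7 ≤ P ^ 2 := by nlinarith
    calc P * (9 * P ^ 2 + 2 * P + 7) ≤ P * (9 * P ^ 2 + P ^ 2) :=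
          Nat.mul_le_mul_left _ (by omega)
      _ = 10 * P ^ 3 := by ring)
  have h3 := Cov_mono_T5 (a' := 11 * P ^ 4) (Cov_step_T5 hP hc h2) (by
    rw [← hPe]
    have h5 : 2 * P + 7 ≤ P ^ 2 := by nlinarith
    have h6 : P ^ 2 ≤ P ^ 3 := Nat.pow_le_pow_right (by omega) (by norm_num)
    calc P * (10 * P ^ 3 + 2 * P + 7) ≤ P * (10 * P ^ 3 + P ^ 3) :=
          Nat.mul_le_mul_left _ (by omega)
      _ = 11 * P ^ 4 := by ring)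
  have e1 : 11 * p ^ 8 = 11 * P ^ 4 := by rw [hPe]; ring
  have e2 : 2 ^ 20 * p ^ 8 = p ^ 2 * (p ^ 2 * (p ^ 2 * (2 ^ 20 * p ^ 2))) := by ring
  rw [e1, e2]
  exact h3

end Pool.Agent.H125R2.ET
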