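import Pool.Agent.H125R2.ET.Defs

/-!
T6: bounded multiplicity of block + block
-/

set_option autoImplicit false

namespace Pool.Agent.H125R2.ET

open Finset

theorem rep_leaf {C p : ℕ} {D : Finset ℕ} (hD : IsBase C p D) : Rep (leaf D) C :=
  fun _ _ n => hD.rep n

theorem rep_step {C p : ℕ} (hp : 0 < p) {D : Finset ℕ} (hD : IsBase C p D) (X : RFS) (R : ℕ)
    (hX : Rep X R) : Rep (step (p ^ 2) (pow_pos hp 2) D X) (2 * C * C * R) := by
  classical
  intro t t' n
  set P := p ^ 2 with hPdef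
  have hP : 0 < P := pow_pos hp 2
  let Q : Finset (D × D) := univ.filter (fun x => (x.1.1 + x.2.1) % P = n % P)
  let N : D × D → ℕ := fun x => (n - (x.1.1 + x.2.1)) / P - ((t x.1).1.1 + (t' x.2).1.1)
  let W : D × D → Finset (ℕ × ℕ) := fun x =>
    ((X.S (t x.1).2 ×ˢ X.S (t' x.2).2).filter (fun y => y.1 + y.2 = N x)).image
      (fun y => (x.1.1 + P * ((t x.1).1.1 + y.1), x.2.1 + P * ((t' x.2).1.1 + y.2)))
  have h1 : (((step P hP D X).S t ×ˢ (step P hP D X).S t').filter (fun x => x.1 + x.2 = n)) ⊆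
      Q.biUnion W := by
    rintro ⟨u, u'⟩ h
    rw [mem_filter, mem_product, mem_step_S, mem_step_S] at h
    obtain ⟨⟨⟨a, s, hs, hu⟩, ⟨b, s', hs', hu'⟩⟩, hn⟩ := h
    simp only at hu hu' hn
    have hsum : n = (a.1 + b.1) + P * ((t a).1.1 + (t' b).1.1 + (s + s')) := by
      rw [← hn, ← hu, ← hu']
      ring
    rw [mem_biUnion]
    refine ⟨(a, b), ?_, ?_⟩
    · simp only [Q, mem_filter, mem_univ, true_and]
      rw [hsum, Nat.add_mul_mod_self_left]
    · simp only [W, mem_image, mem_filter, mem_product]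
      refine ⟨(s, s'), ⟨⟨hs, hs'⟩, ?_⟩, ?_⟩
      · simp only [N]
        rw [hsum, Nat.add_sub_cancel_left, Nat.mul_div_cancel_left _ hP]
        omega
      · rw [hu, hu']
  have h2 : Q.card ≤ 2 * C * C := by
    have h3 : Q.image (fun x => (x.1.1, x.2.1)) ⊆ (range (2 * C)).biUnion
        (fun j => (D ×ˢ D).filter (fun x => x.1 + x.2 = n % P + P * j)) := by
      rintro ⟨a, b⟩ h
      rw [mem_image] at h
      obtain ⟨⟨a', b'⟩, h4, h5⟩ := h
      simp only [Q, mem_filter, mem_univ, true_and] at h4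
      simp only [Prod.mk.injEq] at h5
      have ha : a ∈ D := h5.1 ▸ a'.2
      have hb : b ∈ D := h5.2 ▸ b'.2
      rw [h5.1, h5.2] at h4
      rw [mem_biUnion]
      refine ⟨(a + b) / P, ?_, ?_⟩
      · rw [mem_range]
        have h6 := hD.hi a ha
        have h7 := hD.hi b hb
        rw [Nat.div_lt_iff_lt_mul hP]
        nlinarith
      · rw [mem_filter, mem_product]
        refine ⟨⟨ha, hb⟩, ?_⟩
        simp only
        rw [← h4]
        exact (Nat.mod_add_div (a + b) P).symm
    have h8 : (Q.image (fun x => (x.1.1, x.2.1))).card = Q.card := by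
      apply card_image_of_injective
      rintro ⟨a, b⟩ ⟨a', b'⟩ h
      simp only [Prod.mk.injEq] at h
      exact Prod.ext (Subtype.ext h.1) (Subtype.ext h.2)
    rw [← h8]
    refine (card_le_card h3).trans (card_biUnion_le.trans ?_)
    refine (sum_le_sum (fun j _ => hD.rep (n % P + P * j))).trans ?_
    rw [sum_const, card_range, smul_eq_mul]
  have h9 : ∀ x ∈ Q, (W x).card ≤ R := fun x _ =>
    card_image_le.trans (hX (t x.1).2 (t' x.2).2 (N x))
  calc repF ((step P hP D X).S t) ((step P hP D X).S t') n ≤ (Q.biUnion W).card := card_le_card h1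
    _ ≤ ∑ x ∈ Q, (W x).card := card_biUnion_le
    _ ≤ ∑ x ∈ Q, R := sum_le_sum h9
    _ = Q.card * R := by rw [sum_const, smul_eq_mul]
    _ ≤ 2 * C * C * R := Nat.mul_le_mul_right R h2

/-- T6 -/
theorem block_rep (C p : ℕ) (hp : 0 < p) (D : Finset ℕ) (hD : IsBase C p D) :
    Rep (block p hp D) (C * (2 * C * C) ^ 3) := by
  have h := rep_step hp hD _ _ (rep_step hp hD _ _ (rep_step hp hD _ _ (rep_leaf hD)))
  have e : C * (2 * C * C) ^ 3 = 2 * C * C * (2 * C * C * (2 * C * C * C)) := by ring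
  rw [e]
  exact h

end Pool.Agent.H125R2.ET
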