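import Pool.Agent.H125R2.ET.Defs

/-!
Task T7 (helper503): range and cardinality of a block
-/

set_option autoImplicit false

namespace Pool.Agent.H125R2.ET

open Finset

theorem T7_step (P : ℕ) (hP : 0 < P) (D : Finset ℕ) (X : RFS) (A L U N M V : ℕ)
    (hA : ∀ a ∈ D, a < A) (hM : D.card ≤ M)
    (hV : ∀ a τ s : ℕ, a < A → τ < P → s < U → a + P * (τ + s) < V)
    (hX : ∀ t, (∀ s ∈ X.S t, L ≤ s ∧ s < U) ∧ (X.S t).card ≤ N) :
    ∀ t : (step P hP D X).Ω, (∀ s ∈ (step P hP D X).S t, P * L ≤ s ∧ s < V) ∧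
      ((step P hP D X).S t).card ≤ M * N := by
  classical
  intro t
  constructor
  · intro s hs
    rw [mem_step_S] at hs
    obtain ⟨a, s', hs', rfl⟩ := hs
    obtain ⟨h1, h2⟩ := (hX (t a).2).1 s' hs'
    constructor
    · calc P * L ≤ P * s' := Nat.mul_le_mul_left _ h1
        _ ≤ P * ((t a).1.1 + s') := Nat.mul_le_mul_left _ (Nat.le_add_left _ _)
        _ ≤ _ := Nat.le_add_left _ _
    · exact hV _ _ _ (hA _ a.2) (t a).1.2 h2
  · have h1 : ((step P hP D X).S t).card ≤ ∑ a : D, N := by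
      refine (Finset.card_biUnion_le).trans (Finset.sum_le_sum fun a _ => ?_)
      exact Finset.card_image_le.trans (hX (t a).2).2
    refine h1.trans ?_
    rw [Finset.sum_const, Finset.card_univ, Fintype.card_coe, smul_eq_mul]
    exact Nat.mul_le_mul_right _ hM

/-- T7 -/
theorem block_range (C : ℕ) : BlockRange C := by
  intro p hp h7 hCp D hD
  set P := p ^ 2 with hPdef
  have hP : 0 < P := pow_pos hp 2
  have hPp : p ≤ P := by rw [hPdef]; nlinarith
  have hP2 : 49 < P := by rw [hPdef]; nlinarith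
  have hCP : C ≤ P := hCp.trans hPp
  have hhi : ∀ a ∈ D, a < C * P := hD.hi
  have hlo : ∀ a ∈ D, P ≤ a := hD.lo
  have hcard : D.card ≤ C * p := hD.card
  have h0 : ∀ t : (leaf D).Ω, (∀ s ∈ (leaf D).S t, P ≤ s ∧ s < C * P) ∧
      ((leaf D).S t).card ≤ C * p := fun t => ⟨fun s hs => ⟨hlo s hs, hhi s hs⟩, hcard⟩
  have h1 := T7_step P hP D (leaf D) (C * P) P (C * P) (C * p) (C * p) ((C + 2) * P ^ 2)
    hhi hcard (by
      intro a τ s ha hτ hs
      have e1 : τ + s + 2 ≤ P + C * P := by omega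
      have e2 : P * (τ + s + 2) ≤ P * (P + C * P) := Nat.mul_le_mul_left _ e1
      have e3 : C * P ≤ P * P := Nat.mul_le_mul_right _ hCP
      nlinarith) h0
  have h2 := T7_step P hP D _ (C * P) (P * P) ((C + 2) * P ^ 2) (C * p * (C * p)) (C * p)
    ((C + 3) * P ^ 3) hhi hcard (by
      intro a τ s ha hτ hs
      have e1 : τ + s + 2 ≤ P + (C + 2) * P ^ 2 := by omega
      have e2 : P * (τ + s + 2) ≤ P * (P + (C + 2) * P ^ 2) := Nat.mul_le_mul_left _ e1
      have e3 : C * P ≤ P * P := Nat.mul_le_mul_right _ hCP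
      have e4 : 2 * (P * P) ≤ P * (P * P) := Nat.mul_le_mul_right _ (by omega)
      nlinarith) h1
  have h3 := T7_step P hP D _ (C * P) (P * (P * P)) ((C + 3) * P ^ 3) (C * p * (C * p * (C * p)))
    (C * p) ((C + 4) * P ^ 4) hhi hcard (by
      intro a τ s ha hτ hs
      have e1 : τ + s + 2 ≤ P + (C + 3) * P ^ 3 := by omega
      have e2 : P * (τ + s + 2) ≤ P * (P + (C + 3) * P ^ 3) := Nat.mul_le_mul_left _ e1
      have e3 : C * P ≤ P * P := Nat.mul_le_mul_right _ hCP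
      have e4 : 2 * (P * P) ≤ P * (P * P) := Nat.mul_le_mul_right _ (by omega)
      have e5 : P * (P * P) ≤ P * (P * (P * P)) := Nat.le_mul_of_pos_left _ hP
      nlinarith) h2
  intro t
  obtain ⟨h4, h5⟩ := h3 t
  have hp8 : p ^ 8 = P ^ 4 := by rw [hPdef]; ring
  refine ⟨fun s hs => ?_, ?_⟩
  · obtain ⟨h6, h7⟩ := h4 s hs
    rw [hp8]
    refine ⟨?_, h7⟩
    calc P ^ 4 = P * (P * (P * P)) := by ring
      _ ≤ s := h6
  · calc ((block p hp D).S t).card ≤ C * p * (C * p * (C * p * (C * p))) := h5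
      _ = C ^ 4 * p ^ 4 := by ring

end Pool.Agent.H125R2.ET
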