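import Pool.Agent.H125R2.ET.T1
import Pool.Agent.H125R2.ET.T2
import Pool.Agent.H125R2.ET.T3
import Pool.Agent.H125R2.ET.T4
import Pool.Agent.H125R2.ET.T5
import Pool.Agent.H125R2.ET.T6
import Pool.Agent.H125R2.ET.T7
import Pool.Agent.H125R2.ET.T10
import Pool.Agent.H125R2.ET.T11
import Pool.Agent.H125R2.ET.T13
import Pool.Agent.H125R2.ET.T14
import Pool.Agent.H125R2.ET.T15
import Pool.Agent.H125R2.ET.T17
import Pool.Agent.H125R2.ET.T19
import Pool.Agent.H125R2.ET.T20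
import Pool.Agent.H125R2.ET.T21
import Pool.Agent.H125R2.ET.T22
import Pool.Agent.H125R2.ET.T23
import Pool.Agent.H125R2.ET.T24b
import Pool.Agent.H125R2.ET.T25


set_option autoImplicit false

namespace Pool.Agent.H125R2.ET

open Finset

theorem base_exists : ∃ C : ℕ, ∀ p : ℕ, p.Prime → 7 < p → ∃ D : Finset ℕ, IsBase C p D := by
  obtain ⟨C, hC⟩ := base_of_local
  refine ⟨C, fun p hp h7 => ?_⟩
  have : Fact p.Prime := ⟨hp⟩
  obtain ⟨E, hE⟩ := local_set p hp h7 (local_quad p h7 (exists_z p h7))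
  exact hC p h7 E hE

theorem exists_sys (C K : ℕ) (hK : 3 ≤ K)
    (hC : ∀ p : ℕ, p.Prime → 7 < p → ∃ D : Finset ℕ, IsBase C p D) : Nonempty (Sys C K) := by
  have h1 : ∀ i : ℕ, ∃ p : ℕ, p.Prime ∧ 2 ^ (K + i) < p ∧ p ≤ 2 ^ (K + i + 1) := by
    intro i
    obtain ⟨p, hp, h1, h2⟩ := Nat.exists_prime_lt_and_le_two_mul (2 ^ (K + i))
      (pow_ne_zero _ two_ne_zero)
    exact ⟨p, hp, h1, by rw [pow_succ]; omega⟩
  choose p hp hlo hhi using h1
  have h7 : ∀ i, 7 < p i := by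
    intro i
    have : 2 ^ 3 ≤ 2 ^ (K + i) := Nat.pow_le_pow_right (by norm_num) (by omega)
    have := hlo i
    omega
  have h2 : ∀ i, ∃ D : Finset ℕ, IsBase C (p i) D := fun i => hC (p i) (hp i) (h7 i)
  choose D hD using h2
  exact ⟨⟨p, D, hp, hlo, hhi, hD⟩⟩

theorem thin_basis : ∃ A : Set ℕ,
    (∃ n₀ : ℕ, ∀ n ≥ n₀, 1 ≤ rA A n) ∧
    (∃ B : ℝ, ∀ x : ℕ, ({a : ℕ | a ∈ A ∧ a ≤ x}.ncard : ℝ) ≤ B * Real.sqrt x) ∧
    (∃ B : ℝ, 0 < B ∧ ∀ n : ℕ, 3 ≤ n →
      (rA A n : ℝ) ≤ B * (Real.log n / Real.log (Real.log n))) ∧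
    (∃ B c : ℝ, 0 < c ∧ ∀ x m : ℕ, 1 ≤ x → 1 ≤ m →
      ({n : ℕ | n ≤ x ∧ m ≤ rA A n}.ncard : ℝ) ≤
        B * x * Real.exp (-(c * m * Real.log m))) := by
  obtain ⟨C, hC⟩ := base_exists
  have hM : BlockMom C := block_mom C
  have hR : BlockRange C := block_range C
  obtain ⟨C3, K0, B, c, hc, hgood⟩ := T18.good_seq2_of exists_good C hR (reg_prob C hM hR) (spr_prob C hM hR)
    (fin_prob C hM hR) (low_class C) (tail_prob C hM hR)
  set K : ℕ := K0 + C + 3 with hKdef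
  obtain ⟨s⟩ := exists_sys C K (by omega) hC
  obtain ⟨ω, hω1, hω2⟩ := hgood K (by omega) s
  have h7 : ∀ i, 7 < s.p i := by
    intro i
    have : 2 ^ 3 ≤ 2 ^ (K + i) := Nat.pow_le_pow_right (by norm_num) (by omega)
    have := s.lo i
    omega
  have hCp : ∀ i, C ≤ s.p i := by
    intro i
    have h1 : K + i < 2 ^ (K + i) := Nat.lt_two_pow_self
    have := s.lo i
    omega
  have hpos : ∀ i, 0 < s.p i := fun i => (s.prime i).pos
  set S : ℕ → Finset ℕ := fun i => (s.X i).S (ω i) with hS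
  set R : ℕ := C ^ 4 + C * (2 * C * C) ^ 3 with hRdef
  have hB : Blocks C K C3 R s.p S := by
    refine ⟨s.lo, s.hi, ?_, ?_, ?_, ?_, ?_, ?_⟩
    · intro i a ha
      exact ((hR (s.p i) (s.prime i).pos (h7 i) (hCp i) (s.D i) (s.base i) (ω i)).1 a ha).1
    · intro i a ha
      exact ((hR (s.p i) (s.prime i).pos (h7 i) (hCp i) (s.D i) (s.base i) (ω i)).1 a ha).2
    · intro i
      refine le_trans (hR (s.p i) (s.prime i).pos (h7 i) (hCp i) (s.D i) (s.base i) (ω i)).2 ?_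
      exact Nat.mul_le_mul_right _ (Nat.le_add_right _ _)
    · intro i n h1 h2
      obtain ⟨a, ha, b, hb, hab⟩ := block_cov C (s.p i) (s.prime i).pos (h7 i) (s.D i) (s.base i)
        (ω i) (ω i) n h1 h2
      exact ⟨a, ha, b, hb, hab⟩
    · intro i n
      refine le_trans (block_rep C (s.p i) (s.prime i).pos (s.D i) (s.base i) (ω i) (ω i) n) ?_
      exact Nat.le_add_left _ _
    · intro i n
      exact hω1 i n
  have hcount := blocks_count C K C3 R s.p S hB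
  refine ⟨bigA S, blocks_basis C K C3 R s.p S hB, blocks_thin C K C3 R s.p S hB,
    blocks_upper C K C3 R (by omega) s.p S hB hcount, ?_⟩
  exact blocks_tail C K C3 R (by omega) s.p S hB hcount B c hc (fun i m h1 h2 => hω2 i m h1 h2)

end Pool.Agent.H125R2.ET
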