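import Pool.Agent.H125R2.ET.Defs

/-!
STUBS (statements of the tasks; never import this file)
-/

set_option autoImplicit false

namespace Pool.Agent.H125R2.ET

open Finset

/-- T1 -/
theorem exists_z (p : ℕ) [Fact p.Prime] (hp : 7 < p) :
    ∃ z : ZMod p, ¬ IsSquare (1 - z ^ 2) ∧ z ^ 2 ≠ 4 := by
  sorry

/-- T2 -/
theorem local_quad (p : ℕ) [Fact p.Prime] (hp : 7 < p)
    (hz : ∃ z : ZMod p, ¬ IsSquare (1 - z ^ 2) ∧ z ^ 2 ≠ 4) :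
    ∃ k l : ZMod p, k ≠ 0 ∧ l ≠ 0 ∧ k + l ≠ 0 ∧ 1 + k ≠ 0 ∧ 1 + l ≠ 0 ∧
      ∀ m n : ZMod p, (∃ x y : ZMod p, x + y = m ∧ x ^ 2 + y ^ 2 = n) ∨
        (∃ x y : ZMod p, x + y = m ∧ k * x ^ 2 + l * y ^ 2 = n) := by
  sorry

/-- T3 -/
theorem local_set (p : ℕ) (hpp : p.Prime) (hp : 7 < p)
    (h : ∃ k l : ZMod p, k ≠ 0 ∧ l ≠ 0 ∧ k + l ≠ 0 ∧ 1 + k ≠ 0 ∧ 1 + l ≠ 0 ∧
      ∀ m n : ZMod p, (∃ x y : ZMod p, x + y = m ∧ x ^ 2 + y ^ 2 = n) ∨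
        (∃ x y : ZMod p, x + y = m ∧ k * x ^ 2 + l * y ^ 2 = n)) :
    ∃ E : Finset (ℕ × ℕ), IsLocal p E := by
  sorry

/-- T4 -/
theorem base_of_local : ∃ C : ℕ, ∀ p : ℕ, 7 < p → ∀ E : Finset (ℕ × ℕ), IsLocal p E →
    ∃ D : Finset ℕ, IsBase C p D := by
  sorry

/-- T5 -/
theorem block_cov (C p : ℕ) (hp : 0 < p) (h7 : 7 < p) (D : Finset ℕ) (hD : IsBase C p D) :
    Cov (block p hp D) (11 * p ^ 8) (2 ^ 20 * p ^ 8) := by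
  sorry

/-- T6 -/
theorem block_rep (C p : ℕ) (hp : 0 < p) (D : Finset ℕ) (hD : IsBase C p D) :
    Rep (block p hp D) (C * (2 * C * C) ^ 3) := by
  sorry

/-- T7 -/
theorem block_range (C : ℕ) : BlockRange C := by
  sorry

/-- T8 -/
theorem mom_step (P : ℕ) (hP : 0 < P) (D : Finset ℕ) (X : RFS) (lam : ℝ) (hlam : 0 ≤ lam)
    (V : Finset ℕ) :
    (step P hP D X).mom lam V ≤
      ∏ a ∈ D, ((∑ τ ∈ range P, X.mom lam (sh (quo P V a) τ)) / (P : ℝ)) := by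
  sorry

/-- T9a -/
theorem avg_leaf (P : ℕ) (hP : 0 < P) (D : Finset ℕ) (lam : ℝ) (hlam : 0 ≤ lam) (g : ℕ)
    (V : Finset ℕ) (hV : V.card ≤ g) :
    (∑ τ ∈ range P, (leaf D).mom lam (sh V τ)) / (P : ℝ) ≤
      1 + Real.exp (lam * g) * D.card * V.card / P := by
  sorry

/-- T9b -/
theorem avg_step (P : ℕ) (hP : 0 < P) (D : Finset ℕ) (X : RFS) (lam κ : ℝ) (hκ : 0 ≤ κ)
    (V : Finset ℕ)
    (h1 : ∀ τ < P, X.mom lam (sh V τ) ≤ Real.exp (κ * (Qn P D (sh V τ) : ℝ)))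
    (h2 : ∀ τ < P, κ * (Qn P D (sh V τ) : ℝ) ≤ 1) :
    (∑ τ ∈ range P, X.mom lam (sh V τ)) / (P : ℝ) ≤ 1 + 2 * κ * D.card * V.card / P := by
  sorry

/-- T10 (uses T8, T9a, T9b as hypotheses or imports) -/
theorem block_mom (C : ℕ) : BlockMom C := by
  sorry

/-- T11 -/
theorem reg_prob (C : ℕ) (hM : BlockMom C) (hR : BlockRange C) : RegProb C := by
  sorry

/-- T12 -/
theorem reg_class {C1 p k M d : ℕ} {S : Finset ℕ} (hR : Reg C1 p k S)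
    (hS : ∀ s ∈ S, s < M * p ^ 8) (hp : 0 < p) (hk : 0 < k) (hd : 0 < d) (hpd : ¬ p ∣ d)
    (c : ℕ) : (S.filter (fun s => s % d = c)).card ≤ C1 * (M * p ^ 4 / d + k) := by
  sorry

/-- T13 (uses T12) -/
theorem low_class (C : ℕ) : LowClass C := by
  sorry

/-- T14 -/
theorem spr_prob (C : ℕ) (hM : BlockMom C) (hR : BlockRange C) : SprProb C := by
  sorry

/-- T15 -/
theorem fin_prob (C : ℕ) (hM : BlockMom C) (hR : BlockRange C) : FinProb C := by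
  sorry

/-- T16 -/
theorem compactness (X : ℕ → RFS) (G : ∀ i, (pre X i).Ω → Prop)
    (hne : ∀ i, ∃ x, G i x)
    (hG : ∀ i (x : (pre X i).Ω) (w : (X i).Ω), G (i + 1) (x, w) → G i x) :
    ∃ ω : ∀ i, (X i).Ω, ∀ i, G i (pt X ω i) := by
  sorry

/-- T17a (uses T16) -/
theorem exists_good (X : ℕ → RFS) (G : ∀ i, (pre X i).Ω → Prop)
    (F : ∀ i, (pre X i).Ω → (X i).Ω → Prop) (Sp : ∀ i, (pre X i).Ω → Prop)
    (h0 : ∀ x : (pre X 0).Ω, Sp 0 x → G 0 x)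
    (hstep : ∀ i (x : (pre X i).Ω) (w : (X i).Ω), G (i + 1) (x, w) ↔
      (G i x ∧ F i x w ∧ Sp (i + 1) (x, w)))
    (hF : ∀ i (x : (pre X i).Ω), G i x → (X i).Pr (fun w => ¬ F i x w) ≤ 1 / 2)
    (hS : ∀ i, (pre X i).Pr (fun x => ¬ Sp i x) ≤ 1 / (2 * 4 ^ i)) :
    ∃ ω : ∀ i, (X i).Ω, ∀ i, G i (pt X ω i) := by
  sorry

/-- T17b (uses T17a) -/
theorem good_seq (C : ℕ) (h0 : BlockRange C) (h1 : RegProb C) (h2 : SprProb C) (h3 : FinProb C)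
    (h4 : LowClass C) : GoodSeq C := by
  sorry

/-- T18 -/
theorem blocks_basis (C K C3 R : ℕ) (p : ℕ → ℕ) (S : ℕ → Finset ℕ) (h : Blocks C K C3 R p S) :
    ∃ n₀ : ℕ, ∀ n ≥ n₀, 1 ≤ rA (bigA S) n := by
  sorry

/-- T19 -/
theorem blocks_thin (C K C3 R : ℕ) (p : ℕ → ℕ) (S : ℕ → Finset ℕ) (h : Blocks C K C3 R p S) :
    ∃ B : ℝ, ∀ x : ℕ, ({a : ℕ | a ∈ bigA S ∧ a ≤ x}.ncard : ℝ) ≤ B * Real.sqrt x := by
  sorry

/-- T20 -/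
theorem blocks_count (C K C3 R : ℕ) (p : ℕ → ℕ) (S : ℕ → Finset ℕ) (h : Blocks C K C3 R p S)
    (n : ℕ) :
    rA (bigA S) n ≤ ∑ i ∈ (range (n + 1)).filter
      (fun i => (p i) ^ 8 ≤ n ∧ n < 2 * ((C + 4) * (p i) ^ 8)),
        (repF (S i) (S i) n + 2 * (S i ∩ refl n ((range i).biUnion S)).card) := by
  sorry

/-- T21 (uses T20) -/
theorem blocks_upper (C K C3 R : ℕ) (hK : 3 ≤ K) (p : ℕ → ℕ) (S : ℕ → Finset ℕ)
    (h : Blocks C K C3 R p S)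
    (hc : ∀ n, rA (bigA S) n ≤ ∑ i ∈ (range (n + 1)).filter
      (fun i => (p i) ^ 8 ≤ n ∧ n < 2 * ((C + 4) * (p i) ^ 8)),
        (repF (S i) (S i) n + 2 * (S i ∩ refl n ((range i).biUnion S)).card)) :
    ∃ B : ℝ, 0 < B ∧ ∀ n : ℕ, 3 ≤ n →
      (rA (bigA S) n : ℝ) ≤ B * (Real.log n / Real.log (Real.log n)) := by
  sorry

end Pool.Agent.H125R2.ET
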