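import Pool.Agent.H125R2.ET.Defs2

/-!
STUBS, second part (statements of the tasks; never import this file)
-/

set_option autoImplicit false

namespace Pool.Agent.H125R2.ET

open Finset

/-- T23 -/
theorem tail_prob (C : ℕ) (hM : BlockMom C) (hR : BlockRange C) : TailProb C := by
  sorry

/-- T24 (variant of T18) -/
theorem good_seq2 (C : ℕ) (h0 : BlockRange C) (h1 : RegProb C) (h2 : SprProb C)
    (h3 : FinProb C) (h4 : LowClass C) (h5 : TailProb C) : GoodSeq2 C := by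
  sorry

/-- T25 -/
theorem blocks_tail (C K C3 R : ℕ) (hK : 3 ≤ K) (p : ℕ → ℕ) (S : ℕ → Finset ℕ)
    (h : Blocks C K C3 R p S)
    (hc : ∀ n, rA (bigA S) n ≤ ∑ i ∈ (range (n + 1)).filter
      (fun i => (p i) ^ 8 ≤ n ∧ n < 2 * ((C + 4) * (p i) ^ 8)),
        (repF (S i) (S i) n + 2 * (S i ∩ refl n ((range i).biUnion S)).card))
    (B c : ℝ) (hc0 : 0 < c)
    (ht : ∀ i m : ℕ, 1 ≤ m → m ≤ K + i →
      (tailCount (S i) ((range i).biUnion S) (2 * ((C + 4) * (p i) ^ 8)) m : ℝ) ≤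
        (p i : ℝ) ^ 8 * Real.exp (B * m - c * m * Real.log m)) :
    ∃ B' c' : ℝ, 0 < c' ∧ ∀ x m : ℕ, 1 ≤ x → 1 ≤ m →
      ({n : ℕ | n ≤ x ∧ m ≤ rA (bigA S) n}.ncard : ℝ) ≤
        B' * x * Real.exp (-(c' * m * Real.log m)) := by
  sorry

end Pool.Agent.H125R2.ET
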