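import Mathlib
import Pool.Agent.H125R2.ET.Defs

/-!
# T1: `1 - z ^ 2` is a nonsquare for some `z` with `z ^ 2 ≠ 4`
-/

set_option autoImplicit false

namespace Pool.Agent.H125R2.ET

theorem T1_natCast_ne_zero (p n : ℕ) [Fact p.Prime] (hp : 7 < p) (h0 : 0 < n)
    (h : ∀ q, q.Prime → q ∣ n → q ≤ 7) : ((n : ℕ) : ZMod p) ≠ 0 := by
  intro hn
  rw [ZMod.natCast_eq_zero_iff] at hn
  have := h p (Fact.out) hn
  omega

theorem T1_smooth {n : ℕ} (h : n ∣ 2 ^ 10 * 3 ^ 10 * 5 ^ 10 * 7 ^ 10) :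
    ∀ q, q.Prime → q ∣ n → q ≤ 7 := by
  intro q hq hqn
  have h1 : q ∣ 2 ^ 10 * 3 ^ 10 * 5 ^ 10 * 7 ^ 10 := hqn.trans h
  rcases (hq.dvd_mul).1 h1 with h2 | h2
  · rcases (hq.dvd_mul).1 h2 with h3 | h3
    · rcases (hq.dvd_mul).1 h3 with h4 | h4
      · have := Nat.le_of_dvd (by norm_num) (hq.dvd_of_dvd_pow h4); omega
      · have := Nat.le_of_dvd (by norm_num) (hq.dvd_of_dvd_pow h4); omega
    · have := Nat.le_of_dvd (by norm_num) (hq.dvd_of_dvd_pow h3); omega
  · have := Nat.le_of_dvd (by norm_num) (hq.dvd_of_dvd_pow h2); omega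

/-- T1 -/
theorem exists_z (p : ℕ) [Fact p.Prime] (hp : 7 < p) :
    ∃ z : ZMod p, ¬ IsSquare (1 - z ^ 2) ∧ z ^ 2 ≠ 4 := by
  by_contra hcon
  push Not at hcon
  have hH : ∀ z : ZMod p, z ^ 2 ≠ 4 → IsSquare (1 - z ^ 2) := by
    intro z hz
    by_contra h
    exact hz (hcon z h)
  have ne : ∀ n : ℕ, 0 < n → n ∣ 2 ^ 10 * 3 ^ 10 * 5 ^ 10 * 7 ^ 10 → ((n : ℕ) : ZMod p) ≠ 0 :=
    fun n h0 h => T1_natCast_ne_zero p n hp h0 (T1_smooth h)
  have n2 : (2 : ZMod p) ≠ 0 := by have := ne 2 (by norm_num) (by norm_num); exact_mod_cast this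
  have n3 : (3 : ZMod p) ≠ 0 := by have := ne 3 (by norm_num) (by norm_num); exact_mod_cast this
  have n5 : (5 : ZMod p) ≠ 0 := by have := ne 5 (by norm_num) (by norm_num); exact_mod_cast this
  have n8 : (8 : ZMod p) ≠ 0 := by have := ne 8 (by norm_num) (by norm_num); exact_mod_cast this
  have n35 : (35 : ZMod p) ≠ 0 := by
    have := ne 35 (by norm_num) (by norm_num); exact_mod_cast this
  have n315 : (315 : ZMod p) ≠ 0 := by
    have := ne 315 (by norm_num) (by norm_num); exact_mod_cast this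
  have n16 : (16 : ZMod p) ≠ 0 := by
    have := ne 16 (by norm_num) (by norm_num); exact_mod_cast this
  have scal : ∀ s t : ZMod p, s ≠ 0 → t ^ 2 ≠ 4 * s ^ 2 → IsSquare (s ^ 2 - t ^ 2) := by
    intro s t hs ht
    have h1 : (t / s) ^ 2 ≠ 4 := by
      intro h
      apply ht
      rw [div_pow, div_eq_iff (pow_ne_zero 2 hs)] at h
      exact h
    obtain ⟨r, hr⟩ := hH (t / s) h1
    refine ⟨s * r, ?_⟩
    have : s ^ 2 - t ^ 2 = s ^ 2 * (1 - (t / s) ^ 2) := by
      field_simp
    rw [this, hr]; ring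
  have h8 : IsSquare (8 : ZMod p) := by
    have := scal 3 1 n3 (by
      intro h
      apply n35
      linear_combination -h)
    have e : (3 : ZMod p) ^ 2 - 1 ^ 2 = 8 := by norm_num
    rwa [e] at this
  have hm8 : IsSquare (-8 : ZMod p) := by
    have := scal 1 3 one_ne_zero (by
      intro h
      apply n5
      linear_combination h)
    have e : (1 : ZMod p) ^ 2 - 3 ^ 2 = -8 := by norm_num
    rwa [e] at this
  have hm1 : IsSquare (-1 : ZMod p) := by
    have := hm8.div h8
    have e : (-8 : ZMod p) / 8 = -1 := by rw [neg_div, div_self n8]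
    rwa [e] at this
  have hneg : ∀ t : ZMod p, IsSquare (-t ^ 2) := by
    intro t
    obtain ⟨i, hi⟩ := hm1
    exact ⟨i * t, by linear_combination t ^ 2 * hi⟩
  have hm48 : IsSquare (-48 : ZMod p) := by
    by_cases h11 : (11 : ZMod p) = 0
    · have := hneg 13
      have e : (-13 ^ 2 : ZMod p) = -48 := by linear_combination -11 * h11
      rwa [e] at this
    · have := scal 11 13 h11 (by
        intro h
        apply n315
        linear_combination -h)
      have e : (11 : ZMod p) ^ 2 - 13 ^ 2 = -48 := by norm_num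
      rwa [e] at this
  have hm3 : IsSquare (-3 : ZMod p) := by
    have h16 : IsSquare (16 : ZMod p) := ⟨4, by norm_num⟩
    have := hm48.div h16
    have e : (-48 : ZMod p) / 16 = -3 := by
      rw [div_eq_iff n16]; norm_num
    rwa [e] at this
  have hsub : ∀ s t : ZMod p, IsSquare (s ^ 2 - t ^ 2) := by
    intro s t
    by_cases hs : s = 0
    · have := hneg t
      rwa [hs, zero_pow two_ne_zero, zero_sub]
    · by_cases ht : t ^ 2 = 4 * s ^ 2
      · obtain ⟨r, hr⟩ := hm3
        exact ⟨r * s, by rw [ht]; linear_combination s ^ 2 * hr⟩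
      · exact scal s t hs ht
  have hall : ∀ n : ℕ, IsSquare ((n : ℕ) : ZMod p) := by
    intro n
    induction n with
    | zero => exact ⟨0, by simp⟩
    | succ n ih =>
      obtain ⟨a, ha⟩ := ih
      obtain ⟨i, hi⟩ := hm1
      have := hsub a i
      have e : a ^ 2 - i ^ 2 = ((n + 1 : ℕ) : ZMod p) := by
        push_cast
        linear_combination -ha + hi
      rwa [e] at this
  have hchar : ringChar (ZMod p) ≠ 2 := by
    rw [ZMod.ringChar_zmod_n]; omega
  obtain ⟨a, ha⟩ := FiniteField.exists_nonsquare hchar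
  apply ha
  have := hall a.val
  rwa [ZMod.natCast_zmod_val] at this

end Pool.Agent.H125R2.ET
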