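import Pool.Agent.H125R2.ET.Defs

/-!
# T10: Lemma M (exponential moments of the hits of a block), from T8 and T9
-/

set_option autoImplicit false

namespace Pool.Agent.H125R2.ET

open Finset

namespace T10

theorem clsLE_sh {m g : ℕ} {V : Finset ℕ} (h : ClsLE m V g) (τ : ℕ) : ClsLE m (sh V τ) g := by
  intro c
  refine le_trans ?_ (h ((τ + c) % m))
  refine Finset.card_le_card_of_injOn (fun s => τ + s) ?_ ?_
  · intro s hs
    have hs' := mem_filter.mp (Finset.mem_coe.mp hs)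
    refine Finset.mem_coe.mpr (mem_filter.mpr ⟨mem_sh.mp hs'.1, ?_⟩)
    change (τ + s) % m = (τ + c) % m
    have h2 : s % m % m = c % m := by rw [hs'.2]
    rw [Nat.mod_mod] at h2
    exact Nat.ModEq.add_left τ h2
  · intro s _ s' _ hss
    have : τ + s = τ + s' := hss
    omega

theorem clsLE_quo {P m g : ℕ} (hP : 0 < P) {V : Finset ℕ} (h : ClsLE (P * m) V g) (a : ℕ) :
    ClsLE m (quo P V a) g := by
  intro c
  refine le_trans ?_ (h ((a + P * c) % (P * m)))
  refine Finset.card_le_card_of_injOn (fun s => a + P * s) ?_ ?_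
  · intro s hs
    have hs' := mem_filter.mp (Finset.mem_coe.mp hs)
    refine Finset.mem_coe.mpr (mem_filter.mpr ⟨(mem_quo hP).mp hs'.1, ?_⟩)
    change (a + P * s) % (P * m) = (a + P * c) % (P * m)
    have h2 : s % m % m = c % m := by rw [hs'.2]
    rw [Nat.mod_mod] at h2
    have h3 : s ≡ c [MOD m] := h2
    exact Nat.ModEq.add_left a (Nat.ModEq.mul_left' P h3)
  · intro s _ s' _ hss
    have h1 : a + P * s = a + P * s' := hss
    have h2 : P * s = P * s' := by omega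
    exact Nat.eq_of_mul_eq_mul_left hP h2

theorem quo_card {P g : ℕ} (hP : 0 < P) {V : Finset ℕ} (h : ClsLE P V g) (a : ℕ) :
    (quo P V a).card ≤ g := by
  refine le_trans ?_ (h (a % P))
  refine Finset.card_le_card_of_injOn (fun s => a + P * s) ?_ ?_
  · intro s hs
    refine Finset.mem_coe.mpr (mem_filter.mpr ⟨(mem_quo hP).mp (Finset.mem_coe.mp hs), ?_⟩)
    change (a + P * s) % P = a % P
    rw [Nat.add_mul_mod_self_left]
  · intro s _ s' _ hss
    have h1 : a + P * s = a + P * s' := hss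
    have h2 : P * s = P * s' := by omega
    exact Nat.eq_of_mul_eq_mul_left hP h2

theorem Qn_le {P g : ℕ} (hP : 0 < P) {D V : Finset ℕ} (h : ClsLE P V g) :
    Qn P D V ≤ D.card * g := by
  unfold Qn
  refine (Finset.sum_le_card_nsmul _ _ g fun a _ => quo_card hP h a).trans ?_
  rw [smul_eq_mul]

theorem Qn_le_card {P C : ℕ} (hP : 0 < P) {D V : Finset ℕ} (hD : ∀ a ∈ D, a < C * P) :
    Qn P D V ≤ C * V.card := by
  classical
  unfold Qn
  -- pairs `(a, w)` with `a + P w ∈ V`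
  have h1 : ∑ a ∈ D, (quo P V a).card = (D.sigma fun a => quo P V a).card := by
    rw [Finset.card_sigma]
  rw [h1]
  -- map `(a, w)` to `(a / P, a + P w)`
  have h2 : (D.sigma fun a => quo P V a).card ≤ ((range C) ×ˢ V).card := by
    refine Finset.card_le_card_of_injOn (fun x => (x.1 / P, x.1 + P * x.2)) ?_ ?_
    · rintro ⟨a, w⟩ hx
      have hx' := Finset.mem_sigma.mp (Finset.mem_coe.mp hx)
      refine Finset.mem_coe.mpr (mem_product.mpr ⟨?_, (mem_quo hP).mp hx'.2⟩)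
      rw [mem_range]
      exact Nat.div_lt_of_lt_mul (by rw [mul_comm]; exact hD a hx'.1)
    · rintro ⟨a, w⟩ _ ⟨a', w'⟩ _ hxx
      simp only [Prod.mk.injEq] at hxx
      obtain ⟨h3, h4⟩ := hxx
      have h5 : a % P = a' % P := by
        have := congrArg (· % P) h4
        simpa using this
      have h6 : a = a' := by
        rw [← Nat.div_add_mod a P, ← Nat.div_add_mod a' P, h3, h5]
      subst h6
      have h7 : P * w = P * w' := by omega
      have h8 := Nat.eq_of_mul_eq_mul_left hP h7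
      rw [h8]
  refine h2.trans ?_
  rw [card_product, card_range]

theorem sh_card (V : Finset ℕ) (τ : ℕ) : (sh V τ).card ≤ V.card := by
  refine Finset.card_le_card_of_injOn (fun s => τ + s) ?_ ?_
  · intro s hs
    exact Finset.mem_coe.mpr (mem_sh.mp (Finset.mem_coe.mp hs))
  · intro s _ s' _ hss
    have : τ + s = τ + s' := hss
    omega

/-- one step of the recursion -/
theorem step_le (P : ℕ) (hP : 0 < P) (D : Finset ℕ) (X : RFS) (lam κ : ℝ) (V : Finset ℕ)
    (h8 : (step P hP D X).mom lam V ≤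
      ∏ a ∈ D, ((∑ τ ∈ range P, X.mom lam (sh (quo P V a) τ)) / (P : ℝ)))
    (h : ∀ a ∈ D, (∑ τ ∈ range P, X.mom lam (sh (quo P V a) τ)) / (P : ℝ) ≤
      1 + κ * (quo P V a).card) :
    (step P hP D X).mom lam V ≤ Real.exp (κ * (Qn P D V : ℝ)) := by
  refine h8.trans ?_
  have h1 : ∏ a ∈ D, ((∑ τ ∈ range P, X.mom lam (sh (quo P V a) τ)) / (P : ℝ)) ≤
      ∏ a ∈ D, Real.exp (κ * (quo P V a).card) := by
    refine Finset.prod_le_prod (fun a _ => ?_) (fun a ha => ?_)
    · exact div_nonneg (Finset.sum_nonneg fun τ _ => mom_nonneg X lam _) (Nat.cast_nonneg _)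
    · refine (h a ha).trans ?_
      have := Real.add_one_le_exp (κ * ((quo P V a).card : ℝ))
      linarith
  refine h1.trans ?_
  rw [← Real.exp_sum, ← Finset.mul_sum]
  unfold Qn
  push_cast
  exact le_refl _

end T10

open T10

/-- Lemma M from T8 and T9 -/
theorem block_mom_of
    (mom_step : ∀ (P : ℕ) (hP : 0 < P) (D : Finset ℕ) (X : RFS) (lam : ℝ), 0 ≤ lam →
      ∀ V : Finset ℕ, (step P hP D X).mom lam V ≤
        ∏ a ∈ D, ((∑ τ ∈ range P, X.mom lam (sh (quo P V a) τ)) / (P : ℝ)))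
    (avg_leaf : ∀ (P : ℕ), 0 < P → ∀ (D : Finset ℕ) (lam : ℝ), 0 ≤ lam → ∀ (g : ℕ)
      (V : Finset ℕ), V.card ≤ g →
      (∑ τ ∈ range P, (leaf D).mom lam (sh V τ)) / (P : ℝ) ≤
        1 + Real.exp (lam * g) * D.card * V.card / P)
    (avg_step : ∀ (P : ℕ), 0 < P → ∀ (D : Finset ℕ) (X : RFS) (lam κ : ℝ), 0 ≤ κ →
      ∀ (V : Finset ℕ),
      (∀ τ < P, X.mom lam (sh V τ) ≤ Real.exp (κ * (Qn P D (sh V τ) : ℝ))) →
      (∀ τ < P, κ * (Qn P D (sh V τ) : ℝ) ≤ 1) →
      (∑ τ ∈ range P, X.mom lam (sh V τ)) / (P : ℝ) ≤ 1 + 2 * κ * D.card * V.card / P)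
    (C : ℕ) : BlockMom C := by
  refine ⟨4 * C ^ 4 + 2 * C ^ 3 + C ^ 2 + 1, by positivity, ?_⟩
  intro p hp D hD lam hlam g h G V hg hh hG hK
  set P := p ^ 2 with hPdef
  have hP : 0 < P := pow_pos hp 2
  have hpr : (0:ℝ) < p := by exact_mod_cast hp
  have hPr : ((P : ℕ) : ℝ) = (p:ℝ) ^ 2 := by rw [hPdef]; push_cast; rfl
  have hPp : (0:ℝ) < P := by exact_mod_cast hP
  set e := Real.exp (lam * g) with he
  have he0 : 0 < e := Real.exp_pos _
  have hn : (D.card : ℝ) ≤ C * p := by exact_mod_cast hD.card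
  have hn0 : (0:ℝ) ≤ D.card := Nat.cast_nonneg _
  have hC0 : (0:ℝ) ≤ C := Nat.cast_nonneg _
  have hh0 : (0:ℝ) ≤ h := Nat.cast_nonneg _
  have hG0 : (0:ℝ) ≤ G := Nat.cast_nonneg _
  have hDlt : ∀ a ∈ D, a < C * P := hD.hi
  set κ1 : ℝ := e * D.card / P with hκ1
  set κ2 : ℝ := 2 * κ1 * D.card / P with hκ2
  set κ3 : ℝ := 2 * κ2 * D.card / P with hκ3
  have hκ10 : 0 ≤ κ1 := by positivity
  have hκ20 : 0 ≤ κ2 := by positivity
  have hκ30 : 0 ≤ κ3 := by positivity
  have b1 : κ1 ≤ e * C / p := by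
    rw [hκ1, hPr, div_le_div_iff₀ (by positivity) hpr]
    calc e * D.card * p ≤ e * (C * p) * p := by gcongr
      _ = e * C * (p:ℝ) ^ 2 := by ring
  have b2 : κ2 ≤ 2 * e * C ^ 2 / (p:ℝ) ^ 2 := by
    rw [hκ2, hPr]
    refine div_le_div_of_nonneg_right ?_ (by positivity)
    calc 2 * κ1 * D.card ≤ 2 * (e * C / p) * (C * p) := by gcongr
      _ = 2 * e * C ^ 2 := by field_simp
  have b3 : κ3 ≤ 4 * e * C ^ 3 / (p:ℝ) ^ 3 := by
    rw [hκ3, hPr]
    rw [div_le_div_iff₀ (by positivity) (by positivity)]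
    calc 2 * κ2 * D.card * (p:ℝ) ^ 3 ≤ 2 * (2 * e * C ^ 2 / (p:ℝ) ^ 2) * (C * p) * (p:ℝ) ^ 3 := by
          gcongr
      _ = 4 * e * C ^ 3 * (p:ℝ) ^ 2 := by field_simp; ring
  -- step 2
  have s2 : ∀ W : Finset ℕ, ClsLE P W g →
      (step P hP D (leaf D)).mom lam W ≤ Real.exp (κ1 * (Qn P D W : ℝ)) := by
    intro W hW
    refine step_le P hP D (leaf D) lam κ1 W (mom_step P hP D (leaf D) lam hlam W) ?_
    intro a _
    have := avg_leaf P hP D lam hlam g (quo P W a) (quo_card hP hW a)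
    refine this.trans (le_of_eq ?_)
    rw [hκ1]
    ring
  -- step 3
  have s3 : ∀ W : Finset ℕ, W.card ≤ h → ClsLE P W g →
      (∑ τ ∈ range P, (step P hP D (leaf D)).mom lam (sh W τ)) / (P : ℝ) ≤ 1 + κ2 * W.card := by
    intro W hWh hW
    have := avg_step P hP D (step P hP D (leaf D)) lam κ1 hκ10 W
      (fun τ _ => s2 _ (clsLE_sh hW τ)) (fun τ _ => by
        have h1 : (Qn P D (sh W τ) : ℝ) ≤ C * h := by
          have h2 : Qn P D (sh W τ) ≤ C * h :=
            (Qn_le_card hP hDlt).trans (Nat.mul_le_mul_left C ((sh_card W τ).trans hWh))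
          exact_mod_cast h2
        calc κ1 * (Qn P D (sh W τ) : ℝ) ≤ (e * C / p) * (C * h) := by gcongr
          _ = (C ^ 2 * e * h) / p := by ring
          _ ≤ 1 := by
            rw [div_le_one hpr]
            refine le_trans ?_ hK
            have : (C:ℝ) ^ 2 ≤ 4 * C ^ 4 + 2 * C ^ 3 + C ^ 2 + 1 := by
              have : (0:ℝ) ≤ 4 * C ^ 4 + 2 * C ^ 3 + 1 := by positivity
              linarith
            gcongr)
    refine this.trans (le_of_eq ?_)
    rw [hκ2]
    ring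
  -- step 4
  have s4 : ∀ W : Finset ℕ, ClsLE P W h → ClsLE (P * P) W g →
      (step P hP D (step P hP D (leaf D))).mom lam W ≤ Real.exp (κ2 * (Qn P D W : ℝ)) := by
    intro W hWh hWg
    refine step_le P hP D _ lam κ2 W (mom_step P hP D _ lam hlam W) ?_
    intro a _
    exact s3 _ (quo_card hP hWh a) (clsLE_quo hP hWg a)
  -- step 5
  have s5 : ∀ W : Finset ℕ, ClsLE P W h → ClsLE (P * P) W g →
      (∑ τ ∈ range P, (step P hP D (step P hP D (leaf D))).mom lam (sh W τ)) / (P : ℝ) ≤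
        1 + κ3 * W.card := by
    intro W hWh hWg
    have := avg_step P hP D (step P hP D (step P hP D (leaf D))) lam κ2 hκ20 W
      (fun τ _ => s4 _ (clsLE_sh hWh τ) (clsLE_sh hWg τ)) (fun τ _ => by
        have h1 : (Qn P D (sh W τ) : ℝ) ≤ D.card * h := by
          exact_mod_cast Qn_le hP (clsLE_sh hWh τ)
        calc κ2 * (Qn P D (sh W τ) : ℝ) ≤ (2 * e * C ^ 2 / (p:ℝ) ^ 2) * ((C * p) * h) := by
              gcongr
              exact h1.trans (by gcongr)
          _ = (2 * C ^ 3 * e * h) / p := by field_simp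
          _ ≤ 1 := by
            rw [div_le_one hpr]
            refine le_trans ?_ hK
            have : 2 * (C:ℝ) ^ 3 ≤ 4 * C ^ 4 + 2 * C ^ 3 + C ^ 2 + 1 := by
              have : (0:ℝ) ≤ 4 * C ^ 4 + C ^ 2 + 1 := by positivity
              linarith
            gcongr)
    refine this.trans (le_of_eq ?_)
    rw [hκ3]
    ring
  -- step 6
  have e4 : p ^ 4 = P * P := by rw [hPdef]; ring
  have e6 : p ^ 6 = P * (P * P) := by rw [hPdef]; ring
  rw [e4] at hh
  rw [e6] at hg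
  have s6 : (block p hp D).mom lam V ≤ Real.exp (κ3 * (Qn P D V : ℝ)) := by
    change (step P hP D (step P hP D (step P hP D (leaf D)))).mom lam V ≤ _
    refine step_le P hP D _ lam κ3 V (mom_step P hP D _ lam hlam V) ?_
    intro a _
    exact s5 _ (clsLE_quo hP hh a) (clsLE_quo hP hg a)
  refine s6.trans (Real.exp_le_exp.mpr ?_)
  have h1 : (Qn P D V : ℝ) ≤ D.card * G := by exact_mod_cast Qn_le hP hG
  calc κ3 * (Qn P D V : ℝ) ≤ (4 * e * C ^ 3 / (p:ℝ) ^ 3) * ((C * p) * G) := by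
        gcongr
        exact h1.trans (by gcongr)
    _ = (4 * C ^ 4) * e * G / (p:ℝ) ^ 2 := by field_simp
    _ ≤ (4 * C ^ 4 + 2 * C ^ 3 + C ^ 2 + 1) * e * G / (p:ℝ) ^ 2 := by
      have : 4 * (C:ℝ) ^ 4 ≤ 4 * C ^ 4 + 2 * C ^ 3 + C ^ 2 + 1 := by
        have : (0:ℝ) ≤ 2 * C ^ 3 + C ^ 2 + 1 := by positivity
        linarith
      gcongr

end Pool.Agent.H125R2.ET
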