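import Pool.Agent.H125R2.ET.Defs

/-!
Task T16 (helper503): compactness
-/

set_option autoImplicit false

namespace Pool.Agent.H125R2.ET

open Finset

theorem T16_congr (X : ℕ → RFS) (ω ω' : ∀ i, (X i).Ω) :
    ∀ m, (∀ i < m, ω i = ω' i) → pt X ω m = pt X ω' m
  | 0, _ => rfl
  | (m + 1), h => by
    have h1 := T16_congr X ω ω' m (fun i hi => h i (Nat.lt_succ_of_lt hi))
    have h2 := h m (Nat.lt_succ_self m)
    show (pt X ω m, ω m) = (pt X ω' m, ω' m)
    rw [h1, h2]

theorem T16_surj (X : ℕ → RFS) : ∀ m (x : (pre X m).Ω), ∃ ω : ∀ i, (X i).Ω, pt X ω m = x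
  | 0, _ => ⟨fun i => Classical.choice (X i).ne, rfl⟩
  | (m + 1), x => by
    classical
    obtain ⟨ω, hω⟩ := T16_surj X m x.1
    refine ⟨Function.update ω m x.2, ?_⟩
    have h1 : pt X (Function.update ω m x.2) m = pt X ω m :=
      T16_congr X _ _ m (fun i hi => Function.update_of_ne (Nat.ne_of_lt hi) _ _)
    show (pt X (Function.update ω m x.2) m, Function.update ω m x.2 m) = x
    rw [h1, hω, Function.update_self]
    rfl

/-- T16 -/
theorem compactness (X : ℕ → RFS) (G : ∀ i, (pre X i).Ω → Prop)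
    (hne : ∀ i, ∃ x, G i x)
    (hG : ∀ i (x : (pre X i).Ω) (w : (X i).Ω), G (i + 1) (x, w) → G i x) :
    ∃ ω : ∀ i, (X i).Ω, ∀ i, G i (pt X ω i) := by
  let _ : ∀ i, TopologicalSpace (X i).Ω := fun i => ⊥
  have : ∀ i, DiscreteTopology (X i).Ω := fun i => ⟨rfl⟩
  have hopen : ∀ m (x : (pre X m).Ω), IsOpen {ω : ∀ i, (X i).Ω | pt X ω m = x} := by
    intro m
    induction m with
    | zero =>
      intro x
      have : {ω : ∀ i, (X i).Ω | pt X ω 0 = x} = Set.univ := by
        ext ω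
        simp only [Set.mem_ofPred_eq, Set.mem_univ, iff_true]
        rfl
      rw [this]
      exact isOpen_univ
    | succ m ih =>
      intro x
      have : {ω : ∀ i, (X i).Ω | pt X ω (m + 1) = x} =
          {ω | pt X ω m = x.1} ∩ {ω | ω m = x.2} := by
        ext ω
        simp only [Set.mem_ofPred_eq, Set.mem_inter_iff]
        exact Prod.ext_iff
      rw [this]
      refine (ih x.1).inter ?_
      have hx2 : IsOpen ({x.2} : Set (X m).Ω) := isOpen_discrete _
      have hc : Continuous (fun ω : ∀ i, (X i).Ω => ω m) := continuous_apply m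
      exact hx2.preimage hc
  have hclosed : ∀ m, IsClosed {ω : ∀ i, (X i).Ω | G m (pt X ω m)} := by
    intro m
    rw [← isOpen_compl_iff]
    have : {ω : ∀ i, (X i).Ω | G m (pt X ω m)}ᶜ =
        ⋃ x ∈ {x | ¬ G m x}, {ω : ∀ i, (X i).Ω | pt X ω m = x} := by
      ext ω
      simp
    rw [this]
    exact isOpen_biUnion fun x _ => hopen m x
  have key := IsCompact.nonempty_iInter_of_sequence_nonempty_isCompact_isClosed
    (fun m => {ω : ∀ i, (X i).Ω | G m (pt X ω m)})
    (fun m ω (hω : G (m + 1) (pt X ω (m + 1))) => hG m _ _ hω)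
    (fun m => by
      obtain ⟨x, hx⟩ := hne m
      obtain ⟨ω, hω⟩ := T16_surj X m x
      exact ⟨ω, by rw [Set.mem_ofPred_eq, hω]; exact hx⟩)
    (hclosed 0).isCompact hclosed
  obtain ⟨ω, hω⟩ := key
  exact ⟨ω, fun i => Set.mem_iInter.1 hω i⟩

end Pool.Agent.H125R2.ET
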