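import Pool.Agent.H125R2.ET.Defs

/-!
# T20: the union of the blocks has `O(√x)` elements up to `x`
-/

set_option autoImplicit false

namespace Pool.Agent.H125R2.ET

open Finset

theorem t20_geom (K m : ℕ) : ∑ i ∈ range (m + 1), 16 ^ (K + i) ≤ 2 * 16 ^ (K + m) := by
  induction m with
  | zero => simp
  | succ m ih =>
    rw [Finset.sum_range_succ]
    have : 16 ^ (K + (m + 1)) = 16 * 16 ^ (K + m) := by rw [← Nat.add_assoc, pow_succ, mul_comm]
    omega

theorem blocks_thin (C K C3 R : ℕ) (p : ℕ → ℕ) (S : ℕ → Finset ℕ) (h : Blocks C K C3 R p S) :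
    ∃ B : ℝ, ∀ x : ℕ, ({a : ℕ | a ∈ bigA S ∧ a ≤ x}.ncard : ℝ) ≤ B * Real.sqrt x := by
  classical
  refine ⟨32 * R, fun x => ?_⟩
  set F : Finset ℕ := (range (x + 1)).filter (fun i => p i ^ 8 ≤ x) with hF
  have hsub : {a : ℕ | a ∈ bigA S ∧ a ≤ x} ⊆ ((F.biUnion S : Finset ℕ) : Set ℕ) := by
    rintro a ⟨⟨i, hi⟩, hax⟩
    rw [Finset.mem_coe, Finset.mem_biUnion]
    refine ⟨i, ?_, hi⟩
    have h1 : p i ^ 8 ≤ x := (h.ge i a hi).trans hax
    rw [hF, Finset.mem_filter, Finset.mem_range]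
    refine ⟨?_, h1⟩
    have h2 : i < 2 ^ i := Nat.lt_two_pow_self
    have h3 : 2 ^ i ≤ 2 ^ (K + i) := Nat.pow_le_pow_right (by norm_num) (by omega)
    have h4 := h.lo i
    have h5 : p i ≤ p i ^ 8 := Nat.le_self_pow (by norm_num) _
    omega
  have hcard : {a : ℕ | a ∈ bigA S ∧ a ≤ x}.ncard ≤ ∑ i ∈ F, R * p i ^ 4 := by
    calc {a : ℕ | a ∈ bigA S ∧ a ≤ x}.ncard ≤ ((F.biUnion S : Finset ℕ) : Set ℕ).ncard :=
          Set.ncard_le_ncard hsub (Finset.finite_toSet _)
      _ = (F.biUnion S).card := Set.ncard_coe_finset _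
      _ ≤ ∑ i ∈ F, (S i).card := Finset.card_biUnion_le
      _ ≤ ∑ i ∈ F, R * p i ^ 4 := Finset.sum_le_sum (fun i _ => h.card i)
  rcases F.eq_empty_or_nonempty with hE | hne
  · rw [hE] at hcard
    simp only [Finset.sum_empty, Nat.le_zero] at hcard
    rw [hcard]
    simp only [Nat.cast_zero]
    positivity
  · set m := F.max' hne with hm
    have hmF : m ∈ F := Finset.max'_mem F hne
    have hmx : p m ^ 8 ≤ x := (Finset.mem_filter.1 hmF).2
    have h1 : ∑ i ∈ F, R * p i ^ 4 ≤ 32 * R * p m ^ 4 := by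
      calc ∑ i ∈ F, R * p i ^ 4 ≤ ∑ i ∈ F, R * (16 * 16 ^ (K + i)) := by
            apply Finset.sum_le_sum
            intro i _
            apply Nat.mul_le_mul_left
            calc p i ^ 4 ≤ (2 ^ (K + i + 1)) ^ 4 := Nat.pow_le_pow_left (h.hi i) 4
              _ = 16 * 16 ^ (K + i) := by
                rw [← pow_mul, mul_comm (K + i + 1) 4, pow_mul, pow_succ]
                norm_num [mul_comm]
        _ ≤ ∑ i ∈ range (m + 1), R * (16 * 16 ^ (K + i)) := by
            apply Finset.sum_le_sum_of_subset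
            intro i hi
            rw [Finset.mem_range]
            have := Finset.le_max' F i hi
            omega
        _ = 16 * R * ∑ i ∈ range (m + 1), 16 ^ (K + i) := by
            rw [Finset.mul_sum]
            apply Finset.sum_congr rfl
            intro i _
            ring
        _ ≤ 16 * R * (2 * 16 ^ (K + m)) := Nat.mul_le_mul_left _ (t20_geom K m)
        _ ≤ 16 * R * (2 * p m ^ 4) := by
            apply Nat.mul_le_mul_left
            apply Nat.mul_le_mul_left
            calc 16 ^ (K + m) = (2 ^ (K + m)) ^ 4 := by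
                  rw [← pow_mul, mul_comm (K + m) 4, pow_mul]; norm_num
              _ ≤ p m ^ 4 := Nat.pow_le_pow_left (h.lo m).le 4
        _ = 32 * R * p m ^ 4 := by ring
    have h2 : ((p m : ℝ)) ^ 4 ≤ Real.sqrt x := by
      apply Real.le_sqrt_of_sq_le
      rw [← pow_mul]
      exact_mod_cast hmx
    calc ({a : ℕ | a ∈ bigA S ∧ a ≤ x}.ncard : ℝ) ≤ ((32 * R * p m ^ 4 : ℕ) : ℝ) := by
          exact_mod_cast hcard.trans h1
      _ = 32 * R * (p m : ℝ) ^ 4 := by push_cast; ring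
      _ ≤ 32 * R * Real.sqrt x := by
          apply mul_le_mul_of_nonneg_left h2
          positivity

end Pool.Agent.H125R2.ET
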